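import Pool.Agent.Lib.MP_94aef8_gt.Cube
import Pool.Agent.Lib.MP_94aef8_gt.DefsEq

/-! Cubes, coordinate derivatives, cut-off functions. -/

open scoped ContDiff Topology
open Filter Set MeasureTheory Matrix

namespace Pool.Agent.Lib.MP_94aef8_gt.D

/-- The closed cube. -/
def Kc (r : ℝ) : Set E4 := {y | ∀ i, |y i| ≤ r}

/-- Smooth at the point `y`. -/
abbrev At (f : Fn) (y : E4) : Prop := ContDiffAt ℝ ∞ f y

/-- Smooth at all points of `S`. -/
def So (S : Set E4) (f : Fn) : Prop := ∀ y ∈ S, At f y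

/-- A field of matrices that is smooth at all points of `S`. -/
def SoM (S : Set E4) (h : Tn) : Prop := ∀ i j, So S fun y => h y i j

/-- A cut-off function: `1` on the closed cube of radius `r`, `0` outside that of radius `r'`. -/
structure Cut (r r' : ℝ) (χ : Fn) : Prop where
  sm : ContDiff ℝ ∞ χ
  one : ∀ y ∈ Kc r, χ y = 1
  zero : ∀ y, y ∉ Kc r' → χ y = 0
  nonneg : ∀ y, 0 ≤ χ y
  le_one : ∀ y, χ y ≤ 1

variable {f g : Fn} {y : E4} {S U : Set E4} {r R : ℝ}

theorem isOpen_Q (r : ℝ) : IsOpen (Q r) := by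
  have : Q r = ⋂ i : Fin 4, {y : E4 | |y i| < r} := by
    ext y
    simp [Q]
  rw [this]
  exact isOpen_iInter_of_finite fun i => isOpen_lt (by fun_prop) continuous_const

theorem meas_Q (r : ℝ) : MeasurableSet (Q r) := (isOpen_Q r).measurableSet

theorem Q_mono (h : r ≤ R) : Q r ⊆ Q R := fun _ hy i => (hy i).trans_le h

theorem Kc_mono (h : r ≤ R) : Kc r ⊆ Kc R := fun _ hy i => (hy i).trans h

theorem Q_sub_Kc (r : ℝ) : Q r ⊆ Kc r := fun _ hy i => (hy i).le

theorem Kc_sub_Q (h : r < R) : Kc r ⊆ Q R := fun _ hy i => (hy i).trans_lt h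

theorem isClosed_Kc (r : ℝ) : IsClosed (Kc r) := by
  have : Kc r = ⋂ i : Fin 4, {y : E4 | |y i| ≤ r} := by
    ext y
    simp [Kc]
  rw [this]
  exact isClosed_iInter fun i => isClosed_le (by fun_prop) continuous_const

theorem isCompact_Kc (r : ℝ) : IsCompact (Kc r) := by
  refine Metric.isCompact_of_isClosed_isBounded (isClosed_Kc r) ?_
  refine (Metric.isBounded_closedBall (x := (0 : E4)) (r := 2 * |r|)).subset fun y hy => ?_
  rw [mem_closedBall_zero_iff, EuclideanSpace.norm_eq]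
  refine Real.sqrt_le_iff.2 ⟨by positivity, ?_⟩
  have h : ∀ i, ‖y i‖ ^ 2 ≤ |r| ^ 2 := fun i =>
    pow_le_pow_left₀ (norm_nonneg _) ((hy i).trans (le_abs_self r)) 2
  rw [Fin.sum_univ_four]
  nlinarith [h 0, h 1, h 2, h 3]

theorem vol_Q_lt (r : ℝ) : volume (Q r) < ⊤ :=
  (measure_mono (Q_sub_Kc r)).trans_lt (isCompact_Kc r).measure_lt_top

theorem So.mono {T : Set E4} (h : So T f) (hS : S ⊆ T) : So S f := fun y hy => h y (hS hy)

theorem SoM.mono {T : Set E4} {h : Tn} (hh : SoM T h) (hS : S ⊆ T) : SoM S h :=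
  fun i j => (hh i j).mono hS

theorem so_of_on (hU : IsOpen U) (hf : ContDiffOn ℝ ∞ f U) : So U f :=
  fun _ hy => hf.contDiffAt (hU.mem_nhds hy)

theorem So.on (hf : So S f) : ContDiffOn ℝ ∞ f S := fun y hy => (hf y hy).contDiffWithinAt

theorem so_Kc (h : r < R) (hf : ContDiffOn ℝ ∞ f (Q R)) : So (Kc r) f :=
  (so_of_on (isOpen_Q R) hf).mono (Kc_sub_Q h)

theorem soM_Kc {h : Tn} (hr : r < R) (hf : SmT h (Q R)) : SoM (Kc r) h :=
  fun i j => so_Kc hr (hf i j)

theorem so_of_sm (hf : ContDiff ℝ ∞ f) (S : Set E4) : So S f := fun _ _ => hf.contDiffAt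

theorem So.cont (hf : So S f) : ContinuousOn f S := hf.on.continuousOn

theorem diffAt (hf : At f y) : DifferentiableAt ℝ f y := hf.differentiableAt (by simp)

theorem evDiff (hf : At f y) : ∀ᶠ z in 𝓝 y, DifferentiableAt ℝ f z :=
  ((hf.of_le (m := 1) (by simp)).eventually (by simp)).mono fun _ h => h.differentiableAt (by simp)

theorem at_pd (hf : At f y) (i : Fin 4) : At (pd i f) y := by
  have h : ContDiffAt ℝ ∞ (fderiv ℝ f) y := hf.fderiv_right (m := ∞) (by simp)
  exact h.clm_apply contDiffAt_const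

theorem at_pdw (hf : At f y) (w : List (Fin 4)) : At (pdw w f) y := by
  induction w with
  | nil => exact hf
  | cons i w ih => exact at_pd ih i

theorem at_sum {ι : Type} (s : Finset ι) {F : ι → Fn} (h : ∀ i ∈ s, At (F i) y) :
    At (∑ i ∈ s, F i) y := by
  have e : (∑ i ∈ s, F i) = fun z => ∑ i ∈ s, F i z := by
    ext z
    simp
  rw [e]
  exact ContDiffAt.sum h

theorem So.pd (hf : So S f) (i : Fin 4) : So S (pd i f) := fun y hy => at_pd (hf y hy) i

theorem So.pdw (hf : So S f) (w : List (Fin 4)) : So S (pdw w f) := fun y hy => at_pdw (hf y hy) w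

theorem So.add (hf : So S f) (hg : So S g) : So S (f + g) := fun y hy => (hf y hy).add (hg y hy)

theorem So.sub (hf : So S f) (hg : So S g) : So S (f - g) := fun y hy => (hf y hy).sub (hg y hy)

theorem So.mul (hf : So S f) (hg : So S g) : So S (f * g) := fun y hy => (hf y hy).mul (hg y hy)

theorem So.neg (hf : So S f) : So S (-f) := fun y hy => (hf y hy).neg

theorem So.smul (c : ℝ) (hf : So S f) : So S (c • f) := fun y hy => (hf y hy).const_smul c

theorem So.sum {ι : Type} (s : Finset ι) {F : ι → Fn} (h : ∀ i ∈ s, So S (F i)) :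
    So S (∑ i ∈ s, F i) := fun y hy => at_sum s fun i hi => h i hi y hy

theorem sm_pd (hf : ContDiff ℝ ∞ f) (i : Fin 4) : ContDiff ℝ ∞ (pd i f) :=
  contDiff_iff_contDiffAt.2 fun _ => at_pd hf.contDiffAt i

theorem pd_congr (e : f =ᶠ[𝓝 y] g) (i : Fin 4) : pd i f =ᶠ[𝓝 y] pd i g := by
  filter_upwards [e.fderiv (𝕜 := ℝ)] with q hq
  simp only [pd, hq]

theorem pdw_congr (e : f =ᶠ[𝓝 y] g) (w : List (Fin 4)) : pdw w f =ᶠ[𝓝 y] pdw w g := by
  induction w with
  | nil => exact e
  | cons i w ih => exact pd_congr ih i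

theorem pd_congr_on (hU : IsOpen U) (h : EqOn f g U) (i : Fin 4) : EqOn (pd i f) (pd i g) U :=
  fun _ hy => (pd_congr (h.eventuallyEq_of_mem (hU.mem_nhds hy)) i).eq_of_nhds

theorem pdw_concat (w : List (Fin 4)) (i : Fin 4) (f : Fn) :
    pdw (w ++ [i]) f = pdw w (pd i f) := by
  induction w with
  | nil => rfl
  | cons j w ih => simp only [List.cons_append, pdw, ih]

theorem pd_add (hf : DifferentiableAt ℝ f y) (hg : DifferentiableAt ℝ g y) (i : Fin 4) :
    pd i (f + g) y = pd i f y + pd i g y := by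
  simp only [pd, fderiv_add hf hg, _root_.add_apply]

theorem pd_sub (hf : DifferentiableAt ℝ f y) (hg : DifferentiableAt ℝ g y) (i : Fin 4) :
    pd i (f - g) y = pd i f y - pd i g y := by
  simp only [pd, fderiv_sub hf hg, _root_.sub_apply]

theorem pd_mul (hf : DifferentiableAt ℝ f y) (hg : DifferentiableAt ℝ g y) (i : Fin 4) :
    pd i (f * g) y = pd i f y * g y + f y * pd i g y := by
  simp only [pd, fderiv_mul hf hg, _root_.add_apply, _root_.smul_apply, smul_eq_mul]
  ring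

theorem pd_smul (c : ℝ) (f : Fn) (i : Fin 4) : pd i (c • f) = c • pd i f := by
  ext y
  simp only [pd, fderiv_const_smul_field, Pi.smul_apply, _root_.smul_apply]

theorem pd_neg (f : Fn) (i : Fin 4) : pd i (-f) = -pd i f := by
  ext y
  simp only [pd, fderiv_neg, Pi.neg_apply, _root_.neg_apply]

theorem pd_const (c : ℝ) (i : Fin 4) : pd i (fun _ => c) = 0 := by
  ext y
  simp [pd]

theorem pd_zero (i : Fin 4) : pd i (0 : Fn) = 0 := pd_const 0 i

theorem pd_sum {ι : Type} (s : Finset ι) {F : ι → Fn} (h : ∀ k ∈ s, DifferentiableAt ℝ (F k) y)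
    (i : Fin 4) : pd i (∑ k ∈ s, F k) y = ∑ k ∈ s, pd i (F k) y := by
  simp only [pd, fderiv_sum h, _root_.sum_apply]

theorem pd_add_ev (hf : At f y) (hg : At g y) (i : Fin 4) :
    pd i (f + g) =ᶠ[𝓝 y] pd i f + pd i g := by
  filter_upwards [evDiff hf, evDiff hg] with z h1 h2 using pd_add h1 h2 i

theorem pd_sub_ev (hf : At f y) (hg : At g y) (i : Fin 4) :
    pd i (f - g) =ᶠ[𝓝 y] pd i f - pd i g := by
  filter_upwards [evDiff hf, evDiff hg] with z h1 h2 using pd_sub h1 h2 i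

theorem pd_mul_ev (hf : At f y) (hg : At g y) (i : Fin 4) :
    pd i (f * g) =ᶠ[𝓝 y] pd i f * g + f * pd i g := by
  filter_upwards [evDiff hf, evDiff hg] with z h1 h2 using pd_mul h1 h2 i

theorem pd_sum_ev {ι : Type} (s : Finset ι) {F : ι → Fn} (h : ∀ k ∈ s, At (F k) y) (i : Fin 4) :
    pd i (∑ k ∈ s, F k) =ᶠ[𝓝 y] ∑ k ∈ s, pd i (F k) := by
  have h1 : ∀ᶠ z in 𝓝 y, ∀ k ∈ s, DifferentiableAt ℝ (F k) z :=
    (eventually_all_finset s).2 fun k hk => evDiff (h k hk)
  filter_upwards [h1] with z hz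
  rw [pd_sum s hz i, Finset.sum_apply]

theorem pd_comm2 (hf : ContDiffAt ℝ 2 f y) (i j : Fin 4) :
    pd i (pd j f) y = pd j (pd i f) y := by
  have hs : IsSymmSndFDerivAt ℝ f y := hf.isSymmSndFDerivAt (by
    simp only [minSmoothness_of_isRCLikeNormedField]; exact le_rfl)
  have hd : DifferentiableAt ℝ (fderiv ℝ f) y :=
    (hf.fderiv_right (m := 1) (by norm_num)).differentiableAt (by simp)
  have key : ∀ a b : Fin 4, pd a (pd b f) y = fderiv ℝ (fderiv ℝ f) y (bas a) (bas b) := by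
    intro a b
    have h1 : pd b f = fun q => fderiv ℝ f q (bas b) := rfl
    rw [pd, h1, fderiv_clm_apply hd (differentiableAt_const _)]
    simp
  rw [key, key, hs.eq]

theorem pd_comm (hf : At f y) (i j : Fin 4) : pd i (pd j f) y = pd j (pd i f) y :=
  pd_comm2 (hf.of_le (WithTop.coe_le_coe.2 le_top)) i j

theorem pd_comm_ev (hf : At f y) (i j : Fin 4) : pd i (pd j f) =ᶠ[𝓝 y] pd j (pd i f) :=
  ((hf.of_le (m := 2) (WithTop.coe_le_coe.2 le_top)).eventually (by simp)).mono
    fun _ h => pd_comm2 h i j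

/-- The derivative in a direction in terms of the coordinate derivatives. -/
theorem fderiv_eq_sum (f : Fn) (p v : E4) : fderiv ℝ f p v = ∑ i, v i * pd i f p := by
  have hv : v = ∑ i, v i • bas i := by
    ext j
    simp [bas, Finset.sum_apply, Pi.single_apply]
  conv_lhs => rw [hv]
  simp [pd]

/-- A function that vanishes outside a closed set vanishes near the points outside. -/
theorem ev_zero {K : Set E4} (hK : IsClosed K) (h : ∀ y, y ∉ K → f y = 0) (hy : y ∉ K) :
    f =ᶠ[𝓝 y] 0 :=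
  eventually_of_mem (hK.isOpen_compl.mem_nhds hy) h

theorem pd_zero_off {K : Set E4} (hK : IsClosed K) (h : ∀ y, y ∉ K → f y = 0) (i : Fin 4) :
    ∀ y, y ∉ K → pd i f y = 0 := fun y hy => by
  rw [(pd_congr (ev_zero hK h hy) i).eq_of_nhds, pd_zero, Pi.zero_apply]

theorem sm_of_zero {K : Set E4} (hK : IsClosed K) (hf : So K f) (h : ∀ y, y ∉ K → f y = 0) :
    ContDiff ℝ ∞ f := by
  refine contDiff_iff_contDiffAt.2 fun y => ?_
  by_cases hy : y ∈ K
  · exact hf y hy
  · exact (contDiffAt_const (c := (0 : ℝ))).congr_of_eventuallyEq (ev_zero hK h hy)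

theorem cs_of_zero (h : ∀ y, y ∉ Kc r → f y = 0) : HasCompactSupport f :=
  HasCompactSupport.intro (isCompact_Kc r) h

theorem tsupp_of_zero {K : Set E4} (hK : IsClosed K) (h : ∀ y, y ∉ K → f y = 0) :
    tsupport f ⊆ K :=
  closure_minimal (fun y hy => by_contra fun hn => hy (h y hn)) hK

/-- The product of a cut-off function and a function that is smooth near the support. -/
theorem sm_cut_mul {χ : Fn} (hχ : ContDiff ℝ ∞ χ) (h0 : ∀ y, y ∉ Kc r → χ y = 0)
    (hf : So (Kc r) f) : ContDiff ℝ ∞ (χ * f) :=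
  sm_of_zero (isClosed_Kc r) ((so_of_sm hχ _).mul hf) fun y hy => by
    rw [Pi.mul_apply, h0 y hy, zero_mul]

theorem exists_cut (h : r < R) : ∃ χ, Cut r R χ := by
  obtain ⟨χ, h0, h1, h2⟩ := exists_contMDiffMap_zero_one_of_isClosed (n := ⊤)
    (modelWithCornersSelf ℝ E4) (isOpen_Q R).isClosed_compl (isClosed_Kc r)
    (disjoint_compl_left_iff_subset.2 (Kc_sub_Q h))
  exact ⟨χ, χ.contMDiff.contDiff, fun y hy => h1 hy,
    fun y hy => h0 fun hq => hy (Q_sub_Kc R hq), fun y => (h2 y).1, fun y => (h2 y).2⟩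

theorem Cut.ev_one {χ : Fn} (hχ : Cut r R χ) (hy : y ∈ Q r) : χ =ᶠ[𝓝 y] fun _ => 1 :=
  eventually_of_mem ((isOpen_Q r).mem_nhds hy) fun z hz => hχ.one z (Q_sub_Kc r hz)

theorem Cut.ev_mul {χ : Fn} (hχ : Cut r R χ) (hy : y ∈ Q r) (f : Fn) : χ * f =ᶠ[𝓝 y] f :=
  (hχ.ev_one hy).mono fun z hz => by rw [Pi.mul_apply, hz, one_mul]

theorem So.intOn (hf : So (Kc r) f) : IntegrableOn f (Q r) :=
  (hf.cont.integrableOn_compact (isCompact_Kc r)).mono_set (Q_sub_Kc r)

theorem int_of_cs (hf : ContDiff ℝ ∞ f) (hc : HasCompactSupport f) : Integrable f :=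
  hf.continuous.integrable_of_hasCompactSupport hc

theorem cs_pd (hc : HasCompactSupport f) (i : Fin 4) : HasCompactSupport (pd i f) :=
  (hc.fderiv ℝ).comp_left (g := fun L : E4 →L[ℝ] ℝ => L (bas i)) rfl

theorem integral_pd (hf : ContDiff ℝ ∞ f) (hc : HasCompactSupport f) (i : Fin 4) :
    ∫ y, pd i f y = 0 := by
  have h := integral_mul_fderiv_eq_neg_fderiv_mul_of_integrable (μ := (volume : Measure E4))
    (f := fun _ : E4 => (1 : ℝ)) (g := f) (v := bas i) (by simp)
    (by simp only [one_mul]; exact int_of_cs (sm_pd hf i) (cs_pd hc i))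
    (by simpa using int_of_cs hf hc)
    (fun _ _ => differentiableAt_const _) (fun _ _ => diffAt hf.contDiffAt)
  simpa [pd] using h

/-- The divergence theorem on a cube. -/
theorem integral_pd_Q (h : r < R) (hf : So (Kc r) f) (h0 : ∀ y, y ∉ Kc r → f y = 0) (i : Fin 4) :
    ∫ y in Q R, pd i f y = 0 := by
  rw [setIntegral_eq_integral_of_forall_compl_eq_zero fun y hy =>
    pd_zero_off (isClosed_Kc r) h0 i y fun hk => hy (Kc_sub_Q h hk)]
  exact integral_pd (sm_of_zero (isClosed_Kc r) hf h0) (cs_of_zero h0) i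

end Pool.Agent.Lib.MP_94aef8_gt.D
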