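import Pool.Agent.Lib.MP_94aef8_gt.D.Sob

/-! Products and inverses in Sobolev norms. -/

open scoped ContDiff Topology
open Filter Set MeasureTheory Matrix

namespace Pool.Agent.Lib.MP_94aef8_gt.D

theorem mul_base {r : ℝ} (hr : 0 < r) {a b : ℕ} (h : 0 + 7 ≤ a + b) :
    ∃ C, 0 ≤ C ∧ ∀ f g : Fn, So (Kc r) f → So (Kc r) g →
      hs 0 (Q r) (f * g) ≤ C * hs a (Q r) f * hs b (Q r) g := by
  obtain ⟨C, p, hC⟩ := sob_js 0 hr
  have key : ∀ (a b : ℕ) (f g : Fn), 4 ≤ a → So (Kc r) f → So (Kc r) g →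
      hs 0 (Q r) (f * g) ≤ C * hs a (Q r) f * hs b (Q r) g := by
    intro a b f g ha hf hg
    have h1 := IH.hs_bmul (hf.mul hg).ih (hf.mono (Q_sub_Kc r)) hg.ih
      fun y hy => hC f hf y (Q_sub_Kc r hy)
    rw [pow_zero, one_mul] at h1
    exact h1.trans (mul_le_mul (mul_le_mul_of_nonneg_left (hs_mono ha _ _) p)
      (hs_mono (Nat.zero_le b) _ _) (hs_nonneg _ _ _) (mul_nonneg p (hs_nonneg _ _ _)))
  refine ⟨C, p, fun f g hf hg => ?_⟩
  rcases le_or_gt 4 a with ha | ha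
  · exact key a b f g ha hf hg
  · rw [mul_comm f, mul_right_comm]
    exact key b a g f (by omega) hg hf

/-- Induction on `n` (for all `a`, `b`). `n = 0`: `4 ≤ a` or `4 ≤ b`, use `sob_js 0` for that factor
and `IH.hs_bmul`. Step: `hs_succ`, `pd i (f * g) = pd i f * g + f * pd i g` on `Q r` (`hs_congr`),
`IH.hs_add`, the cases `(0, a, b)`, `(n, a - 1, b)`, `(n, a, b - 1)` and `hs_pd`. -/
theorem hs_mul_gen {r : ℝ} (hr : 0 < r) (n a b : ℕ) (ha : n ≤ a) (hb : n ≤ b) (h : n + 7 ≤ a + b) :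
    ∃ C, 0 ≤ C ∧ ∀ f g : Fn, So (Kc r) f → So (Kc r) g →
      hs n (Q r) (f * g) ≤ C * hs a (Q r) f * hs b (Q r) g := by
  induction n generalizing a b with
  | zero => exact mul_base hr h
  | succ n ih =>
    obtain ⟨a, rfl⟩ : ∃ a', a = a' + 1 := ⟨a - 1, by omega⟩
    obtain ⟨b, rfl⟩ : ∃ b', b = b' + 1 := ⟨b - 1, by omega⟩
    obtain ⟨C0, p0, h0⟩ := mul_base hr (a := a + 1) (b := b + 1) (by omega)
    obtain ⟨C1, p1, h1⟩ := ih a (b + 1) (by omega) (by omega) (by omega)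
    obtain ⟨C2, p2, h2⟩ := ih (a + 1) b (by omega) (by omega) (by omega)
    refine ⟨C0 + 8 * (C1 + C2), by positivity, fun f g hf hg => ?_⟩
    have nf := hs_nonneg (a + 1) (Q r) f
    have ng := hs_nonneg (b + 1) (Q r) g
    have h3 : ∀ i, hs n (Q r) (pd i (f * g)) ≤
        2 * (C1 + C2) * hs (a + 1) (Q r) f * hs (b + 1) (Q r) g := by
      intro i
      rw [hs_congr (isOpen_Q r) n (g := pd i f * g + f * pd i g) fun y hy =>
        pd_mul (diffAt (hf y (Q_sub_Kc r hy))) (diffAt (hg y (Q_sub_Kc r hy))) i]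
      have h4 := IH.hs_add n ((hf.pd i).mul hg).ih (hf.mul (hg.pd i)).ih
      have h5 : C1 * hs a (Q r) (pd i f) * hs (b + 1) (Q r) g ≤
          C1 * hs (a + 1) (Q r) f * hs (b + 1) (Q r) g :=
        mul_le_mul_of_nonneg_right (mul_le_mul_of_nonneg_left (hs_pd _ _ _ _) p1) ng
      have h6 : C2 * hs (a + 1) (Q r) f * hs b (Q r) (pd i g) ≤
          C2 * hs (a + 1) (Q r) f * hs (b + 1) (Q r) g :=
        mul_le_mul_of_nonneg_left (hs_pd _ _ _ _) (mul_nonneg p2 nf)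
      linarith [h1 _ _ (hf.pd i) hg, h2 _ _ hf (hg.pd i)]
    rw [hs_succ n, Fin.sum_univ_four]
    linarith [h0 f g hf hg, h3 0, h3 1, h3 2, h3 3]

/-- The derivative of a power of the inverse. -/
theorem pd_inv_pow {f : Fn} {y : E4} (hf : At f y) (h0 : f y ≠ 0) (k : ℕ) (i : Fin 4) :
    pd i (fun z => (f z)⁻¹ ^ k) =ᶠ[𝓝 y] (-(k : ℝ)) • (pd i f * fun z => (f z)⁻¹ ^ (k + 1)) := by
  filter_upwards [evDiff hf, hf.continuousAt.eventually_ne h0] with z h1 h2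
  have h3 : HasDerivAt (fun t : ℝ => t⁻¹ ^ k) (-(k : ℝ) * (f z)⁻¹ ^ (k + 1)) (f z) := by
    refine ((hasDerivAt_inv h2).fun_pow k).congr_deriv ?_
    cases k with
    | zero => simp
    | succ k =>
      rw [Nat.add_sub_cancel, ← inv_pow]
      ring
  have h4 := (h3.comp_hasFDerivAt z h1.hasFDerivAt).fderiv
  rw [pd, show (fun z => (f z)⁻¹ ^ k) = (fun t : ℝ => t⁻¹ ^ k) ∘ f from rfl, h4]
  simp only [pd, Pi.smul_apply, Pi.mul_apply, smul_eq_mul, _root_.smul_apply]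
  ring

theorem mul_sq {c t : ℝ} (hc : 0 < c) (h : c ≤ |t|) (k : ℕ) : (t⁻¹ ^ k) ^ 2 ≤ (c⁻¹ ^ k) ^ 2 := by
  rw [← sq_abs, abs_pow, abs_inv]
  gcongr

theorem mul_ne {c t : ℝ} (hc : 0 < c) (h : c ≤ |t|) : t ≠ 0 := abs_pos.1 (hc.trans_le h)

/-- Induction on `l` (for all `k`): `js_succ`, `pd_inv_pow`, `js_congr`, `js_smul`, `js_mul_le`. -/
theorem js_inv_pow (l k : ℕ) {c : ℝ} (hc : 0 < c) (B : ℝ) : ∃ C, 0 ≤ C ∧ ∀ (f : Fn) (y : E4),
    At f y → c ≤ |f y| → js l f y ≤ B → js l (fun z => (f z)⁻¹ ^ k) y ≤ C := by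
  induction l generalizing k with
  | zero => exact ⟨_, sq_nonneg _, fun f y _ h1 _ => mul_sq hc h1 k⟩
  | succ l ih =>
    obtain ⟨C, p, hC⟩ := ih (k + 1)
    refine ⟨(c⁻¹ ^ k) ^ 2 + 4 * ((-(k : ℝ)) ^ 2 * (5 ^ l * |B| * C)), by positivity,
      fun f y hf h1 h2 => ?_⟩
    have h0 := mul_ne hc h1
    have h3 : ∀ i, js l (pd i fun z => (f z)⁻¹ ^ k) y ≤ (-(k : ℝ)) ^ 2 * (5 ^ l * |B| * C) := by
      intro i
      rw [js_congr l (pd_inv_pow hf h0 k i), js_smul]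
      refine mul_le_mul_of_nonneg_left ?_ (sq_nonneg _)
      refine (js_mul_le l (at_pd hf i) ((hf.inv h0).pow (k + 1))
        ((js_pd l f y i).trans (h2.trans (le_abs_self B)))).trans ?_
      exact mul_le_mul_of_nonneg_left (hC f y hf h1 ((js_le_succ l f y).trans h2)) (by positivity)
    rw [js_succ, Fin.sum_univ_four]
    linarith [mul_sq hc h1 k, h3 0, h3 1, h3 2, h3 3]

/-- Induction on `l` (for all `k`): `hs_le_vol`, `hs_succ`, `pd_inv_pow`, `hs_congr`, `hs_smul` and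
`hs_mul_gen` with `(l, m - 1, l)`. -/
theorem hs_inv_pow {r : ℝ} (hr : 0 < r) {m : ℕ} (hm : 8 ≤ m) {c : ℝ} (hc : 0 < c) (B : ℝ)
    (l k : ℕ) (hl : l ≤ m) : ∃ C, 0 ≤ C ∧ ∀ f : Fn, So (Kc r) f → (∀ y ∈ Kc r, c ≤ |f y|) →
      hs m (Q r) f ≤ B → hs l (Q r) (fun z => (f z)⁻¹ ^ k) ≤ C := by
  have base : ∀ (k : ℕ) (f : Fn), So (Kc r) f → (∀ y ∈ Kc r, c ≤ |f y|) →
      So (Kc r) (fun z => (f z)⁻¹ ^ k) ∧
        hs 0 (Q r) (fun z => (f z)⁻¹ ^ k) ≤ volume.real (Q r) * (c⁻¹ ^ k) ^ 2 := by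
    intro k f hf h1
    have h2 : So (Kc r) fun z => (f z)⁻¹ ^ k := fun y hy =>
      ((hf y hy).inv (mul_ne hc (h1 y hy))).pow k
    exact ⟨h2, hs_le_vol h2 fun y hy => mul_sq hc (h1 y (Q_sub_Kc r hy)) k⟩
  induction l generalizing k with
  | zero => exact ⟨_, by positivity, fun f hf h1 _ => (base k f hf h1).2⟩
  | succ l ih =>
    obtain ⟨m, rfl⟩ : ∃ m', m = m' + 1 := ⟨m - 1, by omega⟩
    obtain ⟨C, p, hC⟩ := ih (k + 1) (by omega)
    obtain ⟨D, q, hD⟩ := hs_mul_gen hr l m l (by omega) le_rfl (by omega)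
    refine ⟨volume.real (Q r) * (c⁻¹ ^ k) ^ 2 + 4 * ((-(k : ℝ)) ^ 2 * (D * |B| * C)),
      by positivity, fun f hf h1 h2 => ?_⟩
    have h3 : ∀ i, hs l (Q r) (pd i fun z => (f z)⁻¹ ^ k) ≤ (-(k : ℝ)) ^ 2 * (D * |B| * C) := by
      intro i
      rw [hs_congr (isOpen_Q r) l fun y hy => (pd_inv_pow (hf y (Q_sub_Kc r hy))
        (mul_ne hc (h1 y (Q_sub_Kc r hy))) k i).eq_of_nhds, hs_smul]
      refine mul_le_mul_of_nonneg_left ?_ (sq_nonneg _)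
      refine (hD _ _ (hf.pd i) (base (k + 1) f hf h1).1).trans ?_
      exact mul_le_mul (mul_le_mul_of_nonneg_left
        ((hs_pd m _ f i).trans (h2.trans (le_abs_self B))) q) (hC f hf h1 h2) (hs_nonneg _ _ _)
        (by positivity)
    rw [hs_succ l, Fin.sum_univ_four]
    linarith [(base k f hf h1).2, h3 0, h3 1, h3 2, h3 3]

end Pool.Agent.Lib.MP_94aef8_gt.D
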