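import Pool.Agent.Lib.MP_94aef8_gt.D.IntS
import Pool.Agent.Lib.MP_94aef8_gt.D.Mul

/-! One step of the bootstrap. -/

open scoped ContDiff Topology
open Filter Set MeasureTheory Matrix

namespace Pool.Agent.Lib.MP_94aef8_gt.D

/-- The data of one step: `LA a u' = - LA b u + F` with small `b`. -/
structure BD (r η : ℝ) (a b : Tn) (u u' F : Fn) : Prop where
  sb : SoM (Kc r) b
  su : So (Kc r) u
  su' : So (Kc r) u'
  sF : So (Kc r) F
  eq : ∀ y ∈ Q r, LA a u' y = -LA b u y + F y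
  small : ∀ y ∈ Q r, ∀ i j, |b y i j| ≤ η

/-- The estimate at level `n`. -/
def BE (C η r : ℝ) (χ : Fn) (n N : ℕ) (B K : ℝ) : Prop :=
  ∀ (a b : Tn) (u u' F : Fn), Co 1 (Kc r) C a → (∀ y ∈ Kc r, ∀ i j, js n (fun z => a z i j) y ≤ B) →
    BD r η a b u u' F → yy χ n u' ≤ 1 / 2 * yy χ n u + K * (hs (n + 1) (Q r) u' + hs n (Q r) F +
      (1 + hsM N (Q r) b) * hs (n + 1) (Q r) u)

theorem boot1_lin {a b c X Y Z W : ℝ} (ha : 0 ≤ a) (hb : 0 ≤ b) (hc : 0 ≤ c) (hX : 0 ≤ X)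
    (hY : 0 ≤ Y) (hW : 0 ≤ W) (hZ : Z ≤ W) : a * X + b * Y + c * Z ≤ (a + b + c) * (X + Y + W) := by
  have h1 := mul_le_mul_of_nonneg_left hZ hc
  have h2 : 0 ≤ a * (Y + W) + b * (X + W) + c * (X + Y) := by positivity
  nlinarith

theorem boot1_small {r η : ℝ} {b : Tn} {χ u : Fn} (hχ : ContDiff ℝ ∞ χ)
    (h0 : ∀ y, y ∉ Kc r → χ y = 0) (hb : SoM (Kc r) b) (hu : So (Kc r) u)
    (hs' : ∀ y ∈ Q r, ∀ i j, |b y i j| ≤ η) :
    hs 0 (Q r) (LA b (χ * u)) ≤ 16 * η ^ 2 * yy χ 0 u := by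
  have hv : ContDiff ℝ ∞ (χ * u) := sm_cut_mul hχ h0 hu
  have hc : HasCompactSupport (χ * u) :=
    cs_of_zero (r := r) fun y hy => by rw [Pi.mul_apply, h0 y hy, zero_mul]
  have hI : ∀ i j, IH univ (pd i (pd j (χ * u))) := fun i j => ((ih_of_cs hv hc).pd j).pd i
  have hQ : ∀ i j, IntegrableOn (fun y => pd i (pd j (χ * u)) y ^ 2) (Q r) :=
    fun i j => (hI i j).int_sq.mono_set (subset_univ _)
  have h1 : ∀ i, IntegrableOn (fun y => ∑ j, pd i (pd j (χ * u)) y ^ 2) (Q r) :=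
    fun i => integrable_finsetSum _ fun j _ => hQ i j
  have h2 : IntegrableOn (fun y => ∑ i, ∑ j, pd i (pd j (χ * u)) y ^ 2) (Q r) :=
    integrable_finsetSum _ fun i _ => h1 i
  have h3 := (So.la hb (so_of_sm hv _)).ih.hs_le (j := 0)
    (φ := fun y => 16 * η ^ 2 * ∑ i, ∑ j, pd i (pd j (χ * u)) y ^ 2) (h2.const_mul _)
    fun y hy => sq_LA_le (hs' y hy) _
  refine h3.trans ?_
  rw [integral_const_mul, integral_finsetSum _ fun i _ => h1 i]
  refine mul_le_mul_of_nonneg_left (Finset.sum_le_sum fun i _ => ?_) (by positivity)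
  rw [integral_finsetSum _ fun j _ => hQ i j]
  refine Finset.sum_le_sum fun j _ => ?_
  exact ((hI i j).hs_mono_set (meas_Q r) (subset_univ _) 0).trans (hs_univ _).le

/-- `yy_zero_le` with constant `C'`; take `η ≤ 1` with `64 C' η² ≤ 1`. On `Q r`, by `LA_mul`,
`LA a (χ u') = - LA b (χ u) + (cm b χ u + χ F + cm a χ u')`; `sq_LA_le` gives
`hs 0 (Q r) (LA b (χ u)) ≤ 16 η² yy χ 0 u`; the other terms by `js_cm 0` (`js 0 b ≤ 1` on `Q r`,
`js 0 a ≤ C`), `IH.hs_le1`, `IH.hs_add`. -/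
theorem boot_zero (C : ℝ) : ∃ η, 0 < η ∧ ∀ (r1 r : ℝ) (χ : Fn), r1 < r → ContDiff ℝ ∞ χ →
    (∀ y, y ∉ Kc r1 → χ y = 0) → ∃ K, 0 ≤ K ∧ ∀ N B, BE C η r χ 0 N B K := by
  obtain ⟨C', hC', h1⟩ := yy_zero_le C
  obtain ⟨Kc', hKc, h2⟩ := js_cm 0
  refine ⟨min 1 (1 / (64 * C')), lt_min one_pos (by positivity), fun r1 r χ hr hχ h0 => ?_⟩
  obtain ⟨η, hη⟩ : ∃ η, η = min 1 (1 / (64 * C')) := ⟨_, rfl⟩
  rw [← hη]
  have η0 : 0 < η := by rw [hη]; exact lt_min one_pos (by positivity)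
  have η1 : η ≤ 1 := by rw [hη]; exact min_le_left _ _
  have η2 : η * (64 * C') ≤ 1 := (le_div_iff₀ (by positivity)).1 (by rw [hη]; exact min_le_right _ _)
  have η3 : 64 * C' * η ^ 2 ≤ 1 := by nlinarith
  obtain ⟨K0, hK0, h3⟩ := h1 r1 r χ hr hχ h0
  obtain ⟨B', hB', h4⟩ := cs_bdd hχ (cs_of_zero h0) 2
  have h0' : ∀ y, y ∉ Kc r → χ y = 0 := fun y hy => h0 y fun h => hy (Kc_mono hr.le h)
  refine ⟨(K0 + 8 * C' * (Kc' * |C| * B')) + 8 * C' * B' + 4 * C' * (Kc' * 1 * B'), by positivity,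
    fun N B a b u u' F ha _ hd => ?_⟩
  have sχ : So (Kc r) χ := so_of_sm hχ _
  have i1 : So (Kc r) (LA b (χ * u)) := So.la hd.sb (sχ.mul hd.su)
  have i2 : So (Kc r) (cm b χ u) := So.cm hd.sb sχ hd.su
  have i3 : So (Kc r) (χ * F) := sχ.mul hd.sF
  have i4 : So (Kc r) (cm a χ u') := So.cm ha.sm sχ hd.su'
  have e : EqOn (LA a (χ * u')) (-LA b (χ * u) + (cm b χ u + (χ * F + cm a χ u'))) (Q r) := by
    intro y hy
    have hy' := Q_sub_Kc r hy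
    simp only [Pi.add_apply, Pi.neg_apply, Pi.mul_apply]
    rw [LA_mul a (sχ y hy') (hd.su' y hy'), LA_mul b (sχ y hy') (hd.su y hy'), hd.eq y hy]
    ring
  have a1 := h3 a u' ha hd.su'
  rw [hs_congr (isOpen_Q r) 0 e] at a1
  have a2 := IH.hs_add 0 i1.neg.ih (i2.add (i3.add i4)).ih
  have a3 := IH.hs_add 0 i2.ih (i3.add i4).ih
  have a4 := IH.hs_add 0 i3.ih i4.ih
  rw [hs_neg] at a2
  have a5 := boot1_small hχ h0' hd.sb hd.su hd.small
  have a6 : hs 0 (Q r) (cm b χ u) ≤ Kc' * 1 * B' * hs 1 (Q r) u := by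
    refine i2.ih.hs_le1 hd.su.ih fun y hy => ?_
    have hy' := Q_sub_Kc r hy
    refine h2 b χ u y 1 B' (fun i j => hd.sb i j y hy') (sχ y hy') (hd.su y hy') (fun i j => ?_)
      (h4 y)
    rw [js_zero, ← sq_abs]
    exact pow_le_one₀ (abs_nonneg _) ((hd.small y hy i j).trans η1)
  have a7 : hs 0 (Q r) (χ * F) ≤ 5 ^ 0 * B' * hs 0 (Q r) F :=
    IH.hs_bmul i3.ih (sχ.mono (Q_sub_Kc r)) hd.sF.ih fun y _ =>
      (js_mono (Nat.zero_le 2) χ y).trans (h4 y)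
  have a8 : hs 0 (Q r) (cm a χ u') ≤ Kc' * |C| * B' * hs 1 (Q r) u' := by
    refine i4.ih.hs_le1 hd.su'.ih fun y hy => ?_
    have hy' := Q_sub_Kc r hy
    exact h2 a χ u' y |C| B' (fun i j => ha.sm i j y hy') (sχ y hy') (hd.su' y hy')
      (fun i j => ((js_le_succ 0 _ y).trans (ha.bdd y hy' i j)).trans (le_abs_self C)) (h4 y)
  have z0 := hs_nonneg 1 (Q r) u
  have m0 := hsM_nonneg N (Q r) b
  have a9 := boot1_lin (a := K0 + 8 * C' * (Kc' * |C| * B')) (b := 8 * C' * B')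
    (c := 4 * C' * (Kc' * 1 * B')) (Z := hs 1 (Q r) u) (W := (1 + hsM N (Q r) b) * hs 1 (Q r) u)
    (by positivity) (by positivity) (by positivity) (hs_nonneg 1 (Q r) u') (hs_nonneg 0 (Q r) F)
    (by positivity) (by nlinarith)
  have a10 : hs 0 (Q r) (-LA b (χ * u) + (cm b χ u + (χ * F + cm a χ u'))) ≤
      32 * η ^ 2 * yy χ 0 u + 4 * (Kc' * 1 * B' * hs 1 (Q r) u) + 8 * (B' * hs 0 (Q r) F) +
        8 * (Kc' * |C| * B' * hs 1 (Q r) u') := by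
    rw [pow_zero, one_mul] at a7
    linarith
  have a11 := mul_le_mul_of_nonneg_left a10 hC'.le
  have a12 := mul_le_mul_of_nonneg_right η3 (yy_nonneg χ 0 u)
  simp only [zero_add]
  linarith

theorem boot1_db {r : ℝ} (hr : 0 < r) {n N : ℕ} (hn : n + 1 ≤ N) (hN : 8 ≤ N) :
    ∃ K, 0 ≤ K ∧ ∀ (b : Tn) (u : Fn) (i : Fin 4), SoM (Kc r) b → So (Kc r) u →
      hs n (Q r) (LA (dM i b) u) ≤ K * (hsM N (Q r) b * hs (n + 2) (Q r) u) := by
  obtain ⟨M, rfl⟩ : ∃ M, N = M + 1 := ⟨N - 1, by omega⟩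
  obtain ⟨C, hC, h⟩ := hs_mul_gen hr n M n (by omega) le_rfl (by omega)
  refine ⟨256 * C, by positivity, fun b u i hb hu => ?_⟩
  have s1 : ∀ j k, So (Kc r) (pd j (pd k u)) := fun j k => (hu.pd k).pd j
  rw [LA_eq]
  refine (hs_sum16 n fun j k => ((hb.dM i j k).mul (s1 j k)).ih).trans ?_
  have h1 : ∀ j k, hs n (Q r) ((fun z => dM i b z j k) * pd j (pd k u)) ≤
      C * (hsM (M + 1) (Q r) b * hs (n + 2) (Q r) u) := fun j k => by
    refine (h _ _ (hb.dM i j k) (s1 j k)).trans ?_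
    rw [mul_assoc]
    refine mul_le_mul_of_nonneg_left (mul_le_mul ?_ (hs_pd2 _ _ _ _ _) (hs_nonneg _ _ _)
      (hsM_nonneg _ _ _)) hC
    exact (hs_pd M (Q r) (fun z => b z j k) i).trans (hs_le_hsM _ _ _ _ _)
  have h2 := Finset.sum_le_sum fun j (_ : j ∈ Finset.univ) =>
    Finset.sum_le_sum fun k (_ : k ∈ Finset.univ) => h1 j k
  simp only [Finset.sum_const, Finset.card_univ, Fintype.card_fin, nsmul_eq_mul] at h2
  push_cast at h2
  linarith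

/-- Apply the estimate at level `n` to `pd i u`, `pd i u'` and
`F' = pd i F - LA (dM i b) u - LA (dM i a) u'` (differentiate the equation on the open cube:
`pd_congr_on`, `pd_LA`), and sum over `i`. `hs n (LA (dM i a) u') ≤ K hs (n + 2) u'` by `js_LA`;
`hs n (LA (dM i b) u) ≤ K hsM N b * hs (n + 2) u` by `LA_eq`, `hs_sum16`, `hs_mul_gen` with
`(n, N - 1, n)`, `hs_pd`, `hs_pd2`, `hs_le_hsM`. -/
theorem boot_succ {C η r : ℝ} (hr : 0 < r) {χ : Fn} {n N : ℕ} (hn : n + 1 ≤ N) (hN : 8 ≤ N)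
    {B K : ℝ} (hK : 0 ≤ K) (h : BE C η r χ n N B K) : ∃ K', 0 ≤ K' ∧ BE C η r χ (n + 1) N B K' := by
  obtain ⟨Kb, hKb, h1⟩ := boot1_db hr hn hN
  refine ⟨4 * K * ((1 + 2 * (256 * 5 ^ n * |B|)) + 4 + (4 * Kb + 1)), by positivity,
    fun a b u u' F ha hB hd => ?_⟩
  have x0 := hs_nonneg (n + 2) (Q r) u'
  have y0 := hs_nonneg (n + 1) (Q r) F
  have z0 := hs_nonneg (n + 2) (Q r) u
  have m0 := hsM_nonneg N (Q r) b
  have key : ∀ i, yy χ n (pd i u') ≤ 1 / 2 * yy χ n (pd i u) +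
      K * (((1 + 2 * (256 * 5 ^ n * |B|)) + 4 + (4 * Kb + 1)) * (hs (n + 2) (Q r) u' +
        hs (n + 1) (Q r) F + (1 + hsM N (Q r) b) * hs (n + 2) (Q r) u)) := by
    intro i
    have s1 : So (Kc r) (LA (dM i b) u) := So.la (hd.sb.dM i) hd.su
    have s2 : So (Kc r) (LA (dM i a) u') := So.la (ha.sm.dM i) hd.su'
    have hd' : BD r η a b (pd i u) (pd i u') (pd i F - LA (dM i b) u - LA (dM i a) u') := by
      refine ⟨hd.sb, hd.su.pd i, hd.su'.pd i, ((hd.sF.pd i).sub s1).sub s2, fun y hy => ?_,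
        hd.small⟩
      have hy' := Q_sub_Kc r hy
      have e1 : pd i (LA a u') y = pd i (-LA b u + F) y :=
        pd_congr_on (isOpen_Q r) (fun z hz => hd.eq z hz) i hy
      rw [pd_add (diffAt ((So.la hd.sb hd.su).neg y hy')) (diffAt (hd.sF y hy')), pd_neg,
        Pi.neg_apply, pd_LA (fun j k => ha.sm j k y hy') (hd.su' y hy'),
        pd_LA (fun j k => hd.sb j k y hy') (hd.su y hy')] at e1
      simp only [Pi.sub_apply]
      linarith
    refine (h a b _ _ _ ha (fun y hy j k => (js_le_succ n _ y).trans (hB y hy j k)) hd').trans ?_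
    refine add_le_add le_rfl (mul_le_mul_of_nonneg_left ?_ hK)
    have a1 := IH.hs_sub n ((hd.sF.pd i).sub s1).ih s2.ih
    have a2 := IH.hs_sub n (hd.sF.pd i).ih s1.ih
    have a3 := hs_pd n (Q r) F i
    have a4 := h1 b u i hd.sb hd.su
    have a5 : hs n (Q r) (LA (dM i a) u') ≤ 256 * 5 ^ n * |B| * hs (n + 2) (Q r) u' := by
      refine s2.ih.hs_le1 hd.su'.ih fun y hy => ?_
      have hy' := Q_sub_Kc r hy
      exact js_LA (fun j k => ha.sm.dM i j k y hy') (hd.su' y hy') fun j k =>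
        ((js_pd n (fun z => a z j k) y i).trans (hB y hy' j k)).trans (le_abs_self B)
    have a6 := hs_pd (n + 1) (Q r) u' i
    have a7 := mul_le_mul_of_nonneg_left (hs_pd (n + 1) (Q r) u i)
      (by positivity : 0 ≤ 1 + hsM N (Q r) b)
    have a8 := boot1_lin (a := 1 + 2 * (256 * 5 ^ n * |B|)) (b := 4) (c := 4 * Kb + 1)
      (W := (1 + hsM N (Q r) b) * hs (n + 2) (Q r) u) (by positivity) (by norm_num)
      (by positivity) x0 y0 (by positivity) le_rfl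
    have a9 := mul_nonneg hKb z0
    linarith
  have h2 := Finset.sum_le_sum fun i (_ : i ∈ Finset.univ) => key i
  rw [Finset.sum_add_distrib, ← Finset.mul_sum, Finset.sum_const, Finset.card_univ,
    Fintype.card_fin, nsmul_eq_mul] at h2
  refine h2.trans (le_of_eq ?_)
  simp only [yy]
  push_cast
  ring

theorem boot_all (C : ℝ) : ∃ η, 0 < η ∧ ∀ (r1 r : ℝ) (χ : Fn), 0 < r → r1 < r → ContDiff ℝ ∞ χ →
    (∀ y, y ∉ Kc r1 → χ y = 0) → ∀ (n N : ℕ) (B : ℝ), n ≤ N → 8 ≤ N →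
      ∃ K, 0 ≤ K ∧ BE C η r χ n N B K := by
  obtain ⟨η, hη, h⟩ := boot_zero C
  refine ⟨η, hη, fun r1 r χ hr h1 hχ h0 n N B hn hN => ?_⟩
  induction n with
  | zero =>
    obtain ⟨K, hK, h2⟩ := h r1 r χ h1 hχ h0
    exact ⟨K, hK, h2 N B⟩
  | succ n ih =>
    obtain ⟨K, hK, h2⟩ := ih (by omega)
    exact boot_succ hr hn hN hK h2

end Pool.Agent.Lib.MP_94aef8_gt.D
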