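import Pool.Agent.Lib.MP_94aef8_gt.D.Op

/-! From metrics to elliptic coefficients. -/

open scoped ContDiff Topology
open Filter Set MeasureTheory Matrix

namespace Pool.Agent.Lib.MP_94aef8_gt.D

theorem good_form_nonneg {A : Mat} (hA : A.PosDef) (v : Fin 4 → ℝ) : 0 ≤ v ⬝ᵥ A *ᵥ v := by
  simpa using hA.posSemidef.dotProduct_mulVec_nonneg v

theorem good_symm {A : Mat} (hA : A.PosDef) : Aᵀ = A := by
  simpa using hA.isHermitian.eq

theorem good_soM {G : Tn} {U : Set E4} (hG : Good G U) : SoM U G :=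
  fun i j => so_of_on hG.isOpen (hG.smooth i j)

theorem good_core {G : Tn} {U K : Set E4} (hG : Good G U) (hKU : K ⊆ U) {k : ℕ} {B B' : ℝ}
    (hB : ∀ y ∈ K, ∀ i j, |(G y)⁻¹ i j| ≤ B)
    (hB' : ∀ y ∈ K, ∀ i j, js k (fun z => G z i j) y ≤ B') :
    Co k K (max 3 (max (4 * B) B')) G := by
  refine ⟨le_trans (by norm_num) (le_max_left _ _), (good_soM hG).mono hKU,
    fun y hy => good_symm (hG.pos y (hKU hy)), fun y hy v => ?_,
    fun y hy i j => (hB' y hy i j).trans ((le_max_right _ _).trans (le_max_right _ _))⟩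
  have hp := hG.pos y (hKU hy)
  have h1 := ell_inv hp.inv (hB y hy) v
  rw [Matrix.nonsing_inv_nonsing_inv _ hp.det_pos.ne'.isUnit] at h1
  exact h1.trans (mul_le_mul_of_nonneg_right ((le_max_left _ _).trans (le_max_right _ _))
    (good_form_nonneg hp v))

theorem good_le_sum (F : Fin 4 → Fin 4 → ℝ) (h : ∀ i j, 0 ≤ F i j) (i j : Fin 4) :
    F i j ≤ ∑ a, ∑ b, F a b :=
  (Finset.single_le_sum (f := fun b => F i b) (fun _ _ => h _ _) (Finset.mem_univ j)).trans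
    (Finset.single_le_sum (f := fun a => ∑ b, F a b)
      (fun _ _ => Finset.sum_nonneg fun _ _ => h _ _) (Finset.mem_univ i))

theorem good_pt {G : Tn} {U : Set E4} (hG : Good G U) {y : E4} (hy : y ∈ U) (k : ℕ) :
    ∃ C, Co k {y} C G :=
  ⟨_, good_core hG (singleton_subset_iff.2 hy) (B := ∑ a, ∑ b, |(G y)⁻¹ a b|) (B' := jsM k G y)
    (fun z hz i j => by
      rw [mem_singleton_iff.1 hz]
      exact good_le_sum (fun a b => |(G y)⁻¹ a b|) (fun _ _ => abs_nonneg _) i j)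
    (fun z hz i j => by
      rw [mem_singleton_iff.1 hz]
      exact js_le_jsM k G y i j)⟩

theorem good_bddM {K : Set E4} (hK : IsCompact K) {h : Tn} (hh : SoM K h) (k : ℕ) :
    ∃ B, ∀ y ∈ K, ∀ i j, js k (fun z => h z i j) y ≤ B := by
  choose B h0 hB using fun i j => (hh i j).bdd hK k
  exact ⟨∑ a, ∑ b, B a b, fun y hy i j => (hB i j y hy).trans (good_le_sum B h0 i j)⟩

/-- `cb_js`; take `max 1 (max C (5 ^ k * C ^ 2))`. -/
theorem co_of_cb (k : ℕ) (C : ℝ) : ∃ C', C ≤ C' ∧ ∀ (U : Set E4) (G : Tn), Good G U →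
    (∀ y ∈ U, ∀ v : Fin 4 → ℝ, v ⬝ᵥ v ≤ C * (v ⬝ᵥ G y *ᵥ v)) → CbM k U G C → Co k U C' G := by
  refine ⟨max 1 (max C (5 ^ k * C ^ 2)), (le_max_left _ _).trans (le_max_right _ _),
    fun U G hG he hb => ⟨le_max_left _ _, good_soM hG, fun y hy => good_symm (hG.pos y hy),
      fun y hy v => ?_, fun y hy i j =>
        (cb_js (hb i j) hy).trans ((le_max_right _ _).trans (le_max_right _ _))⟩⟩
  exact (he y hy v).trans (mul_le_mul_of_nonneg_right
    ((le_max_left _ _).trans (le_max_right _ _)) (good_form_nonneg (hG.pos y hy) v))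

theorem co_of_goodB (C : ℝ) : ∃ C', 3 ≤ C' ∧ ∀ G : Tn, GoodB C G → Co 12 (Q 3) C' G := by
  obtain ⟨C', -, h⟩ := co_of_cb 12 C
  exact ⟨max 3 C', le_max_left _ _, fun G hG =>
    (h _ G hG.good hG.ell hG.bdd).mono le_rfl Subset.rfl (le_max_right _ _)⟩

theorem good_inv_at {G : Tn} {U : Set E4} (hG : Good G U) : SoM U (inv G) := by
  intro i j y hy
  obtain ⟨C, hC⟩ := good_pt hG hy 0
  obtain ⟨C', h⟩ := co_inv 0 C
  exact (h _ G hC).sm i j y rfl

/-- The entries of `G` and of `inv G` are bounded on `K` (`So.bdd`); the ellipticity of `G` is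
`ell_inv` for the matrix `(G y)⁻¹`. -/
theorem co_of_good {G : Tn} {U K : Set E4} (hG : Good G U) (hK : IsCompact K) (hKU : K ⊆ U)
    (k : ℕ) : ∃ C, 3 ≤ C ∧ Co k K C G := by
  obtain ⟨B, hB⟩ := good_bddM hK ((good_inv_at hG).mono hKU) 0
  obtain ⟨B', hB'⟩ := good_bddM hK ((good_soM hG).mono hKU) k
  exact ⟨_, le_max_left _ _, good_core hG hKU (B := √B)
    (fun y hy i j => Real.abs_le_sqrt (hB y hy i j)) hB'⟩

/-- `js_pop` with `S = {y}` and `C` large. -/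
theorem Co.pop {k : ℕ} {S : Set E4} {C : ℝ} {G h : Tn} (hG : Co (k + 2) S C G) (μ : ℝ)
    (hh : SoM S h) : SoM S (Pop μ G h) := by
  intro i j y hy
  obtain ⟨C', -, h1⟩ := js_pop k (max C |μ|)
  exact (h1 S G h μ y (hG.mono le_rfl Subset.rfl (le_max_left _ _)) (le_max_right _ _) hy
    (fun a b => hh a b y hy) i j).1

theorem Co.pop_iter {k : ℕ} {S : Set E4} {C : ℝ} {G h : Tn} (hG : Co (k + 2) S C G) (μ : ℝ)
    (hh : SoM S h) (n : ℕ) : SoM S ((Pop μ G)^[n] h) := by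
  induction n with
  | zero => exact hh
  | succ n ih =>
    rw [Function.iterate_succ_apply']
    exact hG.pop μ ih

theorem good_pop {G h : Tn} {U : Set E4} (hG : Good G U) (μ : ℝ) (hh : SoM U h) :
    SoM U (Pop μ G h) := by
  intro i j y hy
  obtain ⟨C, hC⟩ := good_pt hG hy (0 + 2)
  exact hC.pop μ (hh.mono (singleton_subset_iff.2 hy)) i j y rfl

theorem pop_iter_congr (μ : ℝ) (G : Tn) {h h' : Tn} {U : Set E4} (hU : IsOpen U)
    (e : EqOn h h' U) (n : ℕ) : EqOn ((Pop μ G)^[n] h) ((Pop μ G)^[n] h') U := by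
  induction n with
  | zero => exact e
  | succ n ih =>
    rw [Function.iterate_succ_apply', Function.iterate_succ_apply']
    exact pop_congr_on μ G hU ih

/-- `js_pop`, `IH.hs_leM`, `hsM_le`. -/
theorem hs_pop (k : ℕ) (C : ℝ) : ∃ C', 0 ≤ C' ∧ ∀ (r : ℝ) (G h : Tn) (μ : ℝ),
    Co (k + 2) (Kc r) C G → |μ| ≤ C → SoM (Kc r) h →
      hsM k (Q r) (Pop μ G h) ≤ C' * hsM (k + 2) (Q r) h := by
  obtain ⟨C', h0, h1⟩ := js_pop k C
  refine ⟨16 * C', by positivity, fun r G h μ hG hμ hh => ?_⟩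
  rw [mul_assoc]
  refine hsM_le fun i j => ((hG.pop μ hh i j).ih).hs_leM hh.ih fun y hy => ?_
  exact (h1 _ G h μ y hG hμ (Q_sub_Kc r hy) (fun a b => hh a b y (Q_sub_Kc r hy)) i j).2

theorem hs_low (k : ℕ) (C : ℝ) : ∃ C', 0 ≤ C' ∧ ∀ (r : ℝ) (G h : Tn) (μ : ℝ),
    Co (k + 2) (Kc r) C G → |μ| ≤ C → SoM (Kc r) h → ∀ i j,
      So (Kc r) (low μ G h i j) ∧ hs k (Q r) (low μ G h i j) ≤ C' * hsM (k + 1) (Q r) h := by
  obtain ⟨C', h0, h1⟩ := js_low k C
  refine ⟨C', h0, fun r G h μ hG hμ hh i j => ?_⟩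
  have h2 : So (Kc r) (low μ G h i j) := fun y hy =>
    (h1 _ G h μ y hG hμ hy (fun a b => hh a b y hy) i j).1
  refine ⟨h2, h2.ih.hs_leM hh.ih fun y hy => ?_⟩
  exact (h1 _ G h μ y hG hμ (Q_sub_Kc r hy) (fun a b => hh a b y (Q_sub_Kc r hy)) i j).2

/-- Induction on `n` (for all `k`), `Function.iterate_succ_apply'`. -/
theorem hs_pop_iter (n k : ℕ) (C : ℝ) : ∃ C', 0 ≤ C' ∧ ∀ (r : ℝ) (G h : Tn) (μ : ℝ),
    Co (k + 2 * n + 2) (Kc r) C G → |μ| ≤ C → SoM (Kc r) h →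
      hsM k (Q r) ((Pop μ G)^[n] h) ≤ C' * hsM (k + 2 * n) (Q r) h := by
  induction n generalizing k with
  | zero => exact ⟨1, zero_le_one, fun r G h μ _ _ _ => by simp⟩
  | succ n ih =>
    obtain ⟨C1, h1, H1⟩ := hs_pop k C
    obtain ⟨C2, h2, H2⟩ := ih (k + 2)
    refine ⟨C1 * C2, mul_nonneg h1 h2, fun r G h μ hG hμ hh => ?_⟩
    have hG1 : Co (k + 2) (Kc r) C G := hG.mono (by omega) Subset.rfl le_rfl
    have e : k + 2 * (n + 1) = k + 2 + 2 * n := by omega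
    rw [Function.iterate_succ_apply', mul_assoc, e]
    exact (H1 r G _ μ hG1 hμ (hG1.pop_iter μ hh n)).trans (mul_le_mul_of_nonneg_left
      (H2 r G h μ (hG.mono (by omega) Subset.rfl le_rfl) hμ hh) h1)

end Pool.Agent.Lib.MP_94aef8_gt.D
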