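import Pool.Agent.Lib.MP_94aef8_gt.D.Boot1
import Pool.Agent.Lib.MP_94aef8_gt.D.Good

/-! The bootstrap of uniform bounds. -/

open scoped ContDiff Topology
open Filter Set MeasureTheory Matrix

namespace Pool.Agent.Lib.MP_94aef8_gt.D

theorem bdd_of_half {x : ℕ → ℝ} {K : ℝ} (h : ∀ k, x (k + 1) ≤ 1 / 2 * x k + K) :
    ∃ K', ∀ k, x k ≤ K' := by
  refine ⟨max (x 0) (2 * K), fun k => ?_⟩
  induction k with
  | zero => exact le_max_left _ _
  | succ k ih => linarith [h k, le_max_right (x 0) (2 * K)]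

theorem boot2_unif {P : Fin 4 → Fin 4 → ℝ → Prop}
    (hm : ∀ i j a b, a ≤ b → P i j a → P i j b) (h : ∀ i j, ∃ a, P i j a) :
    ∃ a, ∀ i j, P i j a := by
  choose a ha using h
  obtain ⟨B, hB⟩ := (Set.finite_range fun p : Fin 4 × Fin 4 => a p.1 p.2).bddAbove
  exact ⟨B, fun i j => hm i j _ _ (hB ⟨(i, j), rfl⟩) (ha i j)⟩

/-- Take `η` from `boot_all` for the constant of `inv G` (`co_of_goodB`, `co_inv`). Show by
induction on `j ≥ 10` that `hsM j (Q r) (u k)` is bounded for all `1 < r < 3 / 2`. Step: given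
`r0`, choose `r0 < r1 < r < 3 / 2`, `Cut r0 r1 χ`, `n = j - 1`, `N = j`, `B` a bound of
`js n (inv G)` on `Kc r` (`good_inv_at`, `So.bdd`). For every entry `x k = yy χ n (u k i j)` is
bounded (`bdd_of_half`), and `hs_le_yy` bounds `hs (j + 1) (Q r0)`. -/
theorem boot (C0 : ℝ) : ∃ η > 0, ∀ (G : Tn) (u F b : ℕ → Tn), GoodB C0 G →
    (∀ k, SmT (u k) (Q (7 / 4))) → (∀ k, SmT (F k) (Q (7 / 4))) → (∀ k, SmT (b k) (Q (7 / 4))) →
    (∀ k, ∀ y ∈ Q (7 / 4), ∀ i j,
      ∑ a, ∑ c, (G y)⁻¹ a c * pd a (pd c fun z => u (k + 1) z i j) y =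
        -(∑ a, ∑ c, b k y a c * pd a (pd c fun z => u k z i j) y) + F k y i j) →
    (∀ k, ∀ y ∈ Q (7 / 4), ∀ a c, |b k y a c| ≤ η) →
    (∃ K, ∀ k, hsM 10 (Q (3 / 2)) (u k) ≤ K) →
    (∀ (j : ℕ) (r : ℝ), 10 ≤ j → 1 < r → r ≤ 3 / 2 → (∃ K, ∀ k, hsM j (Q r) (u k) ≤ K) →
      ∃ K, ∀ k, hsM j (Q r) (b k) ≤ K ∧ hsM (j - 1) (Q r) (F k) ≤ K) →
    ∀ j, ∃ K, ∀ k, hsM j (Q 1) (u k) ≤ K := by
  obtain ⟨C1, -, hC1⟩ := co_of_goodB C0
  obtain ⟨C2, hC2⟩ := co_inv 12 C1
  obtain ⟨η, hη, hall⟩ := boot_all C2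
  refine ⟨η, hη, fun G u F b hG hu hF hb heq hsm h10 hstep => ?_⟩
  have key : ∀ (n : ℕ) (r : ℝ), 1 < r → r < 3 / 2 → ∃ K, ∀ k, hsM (n + 10) (Q r) (u k) ≤ K := by
    intro n
    induction n with
    | zero =>
      intro r _ h2
      obtain ⟨K, hK⟩ := h10
      exact ⟨K, fun k => (hsM_mono_Q h2.le (soM_Kc (by norm_num) (hu k)) _).trans (hK k)⟩
    | succ n ih =>
      intro r0 h1 h2
      obtain ⟨r1, h3, h4⟩ := exists_between h2
      obtain ⟨r, h5, h6⟩ := exists_between h4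
      obtain ⟨χ, hχ⟩ := exists_cut h3
      have hr : r < 7 / 4 := by linarith
      have hK3 : Kc r ⊆ Q 3 := Kc_sub_Q (by linarith)
      have hQ : Q r ⊆ Q (7 / 4) := Q_mono hr.le
      obtain ⟨K1, hK1⟩ := ih r (by linarith) h6
      obtain ⟨K2, hK2⟩ := hstep (n + 10) r (by omega) (by linarith) h6.le ⟨K1, hK1⟩
      obtain ⟨B, hB⟩ := boot2_unif
        (P := fun i j B => ∀ y ∈ Kc r, js (n + 9) (fun z => inv G z i j) y ≤ B)
        (fun i j a c hac h y hy => (h y hy).trans hac) fun i j => by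
          obtain ⟨B, -, hB⟩ :=
            So.bdd (isCompact_Kc r) (((good_inv_at hG.good).mono hK3) i j) (n + 9)
          exact ⟨B, hB⟩
      obtain ⟨K, hK, hBE⟩ := hall r1 r χ (by linarith) h5 hχ.sm hχ.zero (n + 9) (n + 10) B
        (by omega) (by omega)
      have hCo : Co 1 (Kc r) C2 (inv G) := (hC2 _ _ (hC1 G hG)).mono (by norm_num) hK3 le_rfl
      obtain ⟨K3, hK3⟩ := boot2_unif
        (P := fun i j K3 => ∀ k, yy χ (n + 9) (fun z => u k z i j) ≤ K3)
        (fun i j a c hac h k => (h k).trans hac) fun i j => by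
          refine bdd_of_half (K := K * (K1 + K2 + (1 + K2) * K1)) fun k => ?_
          refine (hBE (inv G) (b k) (fun z => u k z i j) (fun z => u (k + 1) z i j)
            (fun z => F k z i j) hCo (fun y hy a c => hB a c y hy)
            ⟨soM_Kc hr (hb k), soM_Kc hr (hu k) i j, soM_Kc hr (hu (k + 1)) i j,
              soM_Kc hr (hF k) i j, fun y hy => heq k y (hQ hy) i j,
              fun y hy => hsm k y (hQ hy)⟩).trans ?_
          have e1 := (hs_le_hsM (n + 10) (Q r) (u (k + 1)) i j).trans (hK1 (k + 1))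
          have e2 := (hs_le_hsM (n + 10) (Q r) (u k) i j).trans (hK1 k)
          have e3 := (hs_le_hsM (n + 9) (Q r) (F k) i j).trans (hK2 k).2
          have e4 := (hK2 k).1
          have e5 := hsM_nonneg (n + 10) (Q r) (b k)
          have e6 := hs_nonneg (n + 10) (Q r) fun z => u k z i j
          exact add_le_add le_rfl (mul_le_mul_of_nonneg_left (add_le_add (add_le_add e1 e3)
            (mul_le_mul (by linarith) e2 e6 (by linarith))) hK)
      refine ⟨16 * (K1 + K3), fun k => hsM_le fun i j => ?_⟩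
      refine (hs_le_yy hχ (n + 9) (soM_Kc (by linarith) (hu k) i j)).trans
        (add_le_add ?_ (hK3 i j k))
      exact (hs_mono_Q (by linarith) (soM_Kc hr (hu k) i j) _).trans
        ((hs_le_hsM (n + 10) (Q r) (u k) i j).trans (hK1 k))
  intro j
  obtain ⟨K, hK⟩ := key j (5 / 4) (by norm_num) (by norm_num)
  exact ⟨K, fun k => (hsM_mono (Nat.le_add_right j 10) _ _).trans
    ((hsM_mono_Q (by norm_num) (soM_Kc (by norm_num) (hu k)) _).trans (hK k))⟩

end Pool.Agent.Lib.MP_94aef8_gt.D
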