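import Pool.Agent.Lib.MP_94aef8_gt.D.Co

/-! The inequality of Caccioppoli. -/

open scoped ContDiff Topology
open Filter Set MeasureTheory Matrix

namespace Pool.Agent.Lib.MP_94aef8_gt.D

/-- The algebraic part of the inequality. -/
theorem cacc_alg {C b x F L : ℝ} {p c : Fin 4 → ℝ} {A Dm : Fin 4 → Fin 4 → ℝ} (hC : 0 < C)
    (hx : |x| ≤ b) (hc : ∀ i, |c i| ≤ b) (hA : ∀ i j, |A i j| ≤ C) (hD : ∀ i j, |Dm i j| ≤ C)
    (he : ∑ i, p i ^ 2 ≤ C * ∑ i, p i * ∑ j, A i j * p j) :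
    x ^ 2 * ∑ i, p i ^ 2 ≤ 2 * C * (x ^ 2 * (∑ i, p i * ∑ j, A i j * p j) + x ^ 2 * (F * L) +
      ∑ j, (x * p j) * (F * (x * ∑ i, Dm i j + 2 * ∑ i, c i * A i j))) +
      2 * C * (x ^ 2 * |F * L|) + 4 * C ^ 2 * (12 * b * C) ^ 2 * F ^ 2 := by
  have hb : 0 ≤ b := (abs_nonneg _).trans hx
  set w : Fin 4 → ℝ := fun j => x * ∑ i, Dm i j + 2 * ∑ i, c i * A i j with hw
  have hwb : ∀ j, |w j| ≤ 12 * b * C := by
    intro j
    have h1 : |∑ i, Dm i j| ≤ 4 * C := by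
      refine (Finset.abs_sum_le_sum_abs _ _).trans ?_
      refine (Finset.sum_le_sum fun i _ => hD i j).trans ?_
      simp
    have h2 : |∑ i, c i * A i j| ≤ 4 * (b * C) := by
      refine (Finset.abs_sum_le_sum_abs _ _).trans ?_
      refine (Finset.sum_le_sum (g := fun _ => b * C) fun i _ => ?_).trans ?_
      · rw [abs_mul]
        exact mul_le_mul (hc i) (hA i j) (abs_nonneg _) hb
      · simp
    have h3 : |x * ∑ i, Dm i j| ≤ b * (4 * C) := by
      rw [abs_mul]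
      exact mul_le_mul hx h1 (abs_nonneg _) hb
    have h4 : |2 * ∑ i, c i * A i j| ≤ 2 * (4 * (b * C)) := by
      rw [abs_mul, abs_two]
      linarith
    have h5 := abs_add_le (x * ∑ i, Dm i j) (2 * ∑ i, c i * A i j)
    change |x * ∑ i, Dm i j + 2 * ∑ i, c i * A i j| ≤ _
    linarith
  have hterm : ∀ j, -(2 * C * ((x * p j) * (F * w j))) ≤
      (x * p j) ^ 2 + C ^ 2 * (12 * b * C) ^ 2 * F ^ 2 := by
    intro j
    have h1 : w j ^ 2 ≤ (12 * b * C) ^ 2 := by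
      rw [← sq_abs]
      exact pow_le_pow_left₀ (abs_nonneg _) (hwb j) 2
    have h2 : (C * F) ^ 2 * w j ^ 2 ≤ (C * F) ^ 2 * (12 * b * C) ^ 2 :=
      mul_le_mul_of_nonneg_left h1 (sq_nonneg _)
    nlinarith [sq_nonneg (x * p j + C * F * w j)]
  have hsum := Finset.sum_le_sum fun j (_ : j ∈ Finset.univ) => hterm j
  rw [Finset.sum_neg_distrib, ← Finset.mul_sum, Finset.sum_add_distrib] at hsum
  have e1 : ∑ j, (x * p j) ^ 2 = x ^ 2 * ∑ i, p i ^ 2 := by
    rw [Finset.mul_sum]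
    exact Finset.sum_congr rfl fun j _ => by ring
  rw [e1] at hsum
  simp only [Finset.sum_const, Finset.card_univ, Fintype.card_fin, nsmul_eq_mul] at hsum
  have h6 : x ^ 2 * ∑ i, p i ^ 2 ≤ x ^ 2 * (C * ∑ i, p i * ∑ j, A i j * p j) :=
    mul_le_mul_of_nonneg_left he (sq_nonneg _)
  have h7 : 0 ≤ C * (x ^ 2 * (F * L + |F * L|)) :=
    mul_nonneg hC.le (mul_nonneg (sq_nonneg _) (by linarith [neg_abs_le (F * L)]))
  change _ ≤ 2 * C * (_ + _ + ∑ j, (x * p j) * (F * w j)) + _ + _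
  push_cast at hsum
  nlinarith

/-- The field whose divergence is integrated. -/
noncomputable def cacc_X (χ : Fn) (a : Tn) (f : Fn) (i : Fin 4) : Fn :=
  χ * (χ * (f * ∑ j, (fun z => a z i j) * pd j f))

theorem cacc_div {χ f : Fn} {a : Tn} {y : E4} (hχ : At χ y) (hf : At f y)
    (ha : ∀ i j, At (fun z => a z i j) y) :
    ∑ i, pd i (cacc_X χ a f i) y =
      χ y ^ 2 * (∑ i, pd i f y * ∑ j, a y i j * pd j f y) + χ y ^ 2 * (f y * LA a f y) +
      ∑ j, (χ y * pd j f y) * (f y * (χ y * ∑ i, pd i (fun z => a z i j) y +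
        2 * ∑ i, pd i χ y * a y i j)) := by
  have h1 : ∀ i j, At ((fun z => a z i j) * pd j f) y := fun i j => (ha i j).mul (at_pd hf j)
  have h2 : ∀ i, At (∑ j, (fun z => a z i j) * pd j f) y :=
    fun i => at_sum _ fun j _ => h1 i j
  have h3 : ∀ i, At (f * ∑ j, (fun z => a z i j) * pd j f) y := fun i => hf.mul (h2 i)
  have h4 : ∀ i, At (χ * (f * ∑ j, (fun z => a z i j) * pd j f)) y := fun i => hχ.mul (h3 i)
  have e : ∀ i, pd i (cacc_X χ a f i) y =
      pd i χ y * (χ y * (f y * ∑ j, a y i j * pd j f y)) + χ y *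
        (pd i χ y * (f y * ∑ j, a y i j * pd j f y) + χ y *
          (pd i f y * ∑ j, a y i j * pd j f y + f y *
            ∑ j, (pd i (fun z => a z i j) y * pd j f y + a y i j * pd i (pd j f) y))) := by
    intro i
    rw [cacc_X, pd_mul (diffAt hχ) (diffAt (h4 i)), pd_mul (diffAt hχ) (diffAt (h3 i)),
      pd_mul (diffAt hf) (diffAt (h2 i)), pd_sum _ fun j _ => diffAt (h1 i j)]
    rw [Finset.sum_congr rfl fun j _ => pd_mul (diffAt (ha i j)) (diffAt (at_pd hf j)) i]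
    simp only [Pi.mul_apply, Finset.sum_apply]
  simp only [e, LA, Fin.sum_univ_four]
  ring

/-- Apply `integral_pd_Q` to `X i = χ ^ 2 * f * ∑ j, a i j * pd j f` and sum over `i`. Pointwise,
`∑ i, pd i (X i) = χ² a ∂f ∂f + χ² f LA a f + χ² f (∂_i a i j) ∂_j f + 2 χ f a i j ∂_i χ ∂_j f`,
hence, by `Co.ell` and `2 x y ≤ ε x² + y² / ε`,
`χ² ∑ (∂_i f)² ≤ 2 C ∑ i, pd i (X i) + 2 C χ² |f LA a f| + K f²` on `Q r'`, with `K` depending only
on `C` and a bound of `js 1 χ` (`cs_bdd`). Integrate (`So.intOn`). -/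
theorem cacc (C : ℝ) {r r' : ℝ} (hr : r < r') {χ : Fn} (hχ : ContDiff ℝ ∞ χ)
    (h0 : ∀ y, y ∉ Kc r → χ y = 0) : ∃ C', 0 < C' ∧ ∀ (a : Tn) (f : Fn), Co 1 (Kc r') C a →
      So (Kc r') f → ∫ y in Q r', χ y ^ 2 * ∑ i, pd i f y ^ 2 ≤
        C' * ((∫ y in Q r', χ y ^ 2 * |f y * LA a f y|) + hs 0 (Q r') f) := by
  obtain ⟨B, hB0, hB⟩ := cs_bdd hχ (cs_of_zero h0) 1
  have hab : ∀ x : ℝ, x ^ 2 ≤ B → |x| ≤ B + 1 := fun x hx => by
    rw [← sq_abs] at hx
    nlinarith [sq_nonneg (|x| - 1), abs_nonneg x]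
  set K := 4 * C ^ 2 * (12 * (B + 1) * C) ^ 2 with hK
  have hK0 : 0 ≤ K := by positivity
  refine ⟨2 * |C| + K + 1, by positivity, fun a f ha hf => ?_⟩
  have hC := ha.cpos
  rw [abs_of_pos hC]
  have hsχ : So (Kc r') χ := so_of_sm hχ _
  have hX : ∀ i, So (Kc r') (cacc_X χ a f i) := fun i =>
    hsχ.mul (hsχ.mul (hf.mul (So.sum _ fun j _ => (ha.sm i j).mul (hf.pd j))))
  have hX0 : ∀ i, ∫ y in Q r', pd i (cacc_X χ a f i) y = 0 := fun i =>
    integral_pd_Q hr ((hX i).mono (Kc_mono hr.le)) (fun y hy => by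
      rw [cacc_X, Pi.mul_apply, h0 y hy, zero_mul]) i
  have iX : ∀ i, IntegrableOn (pd i (cacc_X χ a f i)) (Q r') := fun i => ((hX i).pd i).intOn
  have iD : IntegrableOn (fun y => ∑ i, pd i (cacc_X χ a f i) y) (Q r') :=
    integrable_finsetSum _ fun i _ => iX i
  have hD0 : ∫ y in Q r', ∑ i, pd i (cacc_X χ a f i) y = 0 := by
    rw [integral_finsetSum _ fun i _ => iX i]
    simp [hX0]
  have iL : IntegrableOn (fun y => χ y ^ 2 * |f y * LA a f y|) (Q r') := by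
    have c1 : ContinuousOn (fun y => χ y ^ 2 * |f y * LA a f y|) (Kc r') :=
      (hsχ.cont.pow 2).mul (hf.cont.mul (So.la ha.sm hf).cont).abs
    exact (c1.integrableOn_compact (isCompact_Kc r')).mono_set (Q_sub_Kc r')
  have iF : IntegrableOn (fun y => f y ^ 2) (Q r') := hf.ih.int_sq
  have iP : IntegrableOn (fun y => χ y ^ 2 * ∑ i, pd i f y ^ 2) (Q r') := by
    have c1 : ContinuousOn (fun y => χ y ^ 2 * ∑ i, pd i f y ^ 2) (Kc r') :=
      (hsχ.cont.pow 2).mul (continuousOn_finsetSum _ fun i _ => (hf.pd i).cont.pow 2)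
    exact (c1.integrableOn_compact (isCompact_Kc r')).mono_set (Q_sub_Kc r')
  have hpt : ∀ y ∈ Q r', χ y ^ 2 * ∑ i, pd i f y ^ 2 ≤
      2 * C * (∑ i, pd i (cacc_X χ a f i) y) + 2 * C * (χ y ^ 2 * |f y * LA a f y|) +
        K * f y ^ 2 := by
    intro y hy
    have hy' := Q_sub_Kc r' hy
    rw [cacc_div (hsχ y hy') (hf y hy') fun i j => ha.sm i j y hy']
    refine cacc_alg (b := B + 1) (A := fun i j => a y i j)
      (Dm := fun i j => pd i (fun z => a z i j) y) hC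
      (hab _ ((sq_le_js 1 χ y).trans (hB y)))
      (fun i => hab _ ((js_pd 0 χ y i).trans (hB y)))
      (fun i j => ha.abs_le hy' i j) (fun i j => Co.abs_pd_le (k := 0) ha hy' i i j) ?_
    have h := ha.ell y hy' fun i => pd i f y
    simpa only [dotProduct, mulVec, pow_two] using h
  have i1 : IntegrableOn (fun y => 2 * C * (∑ i, pd i (cacc_X χ a f i) y)) (Q r') :=
    iD.const_mul _
  have i2 : IntegrableOn (fun y => 2 * C * (χ y ^ 2 * |f y * LA a f y|)) (Q r') :=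
    iL.const_mul _
  have i3 : IntegrableOn (fun y => K * f y ^ 2) (Q r') := iF.const_mul _
  have i12 : IntegrableOn (fun y => 2 * C * (∑ i, pd i (cacc_X χ a f i) y) +
      2 * C * (χ y ^ 2 * |f y * LA a f y|)) (Q r') := i1.add i2
  have hle := setIntegral_mono_on iP (i12.add i3) (meas_Q r') hpt
  simp only [Pi.add_apply] at hle
  rw [integral_add i12 i3, integral_add i1 i2, integral_const_mul, integral_const_mul,
    integral_const_mul, hD0] at hle
  have n1 : 0 ≤ ∫ y in Q r', χ y ^ 2 * |f y * LA a f y| :=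
    integral_nonneg fun y => mul_nonneg (sq_nonneg _) (abs_nonneg _)
  have n2 : 0 ≤ ∫ y in Q r', f y ^ 2 := integral_nonneg fun y => sq_nonneg _
  rw [hs_zero]
  nlinarith [mul_nonneg hK0 n1, mul_nonneg hC.le n2]

end Pool.Agent.Lib.MP_94aef8_gt.D
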