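import Pool.Agent.Lib.MP_94aef8_gt.D.Base

/-! Linear algebra of elliptic matrices. -/

open scoped ContDiff Topology
open Filter Set MeasureTheory Matrix

namespace Pool.Agent.Lib.MP_94aef8_gt.D

variable {A : Mat} {C : ℝ}

theorem posDef_of_ell (hC : 0 < C) (hA : Aᵀ = A)
    (he : ∀ v : Fin 4 → ℝ, v ⬝ᵥ v ≤ C * (v ⬝ᵥ A *ᵥ v)) : A.PosDef := by
  refine Matrix.PosDef.of_dotProduct_mulVec_pos ?_ fun v hv => ?_
  · rw [Matrix.IsHermitian, conjTranspose_eq_transpose_of_trivial, hA]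
  · have h0 : 0 ≤ v ⬝ᵥ v := Finset.sum_nonneg fun i _ => mul_self_nonneg _
    have h1 : v ⬝ᵥ v ≠ 0 := fun h => hv (dotProduct_self_eq_zero.1 h)
    have h2 := (lt_of_le_of_ne h0 h1.symm).trans_le (he v)
    simpa using (mul_pos_iff_of_pos_left hC).1 h2

open scoped MatrixOrder in
theorem lin_sqrt (hA : A.PosDef) : ∃ D : Mat, A = Dᵀ * D := by
  obtain ⟨B, hB⟩ := CStarAlgebra.nonneg_iff_eq_star_mul_self.mp hA.posSemidef.nonneg
  exact ⟨B, by rw [hB, star_eq_conjTranspose, conjTranspose_eq_transpose_of_trivial]⟩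

theorem lin_rows (E A : Mat) : ∑ m, E m ⬝ᵥ A *ᵥ E m = (E * A * Eᵀ).trace := by
  simp only [Matrix.trace, Matrix.diag, Matrix.mul_apply, transpose_apply, dotProduct, mulVec,
    Fin.sum_univ_four]
  ring

theorem lin_rows_le (he : ∀ v : Fin 4 → ℝ, v ⬝ᵥ v ≤ C * (v ⬝ᵥ A *ᵥ v)) (E : Mat) :
    (E * Eᵀ).trace ≤ C * (E * A * Eᵀ).trace := by
  have h1 := lin_rows E 1
  simp only [one_mulVec, Matrix.mul_one] at h1
  rw [← h1, ← lin_rows, Finset.mul_sum]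
  exact Finset.sum_le_sum fun m _ => he _

/-- Write `A = Dᵀ * D` (`A` is positive semidefinite) and `E = D * H`. The sum on the right is
`∑ m, e m ⬝ᵥ A *ᵥ e m` for the rows `e m` of `E`, and `∑ m, e m ⬝ᵥ e m = ∑ k, h k ⬝ᵥ A *ᵥ h k` for
the columns `h k` of `H`. -/
theorem tr_ell (hC : 0 < C) (hA : Aᵀ = A) (he : ∀ v : Fin 4 → ℝ, v ⬝ᵥ v ≤ C * (v ⬝ᵥ A *ᵥ v))
    (H : Mat) : ∑ i, ∑ j, H i j ^ 2 ≤
      C ^ 2 * ∑ i, ∑ j, ∑ k, ∑ l, A i j * A k l * (H i k * H j l) := by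
  obtain ⟨D, hD⟩ := lin_sqrt (posDef_of_ell hC hA he)
  have e1 : ∑ i, ∑ j, ∑ k, ∑ l, A i j * A k l * (H i k * H j l) = (Hᵀ * A * H * Aᵀ).trace := by
    simp only [Matrix.trace, Matrix.diag, Matrix.mul_apply, transpose_apply, Fin.sum_univ_four]
    ring
  have e2 : ∑ i, ∑ j, H i j ^ 2 = (Hᵀ * Hᵀᵀ).trace := by
    simp only [Matrix.trace, Matrix.diag, Matrix.mul_apply, transpose_apply, Fin.sum_univ_four]
    ring
  have e3 : (D * H * (D * H)ᵀ).trace = (Hᵀ * A * Hᵀᵀ).trace := by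
    rw [trace_mul_comm, hD]
    simp only [transpose_mul, transpose_transpose, Matrix.mul_assoc]
  have e4 : (D * H * A * (D * H)ᵀ).trace = (Hᵀ * A * H * Aᵀ).trace := by
    rw [trace_mul_comm, hA]
    nth_rewrite 2 [hD]
    simp only [transpose_mul, Matrix.mul_assoc]
  have h1 := lin_rows_le he Hᵀ
  have h2 := lin_rows_le he (D * H)
  rw [e3, e4] at h2
  rw [e1, e2, sq, mul_assoc]
  exact h1.trans (mul_le_mul_of_nonneg_left h2 hC.le)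

/-- For `v = A⁻¹ *ᵥ Pi.single j 1` one has `v ⬝ᵥ v ≤ C * v j`. -/
theorem inv_abs_le (hC : 0 < C) (hA : Aᵀ = A)
    (he : ∀ v : Fin 4 → ℝ, v ⬝ᵥ v ≤ C * (v ⬝ᵥ A *ᵥ v)) (i j : Fin 4) : |A⁻¹ i j| ≤ C := by
  have hu : IsUnit A.det := isUnit_iff_ne_zero.2 (posDef_of_ell hC hA he).det_pos.ne'
  have h1 := he (A⁻¹ *ᵥ Pi.single j 1)
  rw [mulVec_mulVec, mul_nonsing_inv _ hu, one_mulVec, dotProduct_single, mul_one] at h1
  have h2 : ∀ k, (A⁻¹ *ᵥ Pi.single j 1) k = A⁻¹ k j := fun k => by simp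
  have h3 : ∀ k, A⁻¹ k j * A⁻¹ k j ≤ C * A⁻¹ j j := fun k => by
    refine le_trans ?_ (h2 j ▸ h1)
    simp only [dotProduct, h2]
    exact Finset.single_le_sum (f := fun k => A⁻¹ k j * A⁻¹ k j) (fun _ _ => mul_self_nonneg _)
      (Finset.mem_univ k)
  have h4 : A⁻¹ j j ≤ C := by
    by_contra hn
    have := h3 j
    nlinarith [not_le.1 hn]
  refine abs_le_of_sq_le_sq ?_ hC.le
  nlinarith [h3 i, mul_le_mul_of_nonneg_left h4 hC.le]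

theorem form_le {B : ℝ} (hB : ∀ i j, |A i j| ≤ B) (v w : Fin 4 → ℝ) :
    |v ⬝ᵥ A *ᵥ w| ≤ 2 * B * (v ⬝ᵥ v + w ⬝ᵥ w) := by
  have h0 : 0 ≤ B := (abs_nonneg _).trans (hB 0 0)
  have h1 : ∀ i j, |v i * (A i j * w j)| ≤ B * (v i * v i + w j * w j) / 2 := fun i j => by
    rw [abs_mul, abs_mul, ← abs_mul_abs_self (v i), ← abs_mul_abs_self (w j)]
    have h2 := mul_le_mul_of_nonneg_left
      (mul_le_mul_of_nonneg_right (hB i j) (abs_nonneg (w j))) (abs_nonneg (v i))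
    nlinarith [mul_nonneg h0 (sq_nonneg (|v i| - |w j|))]
  have h2 : |v ⬝ᵥ A *ᵥ w| ≤ ∑ i, ∑ j, B * (v i * v i + w j * w j) / 2 := by
    simp only [dotProduct, mulVec, Finset.mul_sum]
    refine (Finset.abs_sum_le_sum_abs _ _).trans (Finset.sum_le_sum fun i _ => ?_)
    exact (Finset.abs_sum_le_sum_abs _ _).trans (Finset.sum_le_sum fun j _ => h1 i j)
  refine h2.trans (le_of_eq ?_)
  simp only [dotProduct, Fin.sum_univ_four]
  ring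

theorem mulVec_sq_le {B : ℝ} (hB : ∀ i j, |A i j| ≤ B) (v : Fin 4 → ℝ) :
    (A *ᵥ v) ⬝ᵥ (A *ᵥ v) ≤ 16 * B ^ 2 * (v ⬝ᵥ v) := by
  have h1 : ∀ i, (A *ᵥ v) i * (A *ᵥ v) i ≤ 4 * B ^ 2 * (v ⬝ᵥ v) := fun i => by
    have h2 := Finset.sum_mul_sq_le_sq_mul_sq Finset.univ (A i) v
    have h3 : ∑ j, A i j ^ 2 ≤ 4 * B ^ 2 := by
      have h4 : ∀ j, A i j ^ 2 ≤ B ^ 2 := fun j => sq_le_sq' (abs_le.1 (hB i j)).1
        (abs_le.1 (hB i j)).2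
      rw [Fin.sum_univ_four]
      linarith [h4 0, h4 1, h4 2, h4 3]
    have h5 : v ⬝ᵥ v = ∑ j, v j ^ 2 := by simp only [dotProduct, sq]
    rw [h5, ← sq]
    exact h2.trans (mul_le_mul_of_nonneg_right h3 (Finset.sum_nonneg fun _ _ => sq_nonneg _))
  rw [dotProduct, Fin.sum_univ_four]
  linarith [h1 0, h1 1, h1 2, h1 3]

/-- With `u = A⁻¹ *ᵥ v`: `0 ≤ (v - t u) ⬝ᵥ A *ᵥ (v - t u) = v A v - 2 t v v + t ^ 2 v A⁻¹ v` and
`v A v ≤ 4 B v v`; take `t = 4 B` (note `0 < A 0 0 ≤ B`). -/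
theorem ell_inv (hA : A.PosDef) {B : ℝ} (hB : ∀ i j, |A i j| ≤ B) (v : Fin 4 → ℝ) :
    v ⬝ᵥ v ≤ 4 * B * (v ⬝ᵥ A⁻¹ *ᵥ v) := by
  have hu : IsUnit A.det := isUnit_iff_ne_zero.2 hA.det_pos.ne'
  have hB0 : 0 < B := (hA.diag_pos (i := 0)).trans_le ((le_abs_self _).trans (hB 0 0))
  have hs : Aᵀ = A := by
    rw [← conjTranspose_eq_transpose_of_trivial]
    exact hA.1
  have h1 : A *ᵥ (A⁻¹ *ᵥ v) = v := by rw [mulVec_mulVec, mul_nonsing_inv _ hu, one_mulVec]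
  generalize A⁻¹ *ᵥ v = u at h1 ⊢
  have h2 : u ⬝ᵥ A *ᵥ v = v ⬝ᵥ v := by
    rw [dotProduct_mulVec, ← mulVec_transpose, hs, h1]
  have h3 : 0 ≤ (v - (4 * B) • u) ⬝ᵥ A *ᵥ (v - (4 * B) • u) := by
    simpa using hA.posSemidef.dotProduct_mulVec_nonneg (v - (4 * B) • u)
  rw [mulVec_sub, mulVec_smul, h1, sub_dotProduct, dotProduct_sub, dotProduct_sub, smul_dotProduct,
    smul_dotProduct, dotProduct_smul, dotProduct_smul, h2, dotProduct_comm u v] at h3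
  simp only [smul_eq_mul] at h3
  have h4 := (le_abs_self _).trans (form_le hB v v)
  have h5 : 4 * B * (v ⬝ᵥ v) ≤ 4 * B * (4 * B * (v ⬝ᵥ u)) := by linarith
  exact le_of_mul_le_mul_left h5 (by positivity)

/-- `Matrix.det_le` for `A⁻¹`, `Matrix.det_nonsing_inv`. -/
theorem det_ge (hC : 0 < C) (hA : Aᵀ = A) (he : ∀ v : Fin 4 → ℝ, v ⬝ᵥ v ≤ C * (v ⬝ᵥ A *ᵥ v)) :
    (24 * C ^ 4)⁻¹ ≤ A.det := by
  have hd := (posDef_of_ell hC hA he).det_pos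
  have h1 := Matrix.det_le (abv := AbsoluteValue.abs) (A := A⁻¹) (x := C) (inv_abs_le hC hA he)
  rw [det_nonsing_inv, Ring.inverse_eq_inv'] at h1
  have h2 : A.det⁻¹ ≤ 24 * C ^ 4 := by
    refine (le_abs_self _).trans (h1.trans (le_of_eq ?_))
    simp [Nat.factorial]
  exact inv_le_of_inv_le₀ hd h2

end Pool.Agent.Lib.MP_94aef8_gt.D
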