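import Pool.Agent.Lib.MP_94aef8_gt.D.Hs
import Pool.Agent.Lib.MP_94aef8_gt.D.Lin

/-! Second order operators `a^{i j} ∂_i ∂_j`. -/

open scoped ContDiff Topology
open Filter Set MeasureTheory Matrix

namespace Pool.Agent.Lib.MP_94aef8_gt.D

/-- The operator `a^{i j} ∂_i ∂_j`. -/
noncomputable def LA (a : Tn) (f : Fn) : Fn := fun y => ∑ i, ∑ j, a y i j * pd i (pd j f) y

/-- The derivative of the coefficients. -/
noncomputable def dM (l : Fin 4) (a : Tn) : Tn :=
  fun y => Matrix.of fun i j => pd l (fun z => a z i j) y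

/-- The commutator of `LA a` and the multiplication by `χ`. -/
noncomputable def cm (a : Tn) (χ f : Fn) : Fn := fun y => ∑ i, ∑ j, a y i j *
  (pd i χ y * pd j f y + pd j χ y * pd i f y + pd i (pd j χ) y * f y)

/-- Elliptic coefficients on `S` with bounds up to order `k`. -/
structure Co (k : ℕ) (S : Set E4) (C : ℝ) (a : Tn) : Prop where
  one : 1 ≤ C
  sm : SoM S a
  symm : ∀ y ∈ S, (a y)ᵀ = a y
  ell : ∀ y ∈ S, ∀ v : Fin 4 → ℝ, v ⬝ᵥ v ≤ C * (v ⬝ᵥ a y *ᵥ v)
  bdd : ∀ y ∈ S, ∀ i j, js k (fun z => a z i j) y ≤ C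

variable {a : Tn} {f g χ : Fn} {y : E4} {S : Set E4} {k : ℕ} {C B : ℝ}

theorem Co.cpos (h : Co k S C a) : 0 < C := one_pos.trans_le h.one

theorem Co.pos (h : Co k S C a) (hy : y ∈ S) : (a y).PosDef :=
  posDef_of_ell h.cpos (h.symm y hy) (h.ell y hy)

theorem Co.mono {k' : ℕ} {S' : Set E4} {C' : ℝ} (h : Co k S C a) (hk : k' ≤ k) (hS : S' ⊆ S)
    (hC : C ≤ C') : Co k' S' C' a := by
  refine ⟨h.one.trans hC, h.sm.mono hS, fun y hy => h.symm y (hS hy), fun y hy v => ?_,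
    fun y hy i j => ((js_mono hk _ y).trans (h.bdd y (hS hy) i j)).trans hC⟩
  have h1 := h.ell y (hS hy) v
  have h2 : 0 ≤ v ⬝ᵥ v := Finset.sum_nonneg fun i _ => mul_self_nonneg _
  exact h1.trans (mul_le_mul_of_nonneg_right hC
    ((mul_nonneg_iff_of_pos_left h.cpos).1 (h2.trans h1)))

theorem co_abs {x : ℝ} (h1 : 1 ≤ C) (h : x ^ 2 ≤ C) : |x| ≤ C :=
  abs_le_of_sq_le_sq (by nlinarith) (by linarith)

theorem Co.abs_le (h : Co k S C a) (hy : y ∈ S) (i j : Fin 4) : |a y i j| ≤ C :=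
  co_abs h.one ((sq_le_js k (fun z => a z i j) y).trans (h.bdd y hy i j))

theorem Co.abs_pd_le (h : Co (k + 1) S C a) (hy : y ∈ S) (l i j : Fin 4) :
    |pd l (fun z => a z i j) y| ≤ C :=
  co_abs h.one (((sq_le_js k _ y).trans (js_pd k _ y l)).trans (h.bdd y hy i j))

theorem LA_eq (a : Tn) (f : Fn) : LA a f = ∑ i, ∑ j, (fun z => a z i j) * pd i (pd j f) := by
  funext y
  simp only [LA, Finset.sum_apply, Pi.mul_apply]

theorem at_LA (ha : ∀ i j, At (fun z => a z i j) y) (hf : At f y) : At (LA a f) y :=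
  ContDiffAt.sum fun i _ => ContDiffAt.sum fun j _ => (ha i j).mul (at_pd (at_pd hf j) i)

theorem So.la (ha : SoM S a) (hf : So S f) : So S (LA a f) :=
  fun y hy => at_LA (fun i j => ha i j y hy) (hf y hy)

theorem SoM.dM (ha : SoM S a) (l : Fin 4) : SoM S (dM l a) := fun i j => (ha i j).pd l

theorem at_cm (ha : ∀ i j, At (fun z => a z i j) y) (hχ : At χ y) (hf : At f y) :
    At (cm a χ f) y :=
  ContDiffAt.sum fun i _ => ContDiffAt.sum fun j _ => (ha i j).mul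
    ((((at_pd hχ i).mul (at_pd hf j)).add ((at_pd hχ j).mul (at_pd hf i))).add
      ((at_pd (at_pd hχ j) i).mul hf))

theorem So.cm (ha : SoM S a) (hχ : So S χ) (hf : So S f) : So S (cm a χ f) :=
  fun y hy => at_cm (fun i j => ha i j y hy) (hχ y hy) (hf y hy)

theorem LA_congr (a : Tn) (e : f =ᶠ[𝓝 y] g) : LA a f =ᶠ[𝓝 y] LA a g := by
  have h : ∀ᶠ z in 𝓝 y, ∀ i j, pd i (pd j f) z = pd i (pd j g) z :=
    eventually_all.2 fun i => eventually_all.2 fun j => pd_congr (pd_congr e j) i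
  filter_upwards [h] with z hz
  simp only [LA, hz]

theorem LA_zero_off {K : Set E4} (hK : IsClosed K) (a : Tn) (h : ∀ y, y ∉ K → f y = 0) :
    ∀ y, y ∉ K → LA a f y = 0 := fun y hy => by
  simp only [LA, pd_zero_off hK (pd_zero_off hK h _) _ y hy, mul_zero, Finset.sum_const_zero]

theorem cm_zero_off {K : Set E4} (hK : IsClosed K) (a : Tn) (f : Fn) (h : ∀ y, y ∉ K → χ y = 0) :
    ∀ y, y ∉ K → cm a χ f y = 0 := fun y hy => by
  simp only [cm, pd_zero_off hK (pd_zero_off hK h _) _ y hy, pd_zero_off hK h _ y hy, zero_mul,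
    add_zero, mul_zero, Finset.sum_const_zero]

theorem LA_mul (a : Tn) (hχ : At χ y) (hf : At f y) :
    LA a (χ * f) y = χ y * LA a f y + cm a χ f y := by
  simp only [LA, cm, Finset.mul_sum, ← Finset.sum_add_distrib]
  refine Finset.sum_congr rfl fun i _ => Finset.sum_congr rfl fun j _ => ?_
  have h1 := diffAt (at_pd hχ j)
  have h2 := diffAt (at_pd hf j)
  rw [(pd_congr (pd_mul_ev hχ hf j) i).eq_of_nhds,
    pd_add (h1.mul (diffAt hf)) ((diffAt hχ).mul h2), pd_mul h1 (diffAt hf), pd_mul (diffAt hχ) h2]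
  ring

theorem LA_add (a : Tn) (hf : At f y) (hg : At g y) : LA a (f + g) y = LA a f y + LA a g y := by
  simp only [LA, ← Finset.sum_add_distrib]
  refine Finset.sum_congr rfl fun i _ => Finset.sum_congr rfl fun j _ => ?_
  rw [(pd_congr (pd_add_ev hf hg j) i).eq_of_nhds,
    pd_add (diffAt (at_pd hf j)) (diffAt (at_pd hg j)), mul_add]

theorem LA_sub (a : Tn) (hf : At f y) (hg : At g y) : LA a (f - g) y = LA a f y - LA a g y := by
  simp only [LA, ← Finset.sum_sub_distrib]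
  refine Finset.sum_congr rfl fun i _ => Finset.sum_congr rfl fun j _ => ?_
  rw [(pd_congr (pd_sub_ev hf hg j) i).eq_of_nhds,
    pd_sub (diffAt (at_pd hf j)) (diffAt (at_pd hg j)), mul_sub]

/-- Product rule and `pd_comm_ev`. -/
theorem pd_LA (ha : ∀ i j, At (fun z => a z i j) y) (hf : At f y) (l : Fin 4) :
    pd l (LA a f) y = LA a (pd l f) y + LA (dM l a) f y := by
  have h1 : ∀ i j, At ((fun z => a z i j) * pd i (pd j f)) y := fun i j =>
    (ha i j).mul (at_pd (at_pd hf j) i)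
  rw [LA_eq, pd_sum _ fun i _ => diffAt (at_sum _ fun j _ => h1 i j)]
  simp only [LA, ← Finset.sum_add_distrib]
  refine Finset.sum_congr rfl fun i _ => ?_
  rw [pd_sum _ fun j _ => diffAt (h1 i j)]
  refine Finset.sum_congr rfl fun j _ => ?_
  rw [pd_mul (diffAt (ha i j)) (diffAt (at_pd (at_pd hf j) i)), pd_comm (at_pd hf j) l i,
    (pd_congr (pd_comm_ev hf l j) i).eq_of_nhds, add_comm]
  rfl

theorem sq_LA_le (hB : ∀ i j, |a y i j| ≤ B) (f : Fn) :
    LA a f y ^ 2 ≤ 16 * B ^ 2 * ∑ i, ∑ j, pd i (pd j f) y ^ 2 := by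
  have h1 := Finset.sum_mul_sq_le_sq_mul_sq Finset.univ (fun p : Fin 4 × Fin 4 => a y p.1 p.2)
    fun p => pd p.1 (pd p.2 f) y
  have h2 : ∑ p : Fin 4 × Fin 4, a y p.1 p.2 ^ 2 ≤ 16 * B ^ 2 := by
    have h3 := Finset.sum_le_card_nsmul Finset.univ (fun p : Fin 4 × Fin 4 => a y p.1 p.2 ^ 2)
      (B ^ 2) fun p _ => sq_le_sq' (abs_le.1 (hB _ _)).1 (abs_le.1 (hB _ _)).2
    simpa using h3
  have h4 := h1.trans (mul_le_mul_of_nonneg_right h2 (Finset.sum_nonneg fun _ _ => sq_nonneg _))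
  rwa [Fintype.sum_prod_type, Fintype.sum_prod_type] at h4

theorem co_sum16 {F : Fin 4 → Fin 4 → Fn} (h : ∀ i j, At (F i j) y)
    (hB : ∀ i j, js k (F i j) y ≤ B) : js k (∑ i, ∑ j, F i j) y ≤ 256 * B := by
  have h1 := js_sum16 k h
  have h2 := jsM_le (h := fun z => Matrix.of fun i j => F i j z) hB
  change ∑ i, ∑ j, js k (F i j) y ≤ 16 * B at h2
  linarith

/-- `LA_eq`, `js_sum16`, `js_mul_le`, `js_pd2`. -/
theorem js_LA (ha : ∀ i j, At (fun z => a z i j) y) (hf : At f y)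
    (hB : ∀ i j, js k (fun z => a z i j) y ≤ B) :
    js k (LA a f) y ≤ 256 * 5 ^ k * B * js (k + 2) f y := by
  have h0 : 0 ≤ B := (js_nonneg _ _ _).trans (hB 0 0)
  rw [LA_eq]
  refine (co_sum16 (B := 5 ^ k * B * js (k + 2) f y)
    (fun i j => (ha i j).mul (at_pd (at_pd hf j) i)) fun i j => ?_).trans (le_of_eq (by ring))
  exact (js_mul_le k (ha i j) (at_pd (at_pd hf j) i) (hB i j)).trans
    (mul_le_mul_of_nonneg_left (js_pd2 k f y i j) (by positivity))

theorem js_cm (k : ℕ) : ∃ K, 0 ≤ K ∧ ∀ (a : Tn) (χ f : Fn) (y : E4) (B B' : ℝ),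
    (∀ i j, At (fun z => a z i j) y) → At χ y → At f y → (∀ i j, js k (fun z => a z i j) y ≤ B) →
    js (k + 2) χ y ≤ B' → js k (cm a χ f) y ≤ K * B * B' * js (k + 1) f y := by
  refine ⟨256 * (5 ^ k * (10 * 5 ^ k)), by positivity, fun a χ f y B B' ha hχ hf hB hB' => ?_⟩
  have h0 : 0 ≤ B := (js_nonneg _ _ _).trans (hB 0 0)
  have h0' : 0 ≤ B' := (js_nonneg _ _ _).trans hB'
  have e : cm a χ f = ∑ i, ∑ j, (fun z => a z i j) *
      (pd i χ * pd j f + pd j χ * pd i f + pd i (pd j χ) * f) := by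
    funext y
    simp only [cm, Finset.sum_apply, Pi.mul_apply, Pi.add_apply]
  have a1 : ∀ i j, At (pd i χ * pd j f) y := fun i j => (at_pd hχ i).mul (at_pd hf j)
  have a2 : ∀ i j, At (pd i (pd j χ) * f) y := fun i j => (at_pd (at_pd hχ j) i).mul hf
  have a3 : ∀ i j, At (pd i χ * pd j f + pd j χ * pd i f) y := fun i j => (a1 i j).add (a1 j i)
  have a4 : ∀ i j, At (pd i χ * pd j f + pd j χ * pd i f + pd i (pd j χ) * f) y := fun i j =>
    (a3 i j).add (a2 i j)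
  have b1 : ∀ i j, js k (pd i χ * pd j f) y ≤ 5 ^ k * B' * js (k + 1) f y := fun i j =>
    (js_mul_le k (at_pd hχ i) (at_pd hf j) (((js_pd k χ y i).trans (js_le_succ _ χ y)).trans
      hB')).trans (mul_le_mul_of_nonneg_left (js_pd k f y j) (by positivity))
  have b2 : ∀ i j, js k (pd i (pd j χ) * f) y ≤ 5 ^ k * B' * js (k + 1) f y := fun i j =>
    (js_mul_le k (at_pd (at_pd hχ j) i) hf ((js_pd2 k χ y i j).trans hB')).trans
      (mul_le_mul_of_nonneg_left (js_le_succ k f y) (by positivity))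
  rw [e]
  refine (co_sum16 (B := 5 ^ k * B * (10 * (5 ^ k * B' * js (k + 1) f y)))
    (fun i j => (ha i j).mul (a4 i j)) fun i j => ?_).trans (le_of_eq (by ring))
  refine (js_mul_le k (ha i j) (a4 i j) (hB i j)).trans
    (mul_le_mul_of_nonneg_left ?_ (by positivity))
  linarith [js_add k (a3 i j) (a2 i j), js_add k (a1 i j) (a1 j i), b1 i j, b1 j i, b2 i j]

end Pool.Agent.Lib.MP_94aef8_gt.D
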