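import Pool.Agent.Lib.MP_94aef8_gt.D.Co

/-! The second derivatives of a function with compact support. -/

open scoped ContDiff Topology
open Filter Set MeasureTheory Matrix

namespace Pool.Agent.Lib.MP_94aef8_gt.D

theorem h2_off {v : Fn} (i : Fin 4) : ∀ y, y ∉ tsupport v → pd i v y = 0 :=
  pd_zero_off (isClosed_tsupport v) (fun _ hy => image_eq_zero_of_notMem_tsupport hy) i

theorem h2_off2 {v : Fn} (i j : Fin 4) : ∀ y, y ∉ tsupport v → pd i (pd j v) y = 0 :=
  pd_zero_off (isClosed_tsupport v) (h2_off j) i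

theorem h2_int {v g : Fn} (hc : HasCompactSupport v) (hg : So (tsupport v) g)
    (h0 : ∀ y, y ∉ tsupport v → g y = 0) : Integrable g :=
  int_of_cs (sm_of_zero (isClosed_tsupport v) hg h0) (HasCompactSupport.intro hc h0)

theorem h2_i1 {A v : Fn} (hA : So (tsupport v) A) (hv : ContDiff ℝ ∞ v)
    (hc : HasCompactSupport v) (i j k l : Fin 4) :
    Integrable fun y => A y * (pd i (pd j v) y * pd k (pd l v) y) :=
  have s := so_of_sm hv (tsupport v)
  h2_int hc (hA.mul (((s.pd j).pd i).mul ((s.pd l).pd k))) fun y hy => by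
    simp only [h2_off2 i j y hy, zero_mul, mul_zero]

theorem h2_i2 {A v : Fn} (hA : So (tsupport v) A) (hv : ContDiff ℝ ∞ v)
    (hc : HasCompactSupport v) (i j k l : Fin 4) :
    Integrable fun y => (pd k A y * pd j (pd l v) y - pd j A y * pd k (pd l v) y) * pd i v y :=
  have s := so_of_sm hv (tsupport v)
  h2_int hc ((((hA.pd k).mul ((s.pd l).pd j)).sub ((hA.pd j).mul ((s.pd l).pd k))).mul (s.pd i))
    fun y hy => by simp only [h2_off i y hy, mul_zero]

/-- Two integrations by parts. Apply `integral_pd` to `A * v_i * v_k l` in the direction `j` and to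
`A * v_i * v_j l` in the direction `k` (these are smooth with compact support: `sm_of_zero` with
`K = tsupport v`, `pd_zero_off`); the third derivatives `pd j (pd k (pd l v))` and
`pd k (pd j (pd l v))` agree, and `pd j (pd i v) = pd i (pd j v)`. -/
theorem h2_ibp {U : Set E4} {A v : Fn} (hA : So U A) (hv : ContDiff ℝ ∞ v)
    (hc : HasCompactSupport v) (hs : tsupport v ⊆ U) (i j k l : Fin 4) :
    (∫ y, A y * (pd i (pd j v) y * pd k (pd l v) y)) -
        (∫ y, A y * (pd i (pd k v) y * pd j (pd l v) y)) =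
      ∫ y, (pd k A y * pd j (pd l v) y - pd j A y * pd k (pd l v) y) * pd i v y := by
  have hK := isClosed_tsupport v
  have hA' : So (tsupport v) A := hA.mono hs
  have s := so_of_sm hv (tsupport v)
  have z : ∀ m, ∀ y, y ∉ tsupport v → (A * pd i v * pd m (pd l v)) y = 0 := fun m y hy => by
    simp only [Pi.mul_apply, h2_off i y hy, zero_mul, mul_zero]
  have so : ∀ m, So (tsupport v) (A * pd i v * pd m (pd l v)) := fun m =>
    (hA'.mul (s.pd i)).mul ((s.pd l).pd m)
  have sm : ∀ m, ContDiff ℝ ∞ (A * pd i v * pd m (pd l v)) := fun m => sm_of_zero hK (so m) (z m)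
  have cs : ∀ m, HasCompactSupport (A * pd i v * pd m (pd l v)) := fun m =>
    HasCompactSupport.intro hc (z m)
  have it : ∀ m n, Integrable (pd n (A * pd i v * pd m (pd l v))) := fun m n =>
    int_of_cs (sm_pd (sm m) n) (cs_pd (cs m) n)
  have key : ∀ y, A y * (pd i (pd j v) y * pd k (pd l v) y) -
      A y * (pd i (pd k v) y * pd j (pd l v) y) =
      (pd k A y * pd j (pd l v) y - pd j A y * pd k (pd l v) y) * pd i v y +
        (pd j (A * pd i v * pd k (pd l v)) y - pd k (A * pd i v * pd j (pd l v)) y) := by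
    intro y
    by_cases hy : y ∈ tsupport v
    · have a1 := hA' y hy
      have a2 := s y hy
      have e : ∀ m n, pd n (A * pd i v * pd m (pd l v)) y =
          (pd n A y * pd i v y + A y * pd i (pd n v) y) * pd m (pd l v) y +
            A y * pd i v y * pd n (pd m (pd l v)) y := fun m n => by
        rw [pd_mul (diffAt (f := A * pd i v) (a1.mul (at_pd a2 i)))
          (diffAt (at_pd (at_pd a2 l) m)), pd_mul (diffAt a1) (diffAt (at_pd a2 i)),
          pd_comm a2 n i, Pi.mul_apply]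
      rw [e, e, pd_comm (at_pd a2 l) j k]
      ring
    · rw [pd_zero_off hK (z k) j y hy, pd_zero_off hK (z j) k y hy, h2_off i y hy,
        h2_off2 i j y hy, h2_off2 i k y hy]
      ring
  rw [← integral_sub (h2_i1 hA' hv hc i j k l) (h2_i1 hA' hv hc i k j l)]
  simp only [key]
  rw [integral_add (h2_i2 hA' hv hc i j k l) ((it k j).sub' (it j k)),
    integral_sub (it k j) (it j k), integral_pd (sm k) (cs k), integral_pd (sm j) (cs j)]
  ring

/-- The integrand with vanishing integral. -/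
noncomputable def h2_phi (A v : Fn) (i j k l : Fin 4) : Fn := fun y =>
  A y * (pd i (pd k v) y * pd j (pd l v) y) - A y * (pd i (pd j v) y * pd k (pd l v) y) +
    (pd k A y * pd j (pd l v) y - pd j A y * pd k (pd l v) y) * pd i v y

theorem h2_phi_int {A v : Fn} (hA : So (tsupport v) A) (hv : ContDiff ℝ ∞ v)
    (hc : HasCompactSupport v) (i j k l : Fin 4) : Integrable (h2_phi A v i j k l) :=
  ((h2_i1 hA hv hc i k j l).sub (h2_i1 hA hv hc i j k l)).add (h2_i2 hA hv hc i j k l)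

theorem h2_phi_zero {A v : Fn} (hA : So (tsupport v) A) (hv : ContDiff ℝ ∞ v)
    (hc : HasCompactSupport v) (i j k l : Fin 4) : ∫ y, h2_phi A v i j k l y = 0 := by
  have h := h2_ibp hA hv hc subset_rfl i j k l
  unfold h2_phi
  rw [integral_add ((h2_i1 hA hv hc i k j l).sub' (h2_i1 hA hv hc i j k l))
    (h2_i2 hA hv hc i j k l), integral_sub (h2_i1 hA hv hc i k j l) (h2_i1 hA hv hc i j k l)]
  linarith

theorem h2_young {p x w B T G t : ℝ} (ht : 0 < t) (hp : |p| ≤ B) (hx : x ^ 2 ≤ T)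
    (hw : w ^ 2 ≤ G) : |p * x * w| ≤ B * (t * T + t⁻¹ * G) / 2 := by
  have e : t * t⁻¹ = 1 := mul_inv_cancel₀ ht.ne'
  have ti : 0 < t⁻¹ := inv_pos.2 ht
  have h1 : |x| * |w| ≤ (t * T + t⁻¹ * G) / 2 := by
    have h2 := mul_nonneg ti.le (sq_nonneg (t * |x| - |w|))
    have h3 := mul_le_mul_of_nonneg_left hx ht.le
    have h4 := mul_le_mul_of_nonneg_left hw ti.le
    rw [← sq_abs x] at h3
    rw [← sq_abs w] at h4
    have h5 : t⁻¹ * (t * |x| - |w|) ^ 2 =
        (t * t⁻¹) * (t * |x| ^ 2) - 2 * (t * t⁻¹) * (|x| * |w|) + t⁻¹ * |w| ^ 2 := by ring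
    rw [e] at h5
    linarith
  rw [abs_mul, abs_mul, mul_assoc, mul_div_assoc]
  exact mul_le_mul hp h1 (by positivity) ((abs_nonneg p).trans hp)

theorem h2_pt {C : ℝ} {U : Set E4} {a : Tn} (h : Co 1 U C a) (v : Fn) {y : E4} (hy : y ∈ U) :
    ∑ i, ∑ j, pd i (pd j v) y ^ 2 ≤
      2 * C ^ 2 * (∑ i, ∑ j, ∑ k, ∑ l,
        h2_phi ((fun z => a z i j) * fun z => a z k l) v i j k l y) +
      2 * C ^ 2 * LA a v y ^ 2 + 2 ^ 20 * C ^ 8 * ∑ i, pd i v y ^ 2 := by
  have hC := h.cpos
  obtain ⟨T, hT⟩ : ∃ T, T = ∑ i, ∑ j, pd i (pd j v) y ^ 2 := ⟨_, rfl⟩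
  obtain ⟨G, hG⟩ : ∃ G, G = ∑ i, pd i v y ^ 2 := ⟨_, rfl⟩
  have t1 : ∀ i j, pd i (pd j v) y ^ 2 ≤ T := fun i j => hT ▸
    (Finset.single_le_sum (f := fun j => pd i (pd j v) y ^ 2) (fun _ _ => sq_nonneg _)
      (Finset.mem_univ j)).trans (Finset.single_le_sum (f := fun i => ∑ j, pd i (pd j v) y ^ 2)
        (fun _ _ => Finset.sum_nonneg fun _ _ => sq_nonneg _) (Finset.mem_univ i))
  have g1 : ∀ i, pd i v y ^ 2 ≤ G := fun i => hG ▸
    Finset.single_le_sum (f := fun i => pd i v y ^ 2) (fun _ _ => sq_nonneg _) (Finset.mem_univ i)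
  have dA : ∀ m i j k l, |pd m ((fun z => a z i j) * fun z => a z k l) y| ≤ 2 * C ^ 2 := by
    intro m i j k l
    rw [pd_mul (diffAt (h.sm i j y hy)) (diffAt (h.sm k l y hy))]
    refine (abs_add_le _ _).trans ?_
    rw [abs_mul, abs_mul]
    have b1 := mul_le_mul (h.abs_pd_le hy m i j) (h.abs_le hy k l) (abs_nonneg _) hC.le
    have b2 := mul_le_mul (h.abs_le hy i j) (h.abs_pd_le hy m k l) (abs_nonneg _) hC.le
    nlinarith
  have ht : 0 < (1024 * C ^ 4)⁻¹ := by positivity
  have e1 : ∀ i j k l, a y i j * a y k l * (pd i (pd k v) y * pd j (pd l v) y) ≤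
      h2_phi ((fun z => a z i j) * fun z => a z k l) v i j k l y +
        a y i j * pd i (pd j v) y * (a y k l * pd k (pd l v) y) +
        2 * C ^ 2 * ((1024 * C ^ 4)⁻¹ * T + 1024 * C ^ 4 * G) := by
    intro i j k l
    have b1 := abs_le.1 (h2_young ht (dA k i j k l) (t1 j l) (g1 i))
    have b2 := abs_le.1 (h2_young ht (dA j i j k l) (t1 k l) (g1 i))
    rw [inv_inv] at b1 b2
    simp only [h2_phi, Pi.mul_apply]
    linarith [b1.1, b2.2]
  have e2 := Finset.sum_le_sum fun i (_ : i ∈ Finset.univ) =>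
    Finset.sum_le_sum fun j (_ : j ∈ Finset.univ) =>
      Finset.sum_le_sum fun k (_ : k ∈ Finset.univ) =>
        Finset.sum_le_sum fun l (_ : l ∈ Finset.univ) => e1 i j k l
  have e3 : ∑ i, ∑ j, ∑ k, ∑ l, a y i j * pd i (pd j v) y * (a y k l * pd k (pd l v) y) =
      LA a v y ^ 2 := by
    simp only [← Finset.mul_sum, ← Finset.sum_mul, LA, sq]
  simp only [Finset.sum_add_distrib, Finset.sum_const, Finset.card_univ, Fintype.card_fin,
    nsmul_eq_mul, e3] at e2
  have e4 := tr_ell hC (h.symm y hy) (h.ell y hy) (Matrix.of fun i j => pd i (pd j v) y)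
  simp only [Matrix.of_apply] at e4
  rw [← hT] at e4 ⊢
  rw [← hG]
  have e5 := mul_le_mul_of_nonneg_left e2 (sq_nonneg C)
  have e6 : C ^ 4 * (1024 * C ^ 4)⁻¹ = 1 / 1024 := by field_simp
  have e7 : C ^ 2 * ((4 : ℕ) * ((4 : ℕ) * ((4 : ℕ) * ((4 : ℕ) *
      (2 * C ^ 2 * ((1024 * C ^ 4)⁻¹ * T + 1024 * C ^ 4 * G)))))) =
      T / 2 + 2 ^ 19 * C ^ 8 * G := by
    push_cast
    linear_combination (512 * T) * e6
  rw [mul_add, mul_add, e7] at e5
  linarith

/-- Sum `h2_ibp` for `A = a i j * a k l` over all indices: the first sum is `∫ (LA a v) ^ 2`, the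
second is at least `C⁻¹ ^ 2 ∑ ∫ (∂_i ∂_j v) ^ 2` by `tr_ell` (pointwise; outside `tsupport v` all
terms vanish), and `|pd k A| ≤ 2 C ^ 2` (`Co.abs_le`, `Co.abs_pd_le`), so the right side is at most
`ε ∑ ∫ (∂_i ∂_j v) ^ 2 + K ∑ ∫ (∂_i v) ^ 2`. It is easiest to prove one pointwise inequality and
to integrate it. -/
theorem h2 (C : ℝ) : ∃ C', 0 < C' ∧ ∀ (U : Set E4) (a : Tn) (v : Fn), Co 1 U C a →
    ContDiff ℝ ∞ v → HasCompactSupport v → tsupport v ⊆ U →
    ∑ i, ∑ j, ∫ y, pd i (pd j v) y ^ 2 ≤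
      C' * ((∫ y, LA a v y ^ 2) + ∑ i, ∫ y, pd i v y ^ 2) := by
  refine ⟨2 * C ^ 2 + 2 ^ 20 * C ^ 8 + 1, by positivity, fun U a v h hv hc hs => ?_⟩
  have hK := isClosed_tsupport v
  have s := so_of_sm hv (tsupport v)
  have sa : SoM (tsupport v) a := h.sm.mono hs
  have i2 : ∀ i j, Integrable fun y => pd i (pd j v) y ^ 2 := fun i j =>
    h2_int hc (fun y hy => (((s.pd j).pd i) y hy).pow 2) fun y hy => by
      rw [h2_off2 i j y hy, zero_pow two_ne_zero]
  have i1 : ∀ i, Integrable fun y => pd i v y ^ 2 := fun i =>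
    h2_int hc (fun y hy => ((s.pd i) y hy).pow 2) fun y hy => by
      rw [h2_off i y hy, zero_pow two_ne_zero]
  have l0 : ∀ y, y ∉ tsupport v → LA a v y = 0 :=
    LA_zero_off hK a fun _ hy => image_eq_zero_of_notMem_tsupport hy
  have iL : Integrable fun y => LA a v y ^ 2 :=
    h2_int hc (fun y hy => (So.la sa s y hy).pow 2) fun y hy => by
      rw [l0 y hy, zero_pow two_ne_zero]
  have ip : ∀ i j k l, Integrable (h2_phi ((fun z => a z i j) * fun z => a z k l) v i j k l) :=
    fun i j k l => h2_phi_int ((sa i j).mul (sa k l)) hv hc i j k l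
  have ip1 : ∀ i j k, Integrable fun y =>
      ∑ l, h2_phi ((fun z => a z i j) * fun z => a z k l) v i j k l y :=
    fun i j k => integrable_finsetSum _ fun l _ => ip i j k l
  have ip2 : ∀ i j, Integrable fun y =>
      ∑ k, ∑ l, h2_phi ((fun z => a z i j) * fun z => a z k l) v i j k l y :=
    fun i j => integrable_finsetSum _ fun k _ => ip1 i j k
  have ip3 : ∀ i, Integrable fun y =>
      ∑ j, ∑ k, ∑ l, h2_phi ((fun z => a z i j) * fun z => a z k l) v i j k l y :=
    fun i => integrable_finsetSum _ fun j _ => ip2 i j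
  have ip4 : Integrable fun y =>
      ∑ i, ∑ j, ∑ k, ∑ l, h2_phi ((fun z => a z i j) * fun z => a z k l) v i j k l y :=
    integrable_finsetSum _ fun i _ => ip3 i
  have z4 : ∫ y, ∑ i, ∑ j, ∑ k, ∑ l,
      h2_phi ((fun z => a z i j) * fun z => a z k l) v i j k l y = 0 := by
    rw [integral_finsetSum _ fun i _ => ip3 i]
    refine Finset.sum_eq_zero fun i _ => ?_
    rw [integral_finsetSum _ fun j _ => ip2 i j]
    refine Finset.sum_eq_zero fun j _ => ?_
    rw [integral_finsetSum _ fun k _ => ip1 i j k]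
    refine Finset.sum_eq_zero fun k _ => ?_
    rw [integral_finsetSum _ fun l _ => ip i j k l]
    exact Finset.sum_eq_zero fun l _ => h2_phi_zero ((sa i j).mul (sa k l)) hv hc i j k l
  have iG : Integrable fun y => ∑ i, pd i v y ^ 2 := integrable_finsetSum _ fun i _ => i1 i
  have iT1 : ∀ i, Integrable fun y => ∑ j, pd i (pd j v) y ^ 2 := fun i =>
    integrable_finsetSum _ fun j _ => i2 i j
  have main := integral_mono (integrable_finsetSum Finset.univ fun i _ => iT1 i)
    (((ip4.const_mul (2 * C ^ 2)).add (iL.const_mul (2 * C ^ 2))).add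
      (iG.const_mul (2 ^ 20 * C ^ 8))) fun y => by
      by_cases hy : y ∈ tsupport v
      · exact h2_pt h v (hs hy)
      · simp [h2_phi, h2_off2 _ _ y hy, h2_off _ y hy, l0 y hy]
  simp only [Pi.add_apply] at main
  rw [integral_add ((ip4.const_mul _).fun_add (iL.const_mul _)) (iG.const_mul _),
    integral_add (ip4.const_mul _) (iL.const_mul _), integral_const_mul, integral_const_mul,
    integral_const_mul, z4, integral_finsetSum _ fun i _ => iT1 i,
    integral_finsetSum _ fun i _ => i1 i,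
    Finset.sum_congr rfl fun i _ => integral_finsetSum _ fun j _ => i2 i j] at main
  have n1 : 0 ≤ ∫ y, LA a v y ^ 2 := integral_nonneg fun y => sq_nonneg _
  have n2 : 0 ≤ ∑ i, ∫ y, pd i v y ^ 2 :=
    Finset.sum_nonneg fun i _ => integral_nonneg fun y => sq_nonneg _
  have n3 := mul_nonneg (show (0 : ℝ) ≤ 2 ^ 20 * C ^ 8 + 1 by positivity) n1
  have n4 := mul_nonneg (show (0 : ℝ) ≤ 2 * C ^ 2 + 1 by positivity) n2
  linarith

end Pool.Agent.Lib.MP_94aef8_gt.D
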