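import Pool.Agent.Lib.MP_94aef8_gt.D.Js
import Pool.Agent.Lib.MP_94aef8_gt.CubeEq

/-! Elementary properties of the Sobolev norms. -/

open scoped ContDiff Topology
open Filter Set MeasureTheory Matrix

namespace Pool.Agent.Lib.MP_94aef8_gt.D

/-- Smooth on the measurable set `S` with square integrable derivatives of all orders. -/
structure IH (S : Set E4) (f : Fn) : Prop where
  meas : MeasurableSet S
  so : So S f
  int : ∀ j, IntegrableOn (js j f) S

variable {f g : Fn} {S T U : Set E4} {j k : ℕ} {r R : ℝ}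

theorem hs_zero (S : Set E4) (f : Fn) : hs 0 S f = ∫ y in S, f y ^ 2 := rfl

theorem hs_succ (j : ℕ) (S : Set E4) (f : Fn) :
    hs (j + 1) S f = hs 0 S f + ∑ i, hs j S (pd i f) := rfl

theorem hs_nonneg (j : ℕ) (S : Set E4) (f : Fn) : 0 ≤ hs j S f := by
  induction j generalizing f with
  | zero => exact integral_nonneg fun y => sq_nonneg _
  | succ j ih =>
    exact add_nonneg (integral_nonneg fun y => sq_nonneg _) (Finset.sum_nonneg fun i _ => ih _)

theorem hs_congr (hU : IsOpen U) (j : ℕ) (h : EqOn f g U) : hs j U f = hs j U g := by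
  have h0 : ∀ {f g : Fn}, EqOn f g U → ∫ y in U, f y ^ 2 = ∫ y in U, g y ^ 2 := fun h =>
    setIntegral_congr_fun hU.measurableSet fun y hy => by simp only [h hy]
  induction j generalizing f g with
  | zero => exact h0 h
  | succ j ih =>
    simp only [hs, h0 h]
    exact congrArg _ (Finset.sum_congr rfl fun i _ => ih (pd_congr_on hU h i))

theorem hs_smul (j : ℕ) (S : Set E4) (c : ℝ) (f : Fn) : hs j S (c • f) = c ^ 2 * hs j S f := by
  have h0 : ∀ f : Fn, ∫ y in S, (c • f) y ^ 2 = c ^ 2 * ∫ y in S, f y ^ 2 := fun f => by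
    simp only [Pi.smul_apply, smul_eq_mul, mul_pow, integral_const_mul]
  induction j generalizing f with
  | zero => exact h0 f
  | succ j ih => simp only [hs, h0, pd_smul, ih, mul_add, Finset.mul_sum]

theorem hs_neg (j : ℕ) (S : Set E4) (f : Fn) : hs j S (-f) = hs j S f := by
  rw [← neg_one_smul ℝ f, hs_smul]
  ring

theorem hs_zero_fn (j : ℕ) (S : Set E4) : hs j S (0 : Fn) = 0 := by
  rw [← zero_smul ℝ (0 : Fn), hs_smul]
  ring

theorem hs_le_succ (j : ℕ) (S : Set E4) (f : Fn) : hs j S f ≤ hs (j + 1) S f := by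
  induction j generalizing f with
  | zero => exact le_add_of_nonneg_right (Finset.sum_nonneg fun i _ => hs_nonneg _ _ _)
  | succ j ih => exact add_le_add le_rfl (Finset.sum_le_sum fun i _ => ih _)

theorem hs_mono (h : j ≤ k) (S : Set E4) (f : Fn) : hs j S f ≤ hs k S f := by
  induction h with
  | refl => exact le_rfl
  | step _ ih => exact ih.trans (hs_le_succ _ _ _)

theorem hs_sum_pd (j : ℕ) (S : Set E4) (f : Fn) : ∑ i, hs j S (pd i f) ≤ hs (j + 1) S f :=
  le_add_of_nonneg_left (hs_nonneg 0 S f)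

theorem hs_pd (j : ℕ) (S : Set E4) (f : Fn) (i : Fin 4) : hs j S (pd i f) ≤ hs (j + 1) S f :=
  (Finset.single_le_sum (f := fun i => hs j S (pd i f)) (fun _ _ => hs_nonneg _ _ _)
    (Finset.mem_univ i)).trans (hs_sum_pd j S f)

theorem hs_pd2 (j : ℕ) (S : Set E4) (f : Fn) (a b : Fin 4) :
    hs j S (pd a (pd b f)) ≤ hs (j + 2) S f := (hs_pd _ _ _ _).trans (hs_pd _ _ _ _)

theorem hs_pdw (j : ℕ) (S : Set E4) (f : Fn) (w : List (Fin 4)) :
    hs j S (pdw w f) ≤ hs (j + w.length) S f := by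
  induction w generalizing j with
  | nil => exact le_rfl
  | cons i w ih =>
    refine (hs_pd j S _ i).trans ((ih (j + 1)).trans (le_of_eq ?_))
    rw [List.length_cons, add_assoc, add_comm 1]

theorem So.aesm (hS : MeasurableSet S) (hf : So S f) : AEStronglyMeasurable f (volume.restrict S) :=
  hf.cont.aestronglyMeasurable hS

/-- A smooth function dominated by an integrable function is integrable. -/
theorem So.int_of_le (hS : MeasurableSet S) (hf : So S f) {φ : Fn} (hφ : IntegrableOn φ S)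
    (h : ∀ y ∈ S, |f y| ≤ φ y) : IntegrableOn f S :=
  Integrable.mono' hφ (hf.aesm hS) ((ae_restrict_iff' hS).2 (Eventually.of_forall h))

theorem ih_of_le (hS : MeasurableSet S) (hf : So S f)
    (h : ∀ j, ∃ φ : Fn, IntegrableOn φ S ∧ ∀ y ∈ S, js j f y ≤ φ y) : IH S f :=
  ⟨hS, hf, fun j => by
    obtain ⟨φ, h1, h2⟩ := h j
    exact (hf.js j).int_of_le hS h1 fun y hy => by
      rw [abs_of_nonneg (js_nonneg _ _ _)]
      exact h2 y hy⟩

theorem So.ih (hf : So (Kc r) f) : IH (Q r) f :=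
  ⟨meas_Q r, hf.mono (Q_sub_Kc r), fun j => (hf.js j).intOn⟩

theorem ih_of_on (h : r < R) (hf : ContDiffOn ℝ ∞ f (Q R)) : IH (Q r) f := (so_Kc h hf).ih

theorem IH.mono (hf : IH T f) (hS : MeasurableSet S) (h : S ⊆ T) : IH S f :=
  ⟨hS, hf.so.mono h, fun j => (hf.int j).mono_set h⟩

theorem IH.pd (hf : IH S f) (i : Fin 4) : IH S (pd i f) :=
  ih_of_le hf.meas (hf.so.pd i) fun j => ⟨_, hf.int (j + 1), fun y _ => js_pd j f y i⟩

theorem IH.add (hf : IH S f) (hg : IH S g) : IH S (f + g) :=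
  ih_of_le hf.meas (hf.so.add hg.so) fun j =>
    ⟨_, ((hf.int j).const_mul 2).add ((hg.int j).const_mul 2),
      fun y hy => js_add j (hf.so y hy) (hg.so y hy)⟩

theorem IH.smul (c : ℝ) (hf : IH S f) : IH S (c • f) :=
  ih_of_le hf.meas (hf.so.smul c) fun j =>
    ⟨_, (hf.int j).const_mul (c ^ 2), fun y _ => (js_smul j c f y).le⟩

theorem IH.neg (hf : IH S f) : IH S (-f) := by
  rw [← neg_one_smul ℝ f]
  exact hf.smul _

theorem IH.sub (hf : IH S f) (hg : IH S g) : IH S (f - g) := by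
  rw [sub_eq_add_neg]
  exact hf.add hg.neg

theorem IH.sum {ι : Type} (hS : MeasurableSet S) (s : Finset ι) {F : ι → Fn}
    (h : ∀ i ∈ s, IH S (F i)) : IH S (∑ i ∈ s, F i) :=
  ih_of_le hS (So.sum s fun i hi => (h i hi).so) fun j =>
    ⟨_, (integrable_finsetSum s fun i hi => (h i hi).int j).const_mul (s.card : ℝ),
      fun y hy => js_sum s j fun i hi => (h i hi).so y hy⟩

theorem IH.bmul (hg : So S g) (hb : ∀ j, ∃ B, ∀ y ∈ S, js j g y ≤ B) (hf : IH S f) :
    IH S (g * f) :=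
  ih_of_le hf.meas (hg.mul hf.so) fun j => by
    obtain ⟨B, hB⟩ := hb j
    exact ⟨_, (hf.int j).const_mul (5 ^ j * B),
      fun y hy => js_mul_le j (hg y hy) (hf.so y hy) (hB y hy)⟩

theorem ih_of_cs (hf : ContDiff ℝ ∞ f) (hc : HasCompactSupport f) : IH univ f :=
  ⟨MeasurableSet.univ, so_of_sm hf _, fun j => by
    rw [integrableOn_univ]
    refine int_of_cs (contDiff_iff_contDiffAt.2 fun y => at_js j hf.contDiffAt) ?_
    exact HasCompactSupport.intro hc fun y hy =>
      js_ev_zero j (notMem_tsupport_iff_eventuallyEq.1 hy)⟩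

theorem IH.int_sq (hf : IH S f) : IntegrableOn (fun y => f y ^ 2) S := hf.int 0

theorem IH.int_mul (hf : IH S f) (hg : IH S g) : IntegrableOn (fun y => f y * g y) S :=
  (hf.so.mul hg.so).int_of_le hf.meas (hf.int_sq.add hg.int_sq) fun y _ => by
    simp only [Pi.add_apply]
    exact abs_le.2 ⟨by nlinarith [sq_nonneg (f y + g y)], by nlinarith [sq_nonneg (f y - g y)]⟩

theorem IH.hs_eq (hf : IH S f) (j : ℕ) : hs j S f = ∫ y in S, js j f y := by
  induction j generalizing f with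
  | zero => rfl
  | succ j ih =>
    simp only [hs, js]
    rw [integral_add hf.int_sq (integrable_finsetSum _ fun i _ => (hf.pd i).int j),
      integral_finsetSum _ fun i _ => (hf.pd i).int j]
    exact congrArg _ (Finset.sum_congr rfl fun i _ => ih (hf.pd i))

/-- Pointwise bounds give bounds of the norms. -/
theorem IH.hs_le (hf : IH S f) {φ : Fn} (hφ : IntegrableOn φ S) (h : ∀ y ∈ S, js j f y ≤ φ y) :
    hs j S f ≤ ∫ y in S, φ y := by
  rw [hf.hs_eq]
  exact setIntegral_mono_on (hf.int j) hφ hf.meas h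

theorem IH.hs_le1 {a : ℝ} (hf : IH S f) (hg : IH S g) (h : ∀ y ∈ S, js j f y ≤ a * js k g y) :
    hs j S f ≤ a * hs k S g := by
  rw [hg.hs_eq, ← integral_const_mul]
  exact hf.hs_le ((hg.int k).const_mul a) h

theorem IH.hs_le2 {a b : ℝ} {u : Fn} {l : ℕ} (hf : IH S f) (hg : IH S g) (hu : IH S u)
    (h : ∀ y ∈ S, js j f y ≤ a * js k g y + b * js l u y) :
    hs j S f ≤ a * hs k S g + b * hs l S u := by
  rw [hg.hs_eq, hu.hs_eq, ← integral_const_mul, ← integral_const_mul,
    ← integral_add ((hg.int k).const_mul a) ((hu.int l).const_mul b)]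
  exact hf.hs_le (((hg.int k).const_mul a).add ((hu.int l).const_mul b)) h

theorem IH.hs_add_le {t : ℝ} (ht : 0 < t) (j : ℕ) (hf : IH S f) (hg : IH S g) :
    hs j S (f + g) ≤ (1 + t) * hs j S f + (1 + t⁻¹) * hs j S g :=
  (hf.add hg).hs_le2 hf hg fun y hy => js_add_le ht j (hf.so y hy) (hg.so y hy)

theorem IH.hs_add (j : ℕ) (hf : IH S f) (hg : IH S g) :
    hs j S (f + g) ≤ 2 * hs j S f + 2 * hs j S g :=
  (hf.add hg).hs_le2 hf hg fun y hy => js_add j (hf.so y hy) (hg.so y hy)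

theorem IH.hs_sub (j : ℕ) (hf : IH S f) (hg : IH S g) :
    hs j S (f - g) ≤ 2 * hs j S f + 2 * hs j S g :=
  (hf.sub hg).hs_le2 hf hg fun y hy => js_sub j (hf.so y hy) (hg.so y hy)

theorem hs_sum {ι : Type} (hS : MeasurableSet S) (s : Finset ι) {F : ι → Fn} (j : ℕ)
    (h : ∀ i ∈ s, IH S (F i)) : hs j S (∑ i ∈ s, F i) ≤ s.card * ∑ i ∈ s, hs j S (F i) := by
  rw [Finset.sum_congr rfl fun i hi => (h i hi).hs_eq j,
    ← integral_finsetSum s fun i hi => (h i hi).int j, ← integral_const_mul]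
  exact (IH.sum hS s h).hs_le
    ((integrable_finsetSum s fun i hi => (h i hi).int j).const_mul _)
    fun y hy => js_sum s j fun i hi => (h i hi).so y hy

theorem hs_sum4 {F : Fin 4 → Fn} (j : ℕ) (h : ∀ i, IH S (F i)) :
    hs j S (∑ i, F i) ≤ 4 * ∑ i, hs j S (F i) := by
  simpa using hs_sum (h 0).meas Finset.univ j fun i _ => h i

theorem hs_sum16 {F : Fin 4 → Fin 4 → Fn} (j : ℕ) (h : ∀ a b, IH S (F a b)) :
    hs j S (∑ a, ∑ b, F a b) ≤ 16 * ∑ a, ∑ b, hs j S (F a b) := by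
  have h1 := hs_sum4 (F := fun a => ∑ b, F a b) j fun a => IH.sum (h 0 0).meas _ fun b _ => h a b
  have h2 := Finset.sum_le_sum fun a (_ : a ∈ Finset.univ) => hs_sum4 j (h a)
  rw [← Finset.mul_sum] at h2
  linarith

theorem IH.hs_bmul {B : ℝ} (hgf : IH S (g * f)) (hg : So S g) (hf : IH S f)
    (hB : ∀ y ∈ S, js j g y ≤ B) : hs j S (g * f) ≤ 5 ^ j * B * hs j S f :=
  hgf.hs_le1 hf fun y hy => js_mul_le j (hg y hy) (hf.so y hy) (hB y hy)

theorem IH.hs_mono_set (hf : IH T f) (hS : MeasurableSet S) (h : S ⊆ T) (j : ℕ) :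
    hs j S f ≤ hs j T f := by
  rw [hf.hs_eq, (hf.mono hS h).hs_eq]
  exact setIntegral_mono_set (hf.int j) (Eventually.of_forall fun y => js_nonneg j f y)
    h.eventuallyLE

theorem hs_mono_Q (h : r ≤ R) (hf : So (Kc R) f) (j : ℕ) : hs j (Q r) f ≤ hs j (Q R) f :=
  hf.ih.hs_mono_set (meas_Q r) (Q_mono h) j

/-- The norm does not depend on the domain as long as it contains the support. -/
theorem hs_eq_of_zero {K : Set E4} (hK : IsClosed K) (hKS : K ⊆ S) (hKT : K ⊆ T)
    (h0 : ∀ y, y ∉ K → f y = 0) (j : ℕ) : hs j S f = hs j T f := by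
  have h1 : ∀ {f : Fn}, (∀ y, y ∉ K → f y = 0) → hs 0 S f = hs 0 T f := fun h0 => by
    rw [hs_zero, hs_zero, setIntegral_eq_integral_of_forall_compl_eq_zero fun y hy => by
      rw [h0 y fun hk => hy (hKS hk), zero_pow two_ne_zero],
      setIntegral_eq_integral_of_forall_compl_eq_zero fun y hy => by
      rw [h0 y fun hk => hy (hKT hk), zero_pow two_ne_zero]]
  induction j generalizing f with
  | zero => exact h1 h0
  | succ j ih =>
    rw [hs_succ, hs_succ, h1 h0]
    exact congrArg _ (Finset.sum_congr rfl fun i _ => ih (pd_zero_off hK h0 i))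

theorem hs_univ (f : Fn) : hs 0 univ f = ∫ y, f y ^ 2 := by
  rw [hs_zero, Measure.restrict_univ]

theorem hs_le_vol {B : ℝ} (hf : So (Kc r) f) (h : ∀ y ∈ Q r, js j f y ≤ B) :
    hs j (Q r) f ≤ volume.real (Q r) * B := by
  have h1 := hf.ih.hs_le (φ := fun _ => B) (integrableOn_const (vol_Q_lt r).ne) h
  rwa [setIntegral_const, smul_eq_mul] at h1

theorem hs_cb {B : ℝ} (hf : So (Kc r) f) (h : Cb j (Q r) f B) :
    hs j (Q r) f ≤ volume.real (Q r) * (5 ^ j * B ^ 2) :=
  hs_le_vol hf fun _ hy => cb_js h hy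

/-! Fields of matrices. -/

variable {h h' : Tn}

/-- Entrywise version of `IH`. -/
def IHM (S : Set E4) (h : Tn) : Prop := ∀ a b, IH S fun y => h y a b

theorem SoM.ih (hh : SoM (Kc r) h) : IHM (Q r) h := fun a b => (hh a b).ih

theorem hsM_nonneg (j : ℕ) (S : Set E4) (h : Tn) : 0 ≤ hsM j S h :=
  Finset.sum_nonneg fun _ _ => Finset.sum_nonneg fun _ _ => hs_nonneg _ _ _

theorem hs_le_hsM (j : ℕ) (S : Set E4) (h : Tn) (a b : Fin 4) :
    hs j S (fun z => h z a b) ≤ hsM j S h :=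
  (Finset.single_le_sum (f := fun b => hs j S fun z => h z a b) (fun _ _ => hs_nonneg _ _ _)
    (Finset.mem_univ b)).trans (Finset.single_le_sum
      (f := fun a => ∑ b, hs j S fun z => h z a b)
      (fun _ _ => Finset.sum_nonneg fun _ _ => hs_nonneg _ _ _) (Finset.mem_univ a))

theorem hsM_mono (hj : j ≤ k) (S : Set E4) (h : Tn) : hsM j S h ≤ hsM k S h :=
  Finset.sum_le_sum fun _ _ => Finset.sum_le_sum fun _ _ => hs_mono hj _ _

theorem hsM_congr (hU : IsOpen U) (j : ℕ) (e : EqOn h h' U) : hsM j U h = hsM j U h' :=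
  Finset.sum_congr rfl fun a _ => Finset.sum_congr rfl fun b _ =>
    hs_congr hU j fun _ hy => congrFun (congrFun (e hy) a) b

theorem hsM_mono_Q (hr : r ≤ R) (hh : SoM (Kc R) h) (j : ℕ) : hsM j (Q r) h ≤ hsM j (Q R) h :=
  Finset.sum_le_sum fun a _ => Finset.sum_le_sum fun b _ => hs_mono_Q hr (hh a b) j

theorem hsM_le {B : ℝ} (hB : ∀ a b, hs j S (fun z => h z a b) ≤ B) : hsM j S h ≤ 16 * B := by
  have h1 : hsM j S h ≤ ∑ _a : Fin 4, ∑ _b : Fin 4, B :=
    Finset.sum_le_sum fun a _ => Finset.sum_le_sum fun b _ => hB a b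
  simp only [Finset.sum_const, Finset.card_univ, Fintype.card_fin, nsmul_eq_mul] at h1
  norm_num at h1
  linarith

theorem IHM.int (hh : IHM S h) (j : ℕ) : IntegrableOn (jsM j h) S :=
  integrable_finsetSum _ fun a _ => integrable_finsetSum _ fun b _ => (hh a b).int j

theorem IHM.hs_eq (hh : IHM S h) (j : ℕ) : hsM j S h = ∫ y in S, jsM j h y := by
  simp only [hsM, jsM]
  rw [integral_finsetSum _ fun a _ => integrable_finsetSum _ fun b _ => (hh a b).int j]
  refine Finset.sum_congr rfl fun a _ => ?_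
  rw [integral_finsetSum _ fun b _ => (hh a b).int j]
  exact Finset.sum_congr rfl fun b _ => (hh a b).hs_eq j

theorem IH.hs_leM {a : ℝ} (hf : IH S f) (hh : IHM S h) (e : ∀ y ∈ S, js j f y ≤ a * jsM k h y) :
    hs j S f ≤ a * hsM k S h := by
  rw [hh.hs_eq, ← integral_const_mul]
  exact hf.hs_le ((hh.int k).const_mul a) e

theorem IHM.hs_add (j : ℕ) (hh : IHM S h) (hh' : IHM S h') :
    hsM j S (h + h') ≤ 2 * hsM j S h + 2 * hsM j S h' := by
  simp only [hsM, Finset.mul_sum, ← Finset.sum_add_distrib]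
  exact Finset.sum_le_sum fun a _ => Finset.sum_le_sum fun b _ => (hh a b).hs_add j (hh' a b)

theorem IHM.hs_sub (j : ℕ) (hh : IHM S h) (hh' : IHM S h') :
    hsM j S (h - h') ≤ 2 * hsM j S h + 2 * hsM j S h' := by
  simp only [hsM, Finset.mul_sum, ← Finset.sum_add_distrib]
  exact Finset.sum_le_sum fun a _ => Finset.sum_le_sum fun b _ => (hh a b).hs_sub j (hh' a b)

theorem hsM_smul (j : ℕ) (S : Set E4) (c : ℝ) (h : Tn) : hsM j S (c • h) = c ^ 2 * hsM j S h := by
  simp only [hsM, Finset.mul_sum]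
  exact Finset.sum_congr rfl fun a _ => Finset.sum_congr rfl fun b _ =>
    hs_smul j S c fun z => h z a b

end Pool.Agent.Lib.MP_94aef8_gt.D
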