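import Pool.Agent.Lib.MP_94aef8_gt.D.H2

/-! Interior estimates for scalar operators. -/

open scoped ContDiff Topology
open Filter Set MeasureTheory Matrix

namespace Pool.Agent.Lib.MP_94aef8_gt.D

/-- The second derivatives of `χ f` and, for higher `n`, of `χ ∂_w f` for the words of length
`n`. -/
noncomputable def yy (χ : Fn) : ℕ → Fn → ℝ
  | 0, f => ∑ i, ∑ j, ∫ y, pd i (pd j (χ * f)) y ^ 2
  | n + 1, f => ∑ i, yy χ n (pd i f)

theorem yy_nonneg (χ : Fn) (n : ℕ) (f : Fn) : 0 ≤ yy χ n f := by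
  induction n generalizing f with
  | zero =>
    exact Finset.sum_nonneg fun _ _ => Finset.sum_nonneg fun _ _ =>
      integral_nonneg fun _ => sq_nonneg _
  | succ n ih => exact Finset.sum_nonneg fun _ _ => ih _

/-- Induction on `n`. For `n = 0`: `χ * f = f` near the points of `Q r` (`Cut.ev_mul`,
`pd_congr`), `setIntegral_le_integral`, `sm_cut_mul`, `ih_of_cs`. -/
theorem hs_le_yy {r r' : ℝ} {χ : Fn} (hχ : Cut r r' χ) (n : ℕ) {f : Fn} (hf : So (Kc r') f) :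
    hs (n + 2) (Q r) f ≤ hs (n + 1) (Q r) f + yy χ n f := by
  induction n generalizing f with
  | zero =>
    have h1 := sm_cut_mul hχ.sm hχ.zero hf
    have h2 : HasCompactSupport (χ * f) := cs_of_zero (r := r') fun y hy => by
      rw [Pi.mul_apply, hχ.zero y hy, zero_mul]
    have h3 : ∀ i j, hs 0 (Q r) (pd i (pd j f)) ≤ ∫ y, pd i (pd j (χ * f)) y ^ 2 := fun i j => by
      rw [← hs_univ, ← hs_congr (isOpen_Q r) 0 (f := pd i (pd j (χ * f))) fun y hy =>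
        (pd_congr (pd_congr (hχ.ev_mul hy f) j) i).eq_of_nhds]
      exact (((ih_of_cs h1 h2).pd j).pd i).hs_mono_set (meas_Q r) (subset_univ _) 0
    have h4 := Finset.sum_le_sum fun i (_ : i ∈ Finset.univ) =>
      Finset.sum_le_sum fun j (_ : j ∈ Finset.univ) => h3 i j
    rw [Finset.sum_comm] at h4
    simp only [hs_succ, yy, Finset.sum_add_distrib]
    linarith
  | succ n ih =>
    have h1 := Finset.sum_le_sum fun i (_ : i ∈ Finset.univ) => ih (hf.pd i)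
    rw [hs_succ (n + 2), hs_succ (n + 1), yy]
    rw [Finset.sum_add_distrib] at h1
    linarith

/-- `h2` for `v = χ * f` with `U = Kc r'` (`tsupp_of_zero`). The integrals over the whole space are
norms `hs 0 univ` (`hs_univ`) of functions that vanish outside `Kc r1`, so they are norms on
`Q r'` (`hs_eq_of_zero`), and `∑ i, hs 0 (pd i v) ≤ hs 1 v ≤ K * hs 1 f` (`IH.hs_bmul`). -/
theorem yy_zero_le (C : ℝ) : ∃ C', 0 < C' ∧ ∀ (r1 r' : ℝ) (χ : Fn), r1 < r' → ContDiff ℝ ∞ χ →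
    (∀ y, y ∉ Kc r1 → χ y = 0) → ∃ K, 0 ≤ K ∧ ∀ (a : Tn) (f : Fn), Co 1 (Kc r') C a →
      So (Kc r') f → yy χ 0 f ≤ C' * hs 0 (Q r') (LA a (χ * f)) + K * hs 1 (Q r') f := by
  obtain ⟨C', h0, hC'⟩ := h2 C
  refine ⟨C', h0, fun r1 r' χ hr hχ hz => ?_⟩
  obtain ⟨B, hB0, hB⟩ := cs_bdd hχ (cs_of_zero hz) 1
  refine ⟨C' * (5 * B), by positivity, fun a f ha hf => ?_⟩
  have h1 := sm_cut_mul hχ hz (hf.mono (Kc_mono hr.le))
  have h2 : ∀ y, y ∉ Kc r1 → (χ * f) y = 0 := fun y hy => by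
    rw [Pi.mul_apply, hz y hy, zero_mul]
  have h3 := hC' _ a _ ha h1 (cs_of_zero h2)
    ((tsupp_of_zero (isClosed_Kc r1) h2).trans (Kc_mono hr.le))
  have h4 : ∀ {u : Fn}, (∀ y, y ∉ Kc r1 → u y = 0) → ∫ y, u y ^ 2 = hs 0 (Q r') u := fun hu => by
    rw [← hs_univ]
    exact hs_eq_of_zero (isClosed_Kc r1) (subset_univ _) (Kc_sub_Q hr) hu 0
  rw [h4 (LA_zero_off (isClosed_Kc r1) a h2),
    Finset.sum_congr rfl fun i _ => h4 (pd_zero_off (isClosed_Kc r1) h2 i)] at h3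
  have h5 := (hs_sum_pd 0 (Q r') (χ * f)).trans
    ((so_of_sm h1 (Kc r')).ih.hs_bmul (j := 1) (so_of_sm hχ _) hf.ih fun y _ => hB y)
  have h6 := mul_le_mul_of_nonneg_left h5 h0.le
  rw [yy]
  linarith

theorem ints_zero (C : ℝ) {r r' : ℝ} (hr : r < r') : ∃ C', 0 < C' ∧ ∀ (a : Tn) (f : Fn),
    Co 1 (Kc r') C a → So (Kc r') f →
      hs 2 (Q r) f ≤ C' * (hs 0 (Q r') (LA a f) + hs 1 (Q r') f) := by
  obtain ⟨r1, hr1, hr2⟩ := exists_between hr
  obtain ⟨χ, hχ⟩ := exists_cut hr1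
  obtain ⟨C', h0, hC'⟩ := yy_zero_le C
  obtain ⟨K, hK0, hK⟩ := hC' r1 r' χ hr2 hχ.sm hχ.zero
  obtain ⟨L, hL0, hL⟩ := js_cm 0
  obtain ⟨B, hB0, hB⟩ := cs_bdd hχ.sm (cs_of_zero hχ.zero) 2
  refine ⟨2 * C' + (1 + K + C' * (2 * (L * |C| * B))), by positivity, fun a f ha hf => ?_⟩
  rw [abs_of_pos ha.cpos]
  have h1 := hs_le_yy hχ 0 (hf.mono (Kc_mono hr2.le))
  have h2 := hK a f ha hf
  have h3 := hs_mono_Q hr.le hf 1
  have h4 : hs 0 (Q r') (LA a (χ * f)) ≤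
      2 * hs 0 (Q r') (LA a f) + 2 * (L * C * B) * hs 1 (Q r') f := by
    refine (So.la ha.sm ((so_of_sm hχ.sm _).mul hf)).ih.hs_le2 (So.la ha.sm hf).ih hf.ih
      fun y hy => ?_
    have hy' := Q_sub_Kc r' hy
    have e1 := hL a χ f y C B (fun i j => ha.sm i j y hy') hχ.sm.contDiffAt (hf y hy')
      (fun i j => (js_le_succ 0 _ y).trans (ha.bdd y hy' i j)) (hB y)
    have e2 : χ y ^ 2 ≤ 1 := pow_le_one₀ (hχ.nonneg y) (hχ.le_one y)
    have e3 := mul_le_mul_of_nonneg_right e2 (sq_nonneg (LA a f y))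
    rw [js_zero] at e1
    rw [js_zero, js_zero, LA_mul a hχ.sm.contDiffAt (hf y hy')]
    nlinarith [sq_nonneg (χ y * LA a f y - cm a χ f y)]
  have h5 := mul_le_mul_of_nonneg_left h4 h0.le
  have h6 := mul_nonneg h0.le (hs_nonneg 1 (Q r') f)
  have h7 : 0 ≤ (1 + K + C' * (2 * (L * C * B))) * hs 0 (Q r') (LA a f) := by
    have := ha.cpos
    have := hs_nonneg 0 (Q r') (LA a f)
    positivity
  linarith

theorem ints_comm {k : ℕ} {C r : ℝ} {a : Tn} {f : Fn} (ha : Co (k + 1) (Kc r) C a)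
    (hf : So (Kc r) f) (i : Fin 4) : hs k (Q r) (LA a (pd i f)) ≤
      2 * hs k (Q r) (pd i (LA a f)) + 2 * (256 * 5 ^ k * C * hs (k + 2) (Q r) f) := by
  have h1 : EqOn (LA a (pd i f)) (pd i (LA a f) - LA (dM i a) f) (Q r) := fun y hy => by
    have hy' := Q_sub_Kc r hy
    rw [Pi.sub_apply, pd_LA (fun i j => ha.sm i j y hy') (hf y hy')]
    ring
  have h2 := (So.la (ha.sm.dM i) hf).ih
  have h3 := ((So.la ha.sm hf).ih.pd i).hs_sub k h2
  have h4 := h2.hs_le1 (j := k) (k := k + 2) hf.ih fun y hy =>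
    js_LA (B := C) (fun l j => ha.sm.dM i l j y (Q_sub_Kc r hy)) (hf y (Q_sub_Kc r hy))
      fun l j => (js_pd k _ y i).trans (ha.bdd y (Q_sub_Kc r hy) l j)
  rw [hs_congr (isOpen_Q r) k h1]
  linarith

/-- Induction on `k`. `k = 0`: take a cut-off `Cut r r1 χ` with `r < r1 < r'`, `hs_le_yy`,
`yy_zero_le`, `LA_mul`, `js_cm`. Step: `hs_succ`, the estimate for `pd i f`, and
`LA a (pd i f) = pd i (LA a f) - LA (dM i a) f` on `Q r'` (`pd_LA`, `hs_congr`, `IH.hs_sub`,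
`js_LA`, `js_pd`). -/
theorem ints (k : ℕ) (C : ℝ) {r r' : ℝ} (hr : r < r') : ∃ C', 0 < C' ∧ ∀ (a : Tn) (f : Fn),
    Co (k + 1) (Kc r') C a → So (Kc r') f →
      hs (k + 2) (Q r) f ≤ C' * (hs k (Q r') (LA a f) + hs (k + 1) (Q r') f) := by
  induction k with
  | zero => exact ints_zero C hr
  | succ k ih =>
    obtain ⟨C', h0, hC'⟩ := ih
    refine ⟨2 * C' + (1 + C' * (8 * (256 * 5 ^ k * |C|) + 1)), by positivity,
      fun a f ha hf => ?_⟩
    rw [abs_of_pos ha.cpos]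
    have ha' := ha.mono (Nat.le_succ _) Subset.rfl le_rfl
    have h1 : ∀ i, hs (k + 2) (Q r) (pd i f) ≤ 2 * C' * hs k (Q r') (pd i (LA a f)) +
        C' * hs (k + 1) (Q r') (pd i f) + C' * (2 * (256 * 5 ^ k * C * hs (k + 2) (Q r') f)) :=
      fun i => by
        have e1 := hC' a _ ha' (hf.pd i)
        have e2 := mul_le_mul_of_nonneg_left (ints_comm ha' hf i) h0.le
        linarith
    have h2 := Finset.sum_le_sum fun i (_ : i ∈ Finset.univ) => h1 i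
    simp only [Finset.sum_add_distrib, ← Finset.mul_sum, Finset.sum_const, Finset.card_univ,
      Fintype.card_fin, nsmul_eq_mul, Nat.cast_ofNat] at h2
    have h3 := mul_le_mul_of_nonneg_left (hs_sum_pd k (Q r') (LA a f)) h0.le
    have h4 := mul_le_mul_of_nonneg_left (hs_sum_pd (k + 1) (Q r') f) h0.le
    have h5 := (hs_mono_Q hr.le hf 0).trans (hs_mono (Nat.zero_le (k + 2)) (Q r') f)
    have h6 := mul_nonneg h0.le (hs_nonneg (k + 2) (Q r') f)
    have h7 : 0 ≤ (1 + C' * (8 * (256 * 5 ^ k * C) + 1)) * hs (k + 1) (Q r') (LA a f) := by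
      have := ha.cpos
      have := hs_nonneg (k + 1) (Q r') (LA a f)
      positivity
    rw [hs_succ (k + 2)]
    linarith

end Pool.Agent.Lib.MP_94aef8_gt.D
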