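import Pool.Agent.Lib.MP_94aef8_gt.D.Good
import Pool.Agent.Lib.MP_94aef8_gt.D.Cacc
import Pool.Agent.Lib.MP_94aef8_gt.D.IntS

/-! Interior estimates for the operator `Pop`. -/

open scoped ContDiff Topology
open Filter Set MeasureTheory Matrix

namespace Pool.Agent.Lib.MP_94aef8_gt.D

theorem intM_la (μ : ℝ) (G h : Tn) (i j : Fin 4) :
    LA (inv G) (fun z => h z i j) = low μ G h i j - fun z => Pop μ G h z i j := by
  rw [low, add_sub_cancel_left]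

theorem intM_sq (h : Tn) (y : E4) (i j : Fin 4) : h y i j ^ 2 ≤ jsM 0 h y :=
  (Finset.single_le_sum (f := fun b => js 0 (fun z => h z i b) y) (fun _ _ => js_nonneg _ _ _)
    (Finset.mem_univ j)).trans (Finset.single_le_sum
      (f := fun a => ∑ b, js 0 (fun z => h z a b) y)
      (fun _ _ => Finset.sum_nonneg fun _ _ => js_nonneg _ _ _) (Finset.mem_univ i))

theorem intM_pt {x f l p δ K E H P : ℝ} (x0 : 0 ≤ x) (x1 : x ≤ 1) (hδ : 0 < δ) (hK : 0 ≤ K)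
    (hl : l ^ 2 ≤ K * (H + E)) (hf : f ^ 2 ≤ H) (hp : p ^ 2 ≤ P) :
    x * |f * (l - p)| ≤ δ * K * (x * E) + (δ * K + δ⁻¹ + 1) * H + P := by
  have e : δ * δ⁻¹ = 1 := mul_inv_cancel₀ hδ.ne'
  have i0 := inv_pos.2 hδ
  have h1 : |f * (l - p)| ≤ δ * l ^ 2 + (δ⁻¹ * f ^ 2 + f ^ 2 + p ^ 2) := by
    have a1 := mul_nonneg i0.le (sq_nonneg (δ * l - f))
    have a2 := mul_nonneg i0.le (sq_nonneg (δ * l + f))
    have a3 : δ⁻¹ * (δ * l - f) ^ 2 = δ * l ^ 2 - 2 * (f * l) + δ⁻¹ * f ^ 2 := by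
      linear_combination (δ * l ^ 2 - 2 * (f * l)) * e
    have a4 : δ⁻¹ * (δ * l + f) ^ 2 = δ * l ^ 2 + 2 * (f * l) + δ⁻¹ * f ^ 2 := by
      linear_combination (δ * l ^ 2 + 2 * (f * l)) * e
    have a5 := mul_nonneg hδ.le (sq_nonneg l)
    have a6 := mul_nonneg i0.le (sq_nonneg f)
    refine abs_le.2 ⟨?_, ?_⟩ <;> nlinarith [sq_nonneg (f - p), sq_nonneg (f + p)]
  have hH : 0 ≤ H := (sq_nonneg f).trans hf
  have h2 := mul_le_mul_of_nonneg_left h1 x0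
  have h3 := mul_le_mul_of_nonneg_left hl (mul_nonneg x0 hδ.le)
  have h4 : x * (δ⁻¹ * f ^ 2 + f ^ 2 + p ^ 2) ≤ δ⁻¹ * f ^ 2 + f ^ 2 + p ^ 2 :=
    mul_le_of_le_one_left (by positivity) x1
  have h5 : x * (δ * K * H) ≤ δ * K * H := mul_le_of_le_one_left (by positivity) x1
  have h6 := mul_le_mul_of_nonneg_left hf i0.le
  linarith

theorem intM_le {F : Fin 4 → Fin 4 → ℝ} {B : ℝ} (h : ∀ i j, F i j ≤ B) : ∑ i, ∑ j, F i j ≤ 16 * B := by
  have h1 : ∑ i, ∑ j, F i j ≤ ∑ _a : Fin 4, ∑ _b : Fin 4, B :=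
    Finset.sum_le_sum fun a _ => Finset.sum_le_sum fun b _ => h a b
  simp only [Finset.sum_const, Finset.card_univ, Fintype.card_fin, nsmul_eq_mul] at h1
  norm_num at h1
  linarith

/-- Take `Cut r r1 χ`, `r < r1 < r'`, and `X = ∑ i j, ∫ χ² ∑ l, (∂_l h i j)²`. Apply `cacc` with
`a = inv G` (`co_inv`) to every entry; `LA (inv G) (h i j) = low - Pop`, so pointwise
`χ² |h i j * LA| ≤ δ χ² low² + (1 / (4 δ) + 1) (h i j)² + (Pop i j)²` and
`low² ≤ C' jsM 1 h = C' (∑ h² + ∑ ∑ (∂h)²)` (`js_low 0`). With `16 C'' C' δ ≤ 1 / 2` this gives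
`X ≤ X / 2 + K (...)`. Finally `hsM 1 (Q r) h ≤ hsM 0 (Q r') h + X` since `χ = 1` on `Q r`. -/
theorem caccM (C : ℝ) {r r' : ℝ} (hr : r < r') : ∃ C', 0 ≤ C' ∧ ∀ (G h : Tn) (μ : ℝ),
    Co 2 (Kc r') C G → |μ| ≤ C → SoM (Kc r') h →
      hsM 1 (Q r) h ≤ C' * (hsM 0 (Q r') (Pop μ G h) + hsM 0 (Q r') h) := by
  have r1 : r < (r + r') / 2 := by linarith
  have r2 : (r + r') / 2 < r' := by linarith
  obtain ⟨χ, hχ⟩ := exists_cut r1
  obtain ⟨C₁, h₁⟩ := co_inv 2 C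
  obtain ⟨A, hA, h₂⟩ := cacc C₁ r2 hχ.sm hχ.zero
  obtain ⟨K, hK, h₃⟩ := js_low 0 C
  obtain ⟨δ, hδ, hδ'⟩ : ∃ δ : ℝ, 0 < δ ∧ 32 * A * (δ * K) ≤ 1 := ⟨(32 * A * (K + 1))⁻¹, by positivity, by
    rw [mul_comm _ K, ← mul_assoc, ← div_eq_mul_inv, div_le_one (by positivity)]
    nlinarith⟩
  refine ⟨32 * A * (δ * K + δ⁻¹ + 2) + 1, by positivity, fun G h μ hG hμ hh => ?_⟩
  obtain ⟨F, hF⟩ : ∃ F : Fin 4 → Fin 4 → Fn, ∀ i j,
    F i j = fun y => χ y ^ 2 * ∑ l, pd l (fun z => h z i j) y ^ 2 := ⟨_, fun _ _ => rfl⟩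
  have sF : ∀ i j, IntegrableOn (F i j) (Q r') := fun i j => So.intOn fun y hy => by
    rw [hF]
    exact (hχ.sm.contDiffAt.pow 2).mul (ContDiffAt.sum fun l _ => (at_pd (hh i j y hy) l).pow 2)
  have sS : IntegrableOn (fun y => ∑ i, ∑ j, F i j y) (Q r') :=
    integrable_finsetSum _ fun i _ => integrable_finsetSum _ fun j _ => sF i j
  have eX : ∫ y in Q r', ∑ i, ∑ j, F i j y = ∑ i, ∑ j, ∫ y in Q r', F i j y := by
    rw [integral_finsetSum _ fun i _ => integrable_finsetSum _ fun j _ => sF i j]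
    exact Finset.sum_congr rfl fun i _ => integral_finsetSum _ fun j _ => sF i j
  have hP := (hG.pop μ hh).ih
  have H0 := hsM_nonneg 0 (Q r') h
  have P0 := hsM_nonneg 0 (Q r') (Pop μ G h)
  have k1 : ∀ i j, ∫ y in Q r', F i j y ≤ A * (δ * K * (∑ i, ∑ j, ∫ y in Q r', F i j y) +
      (δ * K + δ⁻¹ + 2) * hsM 0 (Q r') h + hsM 0 (Q r') (Pop μ G h)) := fun i j => by
    have a1 := h₂ (inv G) _ ((h₁ _ G hG).mono one_le_two subset_rfl le_rfl) (hh i j)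
    rw [← hF] at a1
    refine a1.trans (mul_le_mul_of_nonneg_left ?_ hA.le)
    have a2 : ∫ y in Q r', χ y ^ 2 * |h y i j * LA (inv G) (fun z => h z i j) y| ≤
        ∫ y in Q r', (δ * K * ∑ i, ∑ j, F i j y + (δ * K + δ⁻¹ + 1) * jsM 0 h y +
          jsM 0 (Pop μ G h) y) := by
      refine integral_mono_of_nonneg (Eventually.of_forall fun y => by positivity)
        (((sS.const_mul _).add ((hh.ih.int 0).const_mul _)).add (hP.int 0))
        ((ae_restrict_iff' (meas_Q r')).2 (Eventually.of_forall fun y hy => ?_))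
      have b1 := (h₃ _ G h μ y hG hμ (Q_sub_Kc _ hy) (fun i j => hh i j y (Q_sub_Kc _ hy)) i j).2
      have b2 : jsM (0 + 1) h y = jsM 0 h y + ∑ i, ∑ j, ∑ l, pd l (fun z => h z i j) y ^ 2 := by
        simp only [jsM, js_succ, js_zero, Finset.sum_add_distrib]
      rw [b2] at b1
      have b3 := intM_pt (sq_nonneg (χ y)) (pow_le_one₀ (hχ.nonneg y) (hχ.le_one y)) hδ hK b1
        (intM_sq h y i j) (intM_sq (Pop μ G h) y i j)
      simp only [hF, ← Finset.mul_sum, intM_la μ]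
      exact b3
    have a3 : IntegrableOn (fun y => δ * K * ∑ i, ∑ j, F i j y + (δ * K + δ⁻¹ + 1) * jsM 0 h y)
        (Q r') := (sS.const_mul _).add ((hh.ih.int 0).const_mul _)
    rw [integral_add a3 (hP.int 0),
      integral_add (sS.const_mul _) ((hh.ih.int 0).const_mul _), integral_const_mul,
      integral_const_mul, eX, ← hh.ih.hs_eq, ← hP.hs_eq] at a2
    linarith [hs_le_hsM 0 (Q r') h i j]
  have k2 := intM_le k1
  have F0 : ∀ i j y, 0 ≤ F i j y := fun i j y => by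
    rw [hF]
    positivity
  have X0 : 0 ≤ ∑ i, ∑ j, ∫ y in Q r', F i j y :=
    Finset.sum_nonneg fun i _ => Finset.sum_nonneg fun j _ => integral_nonneg (F0 i j)
  have k3 : hsM 1 (Q r) h ≤ hsM 0 (Q r') h + ∑ i, ∑ j, ∫ y in Q r', F i j y := by
    simp only [hsM, ← Finset.sum_add_distrib]
    refine Finset.sum_le_sum fun i _ => Finset.sum_le_sum fun j _ => ?_
    have a1 := (hh.ih i j).int_sq.add (sF i j)
    rw [hs_zero, ← integral_add (hh.ih i j).int_sq (sF i j)]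
    refine (((hh.mono (Kc_mono hr.le)).ih i j).hs_le (a1.mono_set (Q_mono hr.le))
      fun y hy => ?_).trans (setIntegral_mono_set a1
        (Eventually.of_forall fun y => add_nonneg (sq_nonneg _) (F0 i j y)) (Q_mono hr.le).eventuallyLE)
    simp only [Pi.add_apply, hF, hχ.one y (Q_sub_Kc r hy), one_pow, one_mul]
    exact le_rfl
  have k4 := mul_le_mul_of_nonneg_right hδ' X0
  have k5 : 0 ≤ A * (δ * K + δ⁻¹ + 1) * hsM 0 (Q r') (Pop μ G h) := by positivity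
  nlinarith

/-- `ints` for every entry with `a = inv G`, `LA (inv G) (h i j) = low - Pop`, `IH.hs_sub`,
`hs_low`. -/
theorem intI (k : ℕ) (C : ℝ) {r r' : ℝ} (hr : r < r') : ∃ C', 0 ≤ C' ∧ ∀ (G h : Tn) (μ : ℝ),
    Co (k + 2) (Kc r') C G → |μ| ≤ C → SoM (Kc r') h →
      hsM (k + 2) (Q r) h ≤ C' * (hsM k (Q r') (Pop μ G h) + hsM (k + 1) (Q r') h) := by
  obtain ⟨C₁, h₁⟩ := co_inv (k + 2) C
  obtain ⟨A, hA, h₂⟩ := ints k C₁ hr
  obtain ⟨K, hK, h₃⟩ := hs_low k C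
  refine ⟨16 * (A * (2 * K + 3)), by positivity, fun G h μ hG hμ hh => ?_⟩
  rw [mul_assoc, mul_assoc]
  refine hsM_le fun i j => (h₂ (inv G) _ ((h₁ _ G hG).mono (by omega) subset_rfl le_rfl)
    (hh i j)).trans (mul_le_mul_of_nonneg_left ?_ hA.le)
  obtain ⟨a1, a2⟩ := h₃ r' G h μ hG hμ hh i j
  have a3 := a1.ih.hs_sub k ((hG.pop μ hh).ih i j)
  rw [← intM_la] at a3
  have a4 := mul_nonneg hK (hsM_nonneg k (Q r') (Pop μ G h))
  linarith [hs_le_hsM k (Q r') (Pop μ G h) i j, hs_le_hsM (k + 1) (Q r') h i j,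
    hsM_nonneg k (Q r') (Pop μ G h), hsM_nonneg (k + 1) (Q r') h]

/-- Induction on `k` for all `r < r'`: `intI` from `r` to the midpoint `r''`, then `caccM` or the
previous case from `r''` to `r'`; `hsM_mono`, `hsM_mono_Q`, `Co.pop`. -/
theorem intJ (k : ℕ) (C : ℝ) {r r' : ℝ} (hr : r < r') : ∃ C', 0 ≤ C' ∧ ∀ (G h : Tn) (μ : ℝ),
    Co (k + 2) (Kc r') C G → |μ| ≤ C → SoM (Kc r') h →
      hsM (k + 2) (Q r) h ≤ C' * (hsM k (Q r') (Pop μ G h) + hsM 0 (Q r') h) := by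
  have step : ∀ (k : ℕ) {r r' : ℝ}, r < r' → (∃ C', 0 ≤ C' ∧ ∀ (G h : Tn) (μ : ℝ),
      Co (k + 2) (Kc r') C G → |μ| ≤ C → SoM (Kc r') h → hsM (k + 1) (Q ((r + r') / 2)) h ≤
        C' * (hsM k (Q r') (Pop μ G h) + hsM 0 (Q r') h)) → ∃ C', 0 ≤ C' ∧ ∀ (G h : Tn) (μ : ℝ),
      Co (k + 2) (Kc r') C G → |μ| ≤ C → SoM (Kc r') h →
        hsM (k + 2) (Q r) h ≤ C' * (hsM k (Q r') (Pop μ G h) + hsM 0 (Q r') h) := by
    rintro k r r' hr ⟨B, hB, h₂⟩
    have r2 : (r + r') / 2 ≤ r' := by linarith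
    obtain ⟨A, hA, h₁⟩ := intI k C (by linarith : r < (r + r') / 2)
    refine ⟨A * (B + 1), by positivity, fun G h μ hG hμ hh => ?_⟩
    rw [mul_assoc]
    refine (h₁ G h μ (hG.mono le_rfl (Kc_mono r2) le_rfl) hμ (hh.mono (Kc_mono r2))).trans
      (mul_le_mul_of_nonneg_left ?_ hA)
    linarith [h₂ G h μ hG hμ hh, hsM_mono_Q r2 (hG.pop μ hh) k, hsM_nonneg 0 (Q r') h]
  induction k generalizing r r' with
  | zero => exact step 0 hr (caccM C (by linarith))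
  | succ k ih =>
    obtain ⟨B, hB, h₂⟩ := ih (by linarith : (r + r') / 2 < r')
    refine step (k + 1) hr ⟨B, hB, fun G h μ hG hμ hh => ?_⟩
    refine (h₂ G h μ (hG.mono (by omega) subset_rfl le_rfl) hμ hh).trans
      (mul_le_mul_of_nonneg_left ?_ hB)
    linarith [hsM_mono (Nat.le_succ k) (Q r') (Pop μ G h)]

/-- Induction on `m` for all `r < r'`: `intJ (2 m)` to the midpoint, the previous case for
`Pop μ G h`, `Finset.sum_range_succ'`, `Function.iterate_succ_apply`. -/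
theorem intK (m : ℕ) (C : ℝ) {r r' : ℝ} (hr : r < r') : ∃ C', 0 ≤ C' ∧ ∀ (G h : Tn) (μ : ℝ),
    Co (2 * m + 2) (Kc r') C G → |μ| ≤ C → SoM (Kc r') h →
      hsM (2 * m) (Q r) h ≤
        C' * ∑ j ∈ Finset.range (m + 1), hsM 0 (Q r') ((Pop μ G)^[j] h) := by
  induction m generalizing r r' with
  | zero =>
    refine ⟨1, zero_le_one, fun G h μ _ _ hh => ?_⟩
    simpa using hsM_mono_Q hr.le hh 0
  | succ m ih =>
    have r2 : (r + r') / 2 < r' := by linarith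
    obtain ⟨B, hB, h₂⟩ := ih r2
    obtain ⟨A, hA, h₁⟩ := intJ (2 * m) C (by linarith : r < (r + r') / 2)
    refine ⟨A * (B + 1), by positivity, fun G h μ hG hμ hh => ?_⟩
    have hG' : Co (2 * m + 2) (Kc r') C G := hG.mono (by omega) subset_rfl le_rfl
    rw [mul_assoc, Finset.sum_range_succ']
    refine (h₁ G h μ (hG'.mono le_rfl (Kc_mono r2.le) le_rfl) hμ (hh.mono (Kc_mono r2.le))).trans
      (mul_le_mul_of_nonneg_left ?_ hA)
    have a1 := h₂ G _ μ hG' hμ (hG.pop μ hh)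
    have a2 : 0 ≤ ∑ j ∈ Finset.range (m + 1), hsM 0 (Q r') ((Pop μ G)^[j] (Pop μ G h)) :=
      Finset.sum_nonneg fun _ _ => hsM_nonneg _ _ _
    have a3 := mul_nonneg hB (hsM_nonneg 0 (Q r') h)
    simp only [Function.iterate_succ_apply, Function.iterate_zero_apply]
    linarith [hsM_mono_Q r2.le hh 0]

end Pool.Agent.Lib.MP_94aef8_gt.D
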