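import Pool.Agent.Lib.MP_94aef8_gt.D.Base

/-! The sum of the squares of the derivatives at a point. -/

open scoped ContDiff Topology
open Filter Set MeasureTheory Matrix

namespace Pool.Agent.Lib.MP_94aef8_gt.D

/-- The sum of the squares of all derivatives of order at most `j` at a point. -/
noncomputable def js : ℕ → Fn → E4 → ℝ
  | 0, f, y => f y ^ 2
  | j + 1, f, y => f y ^ 2 + ∑ i, js j (pd i f) y

/-- The same for a field of matrices. -/
noncomputable def jsM (j : ℕ) (h : Tn) (y : E4) : ℝ := ∑ a, ∑ b, js j (fun z => h z a b) y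

variable {f g : Fn} {y : E4} {j k : ℕ}

theorem js_zero (f : Fn) (y : E4) : js 0 f y = f y ^ 2 := rfl

theorem js_succ (j : ℕ) (f : Fn) (y : E4) :
    js (j + 1) f y = f y ^ 2 + ∑ i, js j (pd i f) y := rfl

theorem js_nonneg (j : ℕ) (f : Fn) (y : E4) : 0 ≤ js j f y := by
  induction j generalizing f with
  | zero => exact sq_nonneg _
  | succ j ih => exact add_nonneg (sq_nonneg _) (Finset.sum_nonneg fun i _ => ih _)

theorem js_congr (j : ℕ) (e : f =ᶠ[𝓝 y] g) : js j f y = js j g y := by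
  induction j generalizing f g with
  | zero => simp only [js, e.eq_of_nhds]
  | succ j ih =>
    simp only [js, e.eq_of_nhds]
    exact congrArg _ (Finset.sum_congr rfl fun i _ => ih (pd_congr e i))

theorem js_le_succ (j : ℕ) (f : Fn) (y : E4) : js j f y ≤ js (j + 1) f y := by
  induction j generalizing f with
  | zero => exact le_add_of_nonneg_right (Finset.sum_nonneg fun i _ => js_nonneg _ _ _)
  | succ j ih => exact add_le_add le_rfl (Finset.sum_le_sum fun i _ => ih _)

theorem js_mono (h : j ≤ k) (f : Fn) (y : E4) : js j f y ≤ js k f y := by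
  induction h with
  | refl => exact le_rfl
  | step _ ih => exact ih.trans (js_le_succ _ _ _)

theorem sq_le_js (j : ℕ) (f : Fn) (y : E4) : f y ^ 2 ≤ js j f y := js_mono (Nat.zero_le j) f y

theorem js_sum_pd (j : ℕ) (f : Fn) (y : E4) : ∑ i, js j (pd i f) y ≤ js (j + 1) f y :=
  le_add_of_nonneg_left (sq_nonneg _)

theorem js_pd (j : ℕ) (f : Fn) (y : E4) (i : Fin 4) : js j (pd i f) y ≤ js (j + 1) f y :=
  (Finset.single_le_sum (f := fun i => js j (pd i f) y) (fun _ _ => js_nonneg _ _ _)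
    (Finset.mem_univ i)).trans (js_sum_pd j f y)

theorem js_pd2 (j : ℕ) (f : Fn) (y : E4) (a b : Fin 4) :
    js j (pd a (pd b f)) y ≤ js (j + 2) f y := (js_pd _ _ _ _).trans (js_pd _ _ _ _)

theorem js_pdw (j : ℕ) (f : Fn) (y : E4) (w : List (Fin 4)) :
    js j (pdw w f) y ≤ js (j + w.length) f y := by
  induction w generalizing j with
  | nil => exact le_rfl
  | cons i w ih =>
    refine (js_pd j _ y i).trans ((ih (j + 1)).trans (le_of_eq ?_))
    rw [List.length_cons, add_assoc, add_comm 1]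

theorem pdw_sq_le {w : List (Fin 4)} (h : w.length ≤ j) (f : Fn) (y : E4) :
    pdw w f y ^ 2 ≤ js j f y :=
  (js_pdw 0 f y w).trans (js_mono (by omega) f y)

theorem js_smul (j : ℕ) (c : ℝ) (f : Fn) (y : E4) : js j (c • f) y = c ^ 2 * js j f y := by
  induction j generalizing f with
  | zero => simp only [js, Pi.smul_apply, smul_eq_mul, mul_pow]
  | succ j ih =>
    simp only [js, pd_smul, ih, Pi.smul_apply, smul_eq_mul, mul_pow, mul_add, Finset.mul_sum]

theorem js_neg (j : ℕ) (f : Fn) (y : E4) : js j (-f) y = js j f y := by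
  rw [← neg_one_smul ℝ f, js_smul]
  ring

theorem js_zero_fn (j : ℕ) (y : E4) : js j (0 : Fn) y = 0 := by
  rw [← zero_smul ℝ (0 : Fn), js_smul]
  ring

theorem js_const (j : ℕ) (c : ℝ) (y : E4) : js j (fun _ => c) y = c ^ 2 := by
  cases j with
  | zero => rfl
  | succ j => simp only [js, pd_const, js_zero_fn, Finset.sum_const_zero, add_zero]

theorem js_ev_zero (j : ℕ) (e : f =ᶠ[𝓝 y] 0) : js j f y = 0 := by
  rw [js_congr j e, js_zero_fn]

theorem js_add_le {t : ℝ} (ht : 0 < t) (j : ℕ) (hf : At f y) (hg : At g y) :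
    js j (f + g) y ≤ (1 + t) * js j f y + (1 + t⁻¹) * js j g y := by
  have h0 : ∀ a b : ℝ, (a + b) ^ 2 ≤ (1 + t) * a ^ 2 + (1 + t⁻¹) * b ^ 2 := fun a b => by
    have e : t * t⁻¹ = 1 := mul_inv_cancel₀ ht.ne'
    have := mul_nonneg (inv_pos.2 ht).le (sq_nonneg (t * a - b))
    nlinarith
  induction j generalizing f g with
  | zero => exact h0 _ _
  | succ j ih =>
    have h1 : ∀ i, js j (pd i (f + g)) y ≤
        (1 + t) * js j (pd i f) y + (1 + t⁻¹) * js j (pd i g) y := fun i => by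
      rw [js_congr j (pd_add_ev hf hg i)]
      exact ih (at_pd hf i) (at_pd hg i)
    have h2 := Finset.sum_le_sum fun i (_ : i ∈ Finset.univ) => h1 i
    have h3 := h0 (f y) (g y)
    simp only [js, Finset.sum_add_distrib, ← Finset.mul_sum, Pi.add_apply] at h2 ⊢
    linarith

theorem js_add (j : ℕ) (hf : At f y) (hg : At g y) :
    js j (f + g) y ≤ 2 * js j f y + 2 * js j g y := by
  have := js_add_le one_pos j hf hg
  norm_num at this
  exact this

theorem js_sub (j : ℕ) (hf : At f y) (hg : At g y) :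
    js j (f - g) y ≤ 2 * js j f y + 2 * js j g y := by
  rw [sub_eq_add_neg, ← js_neg j g]
  exact js_add j hf hg.neg

theorem js_sum {ι : Type} (s : Finset ι) {F : ι → Fn} (j : ℕ) (h : ∀ i ∈ s, At (F i) y) :
    js j (∑ i ∈ s, F i) y ≤ s.card * ∑ i ∈ s, js j (F i) y := by
  have h0 : ∀ F : ι → Fn, (∑ i ∈ s, F i) y ^ 2 ≤ s.card * ∑ i ∈ s, F i y ^ 2 := fun F => by
    rw [Finset.sum_apply]
    exact sq_sum_le_card_mul_sum_sq
  induction j generalizing F with
  | zero => exact h0 F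
  | succ j ih =>
    have h1 : ∀ a, js j (pd a (∑ i ∈ s, F i)) y ≤ s.card * ∑ i ∈ s, js j (pd a (F i)) y :=
      fun a => by
        rw [js_congr j (pd_sum_ev s h a)]
        exact ih fun i hi => at_pd (h i hi) a
    have h2 := Finset.sum_le_sum fun a (_ : a ∈ Finset.univ) => h1 a
    rw [← Finset.mul_sum, Finset.sum_comm] at h2
    have h3 := h0 F
    simp only [js, Finset.sum_add_distrib, mul_add]
    linarith

theorem js_sum4 {F : Fin 4 → Fn} (j : ℕ) (h : ∀ i, At (F i) y) :
    js j (∑ i, F i) y ≤ 4 * ∑ i, js j (F i) y := by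
  simpa using js_sum Finset.univ j fun i _ => h i

theorem js_sum16 {F : Fin 4 → Fin 4 → Fn} (j : ℕ) (h : ∀ a b, At (F a b) y) :
    js j (∑ a, ∑ b, F a b) y ≤ 16 * ∑ a, ∑ b, js j (F a b) y := by
  have h1 := js_sum4 (F := fun a => ∑ b, F a b) j fun a => at_sum _ fun b _ => h a b
  have h2 := Finset.sum_le_sum fun a (_ : a ∈ Finset.univ) => js_sum4 j (h a)
  rw [← Finset.mul_sum] at h2
  linarith

theorem js_mul (j : ℕ) (hf : At f y) (hg : At g y) :
    js j (f * g) y ≤ 5 ^ j * (js j f y * js j g y) := by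
  induction j generalizing f g with
  | zero => simp only [js, Pi.mul_apply, mul_pow, pow_zero, one_mul, le_refl]
  | succ j ih =>
    have h1 : ∀ i, js j (pd i (f * g)) y ≤ 2 * 5 ^ j * js j g y * js j (pd i f) y +
        2 * 5 ^ j * js j f y * js j (pd i g) y := fun i => by
      rw [js_congr j (pd_mul_ev hf hg i)]
      have a1 := js_add j ((at_pd hf i).mul hg) (hf.mul (at_pd hg i))
      have a2 := ih (at_pd hf i) hg
      have a3 := ih hf (at_pd hg i)
      change js j (pd i f * g + f * pd i g) y ≤ 2 * js j (pd i f * g) y + 2 * js j (f * pd i g) y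
        at a1
      linarith
    have h2 := Finset.sum_le_sum fun i (_ : i ∈ Finset.univ) => h1 i
    rw [Finset.sum_add_distrib, ← Finset.mul_sum, ← Finset.mul_sum] at h2
    have p5 : (1 : ℝ) ≤ 5 ^ j := one_le_pow₀ (by norm_num)
    have b1 : js j g y * ∑ i, js j (pd i f) y ≤ js (j + 1) f y * js (j + 1) g y := by
      rw [mul_comm]
      exact mul_le_mul (js_sum_pd j f y) (js_le_succ j g y) (js_nonneg _ _ _) (js_nonneg _ _ _)
    have b2 : js j f y * ∑ i, js j (pd i g) y ≤ js (j + 1) f y * js (j + 1) g y :=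
      mul_le_mul (js_le_succ j f y) (js_sum_pd j g y)
        (Finset.sum_nonneg fun _ _ => js_nonneg _ _ _) (js_nonneg _ _ _)
    have b3 : (f * g) y ^ 2 ≤ js (j + 1) f y * js (j + 1) g y := by
      rw [Pi.mul_apply, mul_pow]
      exact mul_le_mul (sq_le_js _ f y) (sq_le_js _ g y) (sq_nonneg _) (js_nonneg _ _ _)
    have b4 := mul_nonneg (js_nonneg (j + 1) f y) (js_nonneg (j + 1) g y)
    have c1 := mul_le_mul_of_nonneg_left b1 (zero_le_one.trans p5)
    have c2 := mul_le_mul_of_nonneg_left b2 (zero_le_one.trans p5)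
    have c3 := mul_le_mul_of_nonneg_right p5 b4
    rw [js_succ j (f * g), pow_succ (5 : ℝ) j]
    linarith

theorem js_mul_le {B : ℝ} (j : ℕ) (hf : At f y) (hg : At g y) (hB : js j f y ≤ B) :
    js j (f * g) y ≤ 5 ^ j * B * js j g y := by
  refine (js_mul j hf hg).trans ?_
  rw [mul_assoc]
  exact mul_le_mul_of_nonneg_left (mul_le_mul_of_nonneg_right hB (js_nonneg _ _ _))
    (by positivity)

theorem js_le_of_words {B : ℝ} (j : ℕ) (h : ∀ w : List (Fin 4), w.length ≤ j → |pdw w f y| ≤ B) :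
    js j f y ≤ 5 ^ j * B ^ 2 := by
  have h0 : ∀ {f : Fn}, |f y| ≤ B → f y ^ 2 ≤ B ^ 2 := fun h => by
    rw [← sq_abs]
    exact pow_le_pow_left₀ (abs_nonneg _) h 2
  induction j generalizing f with
  | zero => simpa [js, pdw] using h0 (h [] le_rfl)
  | succ j ih =>
    have h1 : ∀ i, js j (pd i f) y ≤ 5 ^ j * B ^ 2 := fun i => ih fun w hw => by
      rw [← pdw_concat]
      exact h _ (by simpa using hw)
    have h2 := Finset.sum_le_sum fun i (_ : i ∈ Finset.univ) => h1 i
    have h3 : f y ^ 2 ≤ B ^ 2 := h0 (h [] (by simp))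
    have p5 : (1 : ℝ) ≤ 5 ^ j := one_le_pow₀ (by norm_num)
    simp only [Finset.sum_const, Finset.card_univ, Fintype.card_fin, nsmul_eq_mul] at h2
    have c3 := mul_le_mul_of_nonneg_right p5 (sq_nonneg B)
    rw [js_succ, pow_succ (5 : ℝ) j]
    push_cast at h2
    linarith

theorem cb_js {S : Set E4} {B : ℝ} (h : Cb j S f B) (hy : y ∈ S) : js j f y ≤ 5 ^ j * B ^ 2 :=
  js_le_of_words j fun w hw => h w hw y hy

theorem cb_of_js {S : Set E4} {B : ℝ} (h : ∀ y ∈ S, js j f y ≤ B) : Cb j S f √B :=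
  fun _ hw y hy => Real.abs_le_sqrt ((pdw_sq_le hw f y).trans (h y hy))

theorem at_js (j : ℕ) (hf : At f y) : At (js j f) y := by
  induction j generalizing f with
  | zero => exact hf.pow 2
  | succ j ih => exact (hf.pow 2).add (ContDiffAt.sum fun i _ => ih (at_pd hf i))

theorem So.js {S : Set E4} (hf : So S f) (j : ℕ) : So S (js j f) := fun y hy => at_js j (hf y hy)

theorem So.bdd {K : Set E4} (hK : IsCompact K) (hf : So K f) (j : ℕ) :
    ∃ B, 0 ≤ B ∧ ∀ y ∈ K, D.js j f y ≤ B := by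
  obtain ⟨B, hB⟩ := hK.bddAbove_image (hf.js j).cont
  exact ⟨max B 0, le_max_right _ _, fun y hy => (hB ⟨y, hy, rfl⟩).trans (le_max_left _ _)⟩

theorem cs_bdd (hf : ContDiff ℝ ∞ f) (hc : HasCompactSupport f) (j : ℕ) :
    ∃ B, 0 ≤ B ∧ ∀ y, js j f y ≤ B := by
  obtain ⟨B, h0, hB⟩ := (so_of_sm hf _).bdd hc j
  refine ⟨B, h0, fun y => ?_⟩
  by_cases hy : y ∈ tsupport f
  · exact hB y hy
  · rw [js_ev_zero j (notMem_tsupport_iff_eventuallyEq.1 hy)]
    exact h0

theorem jsM_nonneg (j : ℕ) (h : Tn) (y : E4) : 0 ≤ jsM j h y :=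
  Finset.sum_nonneg fun _ _ => Finset.sum_nonneg fun _ _ => js_nonneg _ _ _

theorem js_le_jsM (j : ℕ) (h : Tn) (y : E4) (a b : Fin 4) :
    js j (fun z => h z a b) y ≤ jsM j h y :=
  (Finset.single_le_sum (f := fun b => js j (fun z => h z a b) y) (fun _ _ => js_nonneg _ _ _)
    (Finset.mem_univ b)).trans (Finset.single_le_sum
      (f := fun a => ∑ b, js j (fun z => h z a b) y)
      (fun _ _ => Finset.sum_nonneg fun _ _ => js_nonneg _ _ _) (Finset.mem_univ a))

theorem jsM_mono (hj : j ≤ k) (h : Tn) (y : E4) : jsM j h y ≤ jsM k h y :=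
  Finset.sum_le_sum fun _ _ => Finset.sum_le_sum fun _ _ => js_mono hj _ _

theorem jsM_le {B : ℝ} {h : Tn} (hB : ∀ a b, js j (fun z => h z a b) y ≤ B) :
    jsM j h y ≤ 16 * B := by
  have h1 : jsM j h y ≤ ∑ _a : Fin 4, ∑ _b : Fin 4, B :=
    Finset.sum_le_sum fun a _ => Finset.sum_le_sum fun b _ => hB a b
  simp only [Finset.sum_const, Finset.card_univ, Fintype.card_fin, nsmul_eq_mul] at h1
  norm_num at h1
  linarith

end Pool.Agent.Lib.MP_94aef8_gt.D
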