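import Pool.Agent.Lib.MP_94aef8_gt.D.Js

/-! Limits of functions with bounded derivatives. -/

open scoped ContDiff Topology
open Filter Set MeasureTheory Matrix

namespace Pool.Agent.Lib.MP_94aef8_gt.D

theorem lim_abs_sum (v : E4) {a : Fin 4 → ℝ} {B : ℝ} (h : ∀ i, |a i| ≤ B) :
    |∑ i, v i * a i| ≤ 4 * B * ‖v‖ := by
  have h1 : ∀ i, |v i * a i| ≤ B * ‖v‖ := fun i => by
    rw [abs_mul, mul_comm]
    exact mul_le_mul (h i) (PiLp.norm_apply_le v i) (abs_nonneg _) ((abs_nonneg _).trans (h i))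
  refine (Finset.abs_sum_le_sum_abs _ _).trans ?_
  rw [Fin.sum_univ_four]
  linarith [h1 0, h1 1, h1 2, h1 3]

/-- On a ball where `f` is `C^1` with `|pd i f| ≤ B`, `f` is Lipschitz (`fderiv_eq_sum`,
`Convex.norm_image_sub_le_of_norm_fderiv_le`). -/
theorem lim_lip {f : Fn} {x : E4} {ρ B : ℝ} (hf : DifferentiableOn ℝ f (Metric.ball x ρ))
    (hB : ∀ i, ∀ y ∈ Metric.ball x ρ, |pd i f y| ≤ B) {y z : E4} (hy : y ∈ Metric.ball x ρ)
    (hz : z ∈ Metric.ball x ρ) : |f z - f y| ≤ 4 * B * ‖z - y‖ := by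
  have h0 : 0 ≤ B := (abs_nonneg _).trans (hB 0 y hy)
  refine (convex_ball x ρ).norm_image_sub_le_of_norm_fderiv_le (𝕜 := ℝ)
    (fun p hp => hf.differentiableAt (Metric.isOpen_ball.mem_nhds hp)) (fun p hp => ?_) hy hz
  refine ContinuousLinearMap.opNorm_le_bound _ (by positivity) fun v => ?_
  rw [fderiv_eq_sum]
  exact lim_abs_sum v fun i => hB i p hp

/-- Apply the mean value inequality to `z ↦ f z - ∑ i, z i * pd i f y` on the segment from `y`
to `z`, with `lim_lip` for `pd i f`. -/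
theorem lim_taylor {f : Fn} {x : E4} {ρ B : ℝ} (hf : DifferentiableOn ℝ f (Metric.ball x ρ))
    (hf' : ∀ i, DifferentiableOn ℝ (pd i f) (Metric.ball x ρ))
    (hB : ∀ i j, ∀ y ∈ Metric.ball x ρ, |pd i (pd j f) y| ≤ B) {y z : E4}
    (hy : y ∈ Metric.ball x ρ) (hz : z ∈ Metric.ball x ρ) :
    |f z - f y - ∑ i, (z i - y i) * pd i f y| ≤ 16 * B * ‖z - y‖ ^ 2 := by
  have h0 : 0 ≤ B := (abs_nonneg _).trans (hB 0 0 y hy)
  have hs : segment ℝ y z ⊆ Metric.ball x ρ := (convex_ball x ρ).segment_subset hy hz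
  have hn : ∀ p ∈ segment ℝ y z, ‖p - y‖ ≤ ‖z - y‖ := fun p hp => by
    have := dist_add_dist_of_mem_segment hp
    rw [dist_comm y p, dist_comm y z, dist_eq_norm, dist_eq_norm z y] at this
    linarith [dist_nonneg (x := p) (y := z)]
  have h1 := (convex_segment y z).norm_image_sub_le_of_norm_fderiv_le' (𝕜 := ℝ) (f := f)
    (φ := fderiv ℝ f y) (C := 4 * (4 * B * ‖z - y‖))
    (fun p hp => hf.differentiableAt (Metric.isOpen_ball.mem_nhds (hs hp))) (fun p hp => ?_)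
    (left_mem_segment ℝ y z) (right_mem_segment ℝ y z)
  · rw [fderiv_eq_sum, Real.norm_eq_abs] at h1
    simp only [PiLp.sub_apply] at h1
    refine h1.trans (le_of_eq ?_)
    ring
  · refine ContinuousLinearMap.opNorm_le_bound _ (by positivity) fun v => ?_
    rw [_root_.sub_apply, fderiv_eq_sum, fderiv_eq_sum, ← Finset.sum_sub_distrib]
    simp only [← mul_sub]
    refine lim_abs_sum v fun i => ?_
    refine (lim_lip (hf' i) (fun j q hq => hB j i q hq) hy (hs hp)).trans ?_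
    exact mul_le_mul_of_nonneg_left (hn p hp) (by positivity)

theorem lim_pdw {f : Fn} {U : Set E4} (hU : IsOpen U) {n : ℕ} (w : List (Fin 4))
    (hf : ContDiffOn ℝ ((n + w.length : ℕ) : ℕ∞) f U) : ContDiffOn ℝ (n : ℕ∞) (pdw w f) U := by
  induction w generalizing n with
  | nil => exact hf
  | cons i w ih =>
    have e : n + (i :: w).length = n + 1 + w.length := by
      rw [List.length_cons]
      ring
    rw [e] at hf
    have h1 : ContDiffOn ℝ (n : ℕ∞) (fderiv ℝ (pdw w f)) U :=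
      (ih hf).fderiv_of_isOpen hU (by exact_mod_cast le_rfl)
    exact h1.clm_apply contDiffOn_const

/-- A family `H w` of continuous functions such that `H w` has the coordinate derivatives
`H (i :: w)`. Induction on `n` for `ContDiffOn ℝ n (H w) U` when `w.length + n ≤ m`
(`contDiffOn_succ_iff_fderiv_of_isOpen`), and on `w` for the second part (`pd_congr_on`). -/
theorem lim_jets {U : Set E4} (hU : IsOpen U) (m : ℕ) (H : List (Fin 4) → Fn)
    (hc : ∀ w, w.length ≤ m → ContinuousOn (H w) U)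
    (hd : ∀ w, w.length < m → ∀ y ∈ U, HasFDerivAt (H w)
      (∑ i, H (i :: w) y • (EuclideanSpace.proj i : E4 →L[ℝ] ℝ)) y) :
    ContDiffOn ℝ (m : ℕ∞) (H []) U ∧ ∀ w, w.length ≤ m → EqOn (pdw w (H [])) (H w) U := by
  have h1 : ∀ n : ℕ, ∀ w : List (Fin 4), w.length + n ≤ m → ContDiffOn ℝ (n : ℕ∞) (H w) U := by
    intro n
    induction n with
    | zero =>
      intro w hw
      exact contDiffOn_zero.2 (hc w hw)
    | succ n ih =>
      intro w hw
      have e : (((n + 1 : ℕ) : ℕ∞) : WithTop ℕ∞) = ((n : ℕ∞) : WithTop ℕ∞) + 1 := by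
        norm_cast
      rw [e, contDiffOn_succ_iff_fderiv_of_isOpen hU]
      refine ⟨fun y hy => (hd w (by omega) y hy).differentiableAt.differentiableWithinAt,
        fun h => absurd h (by simp), ?_⟩
      refine ContDiffOn.congr (f := fun y => ∑ i, H (i :: w) y •
        (EuclideanSpace.proj i : E4 →L[ℝ] ℝ)) ?_ fun y hy => (hd w (by omega) y hy).fderiv
      exact ContDiffOn.sum fun i _ =>
        (ih (i :: w) (by rw [List.length_cons]; omega)).smul contDiffOn_const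
  refine ⟨h1 m [] (by simp), fun w => ?_⟩
  induction w with
  | nil => exact fun _ _ _ => rfl
  | cons i w ih =>
    intro hw y hy
    rw [List.length_cons] at hw
    have h2 := pd_congr_on hU (ih (by omega)) i hy
    change pd i (pdw w (H [])) y = _
    rw [h2, pd, (hd w (by omega) y hy).fderiv]
    simp [bas]

theorem lim_conv2 {ι : Type} (l : Ultrafilter ι) {a : ι → ℝ} {B : ℝ}
    (h : ∀ᶠ i in (l : Filter ι), |a i| ≤ B) : Tendsto a l (𝓝 (limUnder (l : Filter ι) a)) := by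
  have h1 : ((l.map a : Ultrafilter ℝ) : Filter ℝ) ≤ 𝓟 (Icc (-B) B) :=
    le_principal_iff.2 (h.mono fun i hi => abs_le.1 hi)
  obtain ⟨x, -, hx⟩ := isCompact_Icc.ultrafilter_le_nhds (l.map a) h1
  exact tendsto_nhds_limUnder ⟨x, hx⟩

theorem lim_diff2 {f : Fn} {V : Set E4} (hV : IsOpen V) {m : ℕ}
    (hf : ContDiffOn ℝ ((m + 1 : ℕ) : ℕ∞) f V) {w : List (Fin 4)} (hw : w.length ≤ m) :
    DifferentiableOn ℝ (pdw w f) V := by
  have h1 : ContDiffOn ℝ ((1 + w.length : ℕ) : ℕ∞) f V :=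
    hf.of_le (WithTop.coe_le_coe.2 (Nat.cast_le.2 (by omega)))
  exact (lim_pdw hV w h1).differentiableOn (by simp)

/-- Put `H w y = limUnder l fun i => pdw w (u i) y`; bounded families converge along an ultrafilter
(`IsCompact.ultrafilter_le_nhds` for `Icc (-B) B`). The bounds `lim_lip` and `lim_taylor` on a
ball inside `V` pass to the pointwise limit (`le_of_tendsto`); use `lim_jets`. -/
theorem limU {ι : Type} (l : Ultrafilter ι) {U : Set E4} (hU : IsOpen U) (m : ℕ) (u : ι → Fn)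
    (hb : ∀ x ∈ U, ∃ V ∈ 𝓝 x, ∃ B, ∀ᶠ i in (l : Filter ι),
      ContDiffOn ℝ ((m + 1 : ℕ) : ℕ∞) (u i) V ∧ Cb (m + 1) V (u i) B) :
    ∃ H : Fn, ContDiffOn ℝ (m : ℕ∞) H U ∧ ∀ w : List (Fin 4), w.length ≤ m → ∀ y ∈ U,
      Tendsto (fun i => pdw w (u i) y) l (𝓝 (pdw w H y)) := by
  have hl : ∀ x ∈ U, ∃ ρ > 0, Metric.ball x ρ ⊆ U ∧ ∃ B, ∀ᶠ i in (l : Filter ι),
      ContDiffOn ℝ ((m + 1 : ℕ) : ℕ∞) (u i) (Metric.ball x ρ) ∧
        Cb (m + 1) (Metric.ball x ρ) (u i) B := by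
    intro x hx
    obtain ⟨V, hV, B, hB⟩ := hb x hx
    obtain ⟨ρ, hρ, h⟩ := Metric.mem_nhds_iff.1 (inter_mem hV (hU.mem_nhds hx))
    exact ⟨ρ, hρ, fun y hy => (h hy).2, B, hB.mono fun i hi =>
      ⟨hi.1.mono fun y hy => (h hy).1, fun w hw y hy => hi.2 w hw y (h hy).1⟩⟩
  let H : List (Fin 4) → Fn := fun w y => limUnder (l : Filter ι) fun i => pdw w (u i) y
  have hc : ∀ w : List (Fin 4), w.length ≤ m + 1 → ∀ y ∈ U,
      Tendsto (fun i => pdw w (u i) y) l (𝓝 (H w y)) := by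
    intro w hw y hy
    obtain ⟨ρ, hρ, -, B, hB⟩ := hl y hy
    exact lim_conv2 l (hB.mono fun i hi => hi.2 w hw y (Metric.mem_ball_self hρ))
  have h1 : ∀ w : List (Fin 4), w.length ≤ m → ContinuousOn (H w) U := by
    intro w hw x hx
    obtain ⟨ρ, hρ, hs, B, hB⟩ := hl x hx
    refine ContinuousAt.continuousWithinAt ?_
    have h2 : ∀ᶠ z in 𝓝 x, ‖H w z - H w x‖ ≤ 4 * B * ‖z - x‖ := by
      filter_upwards [Metric.ball_mem_nhds x hρ] with z hz
      refine le_of_tendsto ((hc w (by omega) z (hs hz)).sub (hc w (by omega) x hx)).abs ?_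
      exact hB.mono fun i hi => lim_lip (lim_diff2 Metric.isOpen_ball hi.1 hw)
        (fun j y hy => hi.2 (j :: w) (by rw [List.length_cons]; omega) y hy)
        (Metric.mem_ball_self hρ) hz
    have h3 : Tendsto (fun z : E4 => 4 * B * ‖z - x‖) (𝓝 x) (𝓝 0) := by
      have h4 : Continuous fun z : E4 => 4 * B * ‖z - x‖ := by fun_prop
      simpa using h4.tendsto x
    exact tendsto_sub_nhds_zero_iff.1 (squeeze_zero_norm' h2 h3)
  have h2 : ∀ w : List (Fin 4), w.length < m → ∀ x ∈ U, HasFDerivAt (H w)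
      (∑ i, H (i :: w) x • (EuclideanSpace.proj i : E4 →L[ℝ] ℝ)) x := by
    intro w hw x hx
    obtain ⟨ρ, hρ, hs, B, hB⟩ := hl x hx
    refine hasFDerivAt_iff_isLittleO.2
      (Asymptotics.IsBigO.trans_isLittleO (g := fun z : E4 => ‖z - x‖ ^ 2)
        (Asymptotics.IsBigO.of_bound (16 * B) ?_)
        (Asymptotics.isLittleO_pow_sub_sub x one_lt_two))
    filter_upwards [Metric.ball_mem_nhds x hρ] with z hz
    have e : (∑ i, H (i :: w) x • (EuclideanSpace.proj i : E4 →L[ℝ] ℝ)) (z - x) =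
        ∑ i, (z i - x i) * H (i :: w) x := by
      simp [mul_comm]
    rw [e, Real.norm_eq_abs, Real.norm_of_nonneg (sq_nonneg _)]
    refine le_of_tendsto (((hc w (by omega) z (hs hz)).sub (hc w (by omega) x hx)).sub
      (tendsto_finsetSum Finset.univ fun j _ =>
        (hc (j :: w) (by rw [List.length_cons]; omega) x hx).const_mul (z j - x j))).abs ?_
    exact hB.mono fun i hi => lim_taylor (lim_diff2 Metric.isOpen_ball hi.1 hw.le)
      (fun j => lim_diff2 Metric.isOpen_ball hi.1 (w := j :: w) hw)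
      (fun j k y hy => hi.2 (j :: k :: w) (by rw [List.length_cons, List.length_cons]; omega) y hy)
      (Metric.mem_ball_self hρ) hz
  obtain ⟨h3, h4⟩ := lim_jets hU m H h1 h2
  refine ⟨H [], h3, fun w hw y hy => ?_⟩
  rw [h4 w hw hy]
  exact hc w (by omega) y hy

/-- `tendsto_iff_ultrafilter`; the function of `limU` agrees with `H` on `U`. -/
theorem limF {ι : Type} (l : Filter ι) [l.NeBot] {U : Set E4} (hU : IsOpen U) (m : ℕ) (u : ι → Fn)
    (H : Fn) (hH : ∀ y ∈ U, Tendsto (fun i => u i y) l (𝓝 (H y)))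
    (hb : ∀ x ∈ U, ∃ V ∈ 𝓝 x, ∃ B, ∀ᶠ i in l,
      ContDiffOn ℝ ((m + 1 : ℕ) : ℕ∞) (u i) V ∧ Cb (m + 1) V (u i) B) :
    ContDiffOn ℝ (m : ℕ∞) H U ∧ ∀ w : List (Fin 4), w.length ≤ m → ∀ y ∈ U,
      Tendsto (fun i => pdw w (u i) y) l (𝓝 (pdw w H y)) := by
  have key : ∀ l' : Ultrafilter ι, (l' : Filter ι) ≤ l → ContDiffOn ℝ (m : ℕ∞) H U ∧
      ∀ w : List (Fin 4), w.length ≤ m → ∀ y ∈ U,
        Tendsto (fun i => pdw w (u i) y) l' (𝓝 (pdw w H y)) := by
    intro l' hl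
    obtain ⟨H', h1, h2⟩ := limU l' hU m u fun x hx => by
      obtain ⟨V, hV, B, hB⟩ := hb x hx
      exact ⟨V, hV, B, hB.filter_mono hl⟩
    have e : EqOn H H' U := fun y hy =>
      tendsto_nhds_unique ((hH y hy).mono_left hl) (h2 [] (Nat.zero_le _) y hy)
    refine ⟨h1.congr e, fun w hw y hy => ?_⟩
    rw [(pdw_congr (e.eventuallyEq_of_mem (hU.mem_nhds hy)) w).eq_of_nhds]
    exact h2 w hw y hy
  exact ⟨(key (Ultrafilter.of l) (Ultrafilter.of_le l)).1, fun w hw y hy =>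
    (tendsto_iff_ultrafilter _ _ _).2 fun l' hl => (key l' hl).2 w hw y hy⟩

theorem limInf {ι : Type} (l : Filter ι) [l.NeBot] {U : Set E4} (hU : IsOpen U) (u : ι → Fn)
    (H : Fn) (hH : ∀ y ∈ U, Tendsto (fun i => u i y) l (𝓝 (H y)))
    (hb : ∀ m, ∀ x ∈ U, ∃ V ∈ 𝓝 x, ∃ B, ∀ᶠ i in l, ContDiffOn ℝ ∞ (u i) V ∧ Cb m V (u i) B) :
    ContDiffOn ℝ ∞ H U ∧ ∀ w : List (Fin 4), ∀ y ∈ U,
      Tendsto (fun i => pdw w (u i) y) l (𝓝 (pdw w H y)) := by
  have key := fun m : ℕ => limF l hU m u H hH fun x hx => by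
    obtain ⟨V, hV, B, hB⟩ := hb (m + 1) x hx
    exact ⟨V, hV, B, hB.mono fun i hi => ⟨hi.1.of_le (WithTop.coe_le_coe.2 le_top), hi.2⟩⟩
  exact ⟨contDiffOn_infty.2 fun m => (key m).1, fun w y hy => (key w.length).2 w le_rfl y hy⟩

/-- Induction on `j` for all families (`pdw_concat`). -/
theorem tendsto_js {ι : Type} {l : Filter ι} {u : ι → Fn} {H : Fn} {y : E4} (j : ℕ)
    (h : ∀ w : List (Fin 4), w.length ≤ j → Tendsto (fun i => pdw w (u i) y) l (𝓝 (pdw w H y))) :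
    Tendsto (fun i => js j (u i) y) l (𝓝 (js j H y)) := by
  induction j generalizing u H with
  | zero => exact (h [] le_rfl).pow 2
  | succ j ih =>
    refine ((h [] (by simp)).pow 2).add (tendsto_finsetSum _ fun a _ => ?_)
    refine ih (u := fun i => pd a (u i)) fun w hw => ?_
    simp only [← pdw_concat]
    exact h _ (by simpa using hw)

theorem pdw_sub {f g : Fn} {y : E4} (hf : At f y) (hg : At g y) (w : List (Fin 4)) :
    pdw w (f - g) =ᶠ[𝓝 y] pdw w f - pdw w g := by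
  induction w with
  | nil => exact EventuallyEq.rfl
  | cons i w ih => exact (pd_congr ih i).trans (pd_sub_ev (at_pdw hf w) (at_pdw hg w) i)

end Pool.Agent.Lib.MP_94aef8_gt.D
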