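import Pool.Agent.Lib.MP_94aef8_gt.D.IntM
import Pool.Agent.Lib.MP_94aef8_gt.D.Boot2
import Pool.Agent.Lib.MP_94aef8_gt.D.Lim

/-! The estimates on cubes. -/

open scoped ContDiff Topology
open Filter Set MeasureTheory Matrix

namespace Pool.Agent.Lib.MP_94aef8_gt

/-- Sobolev embedding on a cube. -/
theorem thmD1 {r : ℝ} (hr : 0 < r) : ∃ C, ∀ (r' : ℝ) (f : Fn), r < r' →
    ContDiffOn ℝ ∞ f (Q r') → ∀ y ∈ Q r, f y ^ 2 ≤ C * hs 4 (Q r) f := by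
  obtain ⟨C, -, h⟩ := D.sob_js 0 hr
  exact ⟨C, fun r' f h1 hf y hy => h f (D.so_Kc h1 hf) y (D.Q_sub_Kc r hy)⟩

/-- Products. -/
theorem thmD2 {r : ℝ} (hr : 0 < r) {l m : ℕ} (hl : l ≤ m) (hm : 7 ≤ m) : ∃ C, ∀ (r' : ℝ)
    (f k : Fn), r < r' → ContDiffOn ℝ ∞ f (Q r') → ContDiffOn ℝ ∞ k (Q r') →
    hs l (Q r) (f * k) ≤ C * hs m (Q r) f * hs l (Q r) k := by
  obtain ⟨C, -, h⟩ := D.hs_mul_gen hr l m l hl le_rfl (by omega)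
  exact ⟨C, fun r' f k h1 hf hk => h f k (D.so_Kc h1 hf) (D.so_Kc h1 hk)⟩

/-- Interior estimate by the powers of `P`. -/
theorem thmD3 (C0 : ℝ) {m : ℕ} (hm : m ≤ 5) {r r' : ℝ} (_hr : 0 < r) (hr' : r < r') (h3 : r' < 3) :
    ∃ C, ∀ (G h : Tn) (μ : ℝ), GoodB C0 G → 0 ≤ μ → μ ≤ 3 → SmT h (Q 3) →
      hsM (2 * m) (Q r) h ≤
        C * ∑ j ∈ Finset.range (m + 1), hsM 0 (Q r') ((Pop μ G)^[j] h) := by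
  obtain ⟨C1, h1, h2⟩ := D.co_of_goodB C0
  obtain ⟨C, -, h⟩ := D.intK m C1 hr'
  exact ⟨C, fun G u μ hG h0 hμ hu => h G u μ ((h2 G hG).mono (by omega) (D.Kc_sub_Q h3) le_rfl)
    (by rw [abs_of_nonneg h0]; linarith) (D.soM_Kc h3 hu)⟩

/-- Second derivatives of a function with compact support. -/
theorem thmD4 (C0 : ℝ) : ∃ C, ∀ (G : Tn) (v : Fn), Good G (Q 3) →
    (∀ y ∈ Q 3, ∀ w : Fin 4 → ℝ, w ⬝ᵥ w ≤ C0 * (w ⬝ᵥ G y *ᵥ w)) → CbM 1 (Q 3) G C0 →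
    ContDiff ℝ ∞ v → HasCompactSupport v → tsupport v ⊆ Q 3 →
    ∑ i, ∑ j, ∫ y, pd i (pd j v) y ^ 2 ≤
      C * ((∫ y, (∑ i, ∑ j, (G y)⁻¹ i j * pd i (pd j v) y) ^ 2) + ∑ i, ∫ y, pd i v y ^ 2) := by
  obtain ⟨C1, -, h1⟩ := D.co_of_cb 1 C0
  obtain ⟨C2, h2⟩ := D.co_inv 1 C1
  obtain ⟨C, -, h⟩ := D.h2 C2
  exact ⟨C, fun G v hG he hb hv hc hs => h (Q 3) (inv G) v (h2 _ G (h1 _ G hG he hb)) hv hc hs⟩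

/-- The operator `P` is bounded by the Sobolev norms. -/
theorem thmD5 (C0 : ℝ) {l : ℕ} (hl : l ≤ 8) {r : ℝ} (_hr : 0 < r) (h3 : r < 3) :
    ∃ C, ∀ (G h : Tn) (μ : ℝ), GoodB C0 G → 0 ≤ μ → μ ≤ 3 → SmT h (Q 3) →
      hsM l (Q r) (Pop μ G h) ≤ C * hsM (l + 2) (Q r) h := by
  obtain ⟨C1, h1, h2⟩ := D.co_of_goodB C0
  obtain ⟨C, -, h⟩ := D.hs_pop l C1
  exact ⟨C, fun G u μ hG h0 hμ hu => h r G u μ ((h2 G hG).mono (by omega) (D.Kc_sub_Q h3) le_rfl)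
    (by rw [abs_of_nonneg h0]; linarith) (D.soM_Kc h3 hu)⟩

/-- Inverses. -/
theorem thmDinv {r : ℝ} (hr : 0 < r) {m : ℕ} (hm : 8 ≤ m) {c : ℝ} (hc : 0 < c) (B : ℝ) :
    ∃ C, ∀ (r' : ℝ) (f : Fn), r < r' → ContDiffOn ℝ ∞ f (Q r') → (∀ y ∈ Q r', c ≤ |f y|) →
      hs m (Q r) f ≤ B → hs m (Q r) (fun z => (f z)⁻¹) ≤ C := by
  obtain ⟨C, -, h⟩ := D.hs_inv_pow hr hm hc B m 1 le_rfl
  refine ⟨C, fun r' f h1 hf h2 h3 => ?_⟩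
  simpa only [pow_one] using h f (D.so_Kc h1 hf) (fun y hy => h2 y (D.Kc_sub_Q h1 hy)) h3

end Pool.Agent.Lib.MP_94aef8_gt
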