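import Pool.Agent.Lib.MP_94aef8_gt.D.Co
import Pool.Agent.Lib.MP_94aef8_gt.D.Mul
import Pool.Agent.Lib.MP_94aef8_gt.F.Cls

/-! Pointwise bounds for the inverse metric and for the operator `Pop`. -/

open scoped ContDiff Topology
open Filter Set MeasureTheory Matrix

namespace Pool.Agent.Lib.MP_94aef8_gt.D

/-- Families of functions with uniform pointwise bounds by powers of a weight. The fields follow
from `js_congr`, `js_const`, `js_add`, `js_neg`, `js_mul`, `js_mono`, `js_pd`. -/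
noncomputable def pw {α : Type} (pt : α → E4) (W : α → ℝ) (hW : ∀ a, 0 ≤ W a) : Cls α where
  C m p f := ∃ B, 0 ≤ B ∧ ∀ a, At (f a) (pt a) ∧ js m (f a) (pt a) ≤ B * W a ^ p
  m0 := 0
  pts a := {pt a}
  congr := fun ⟨B, hB, h⟩ e => ⟨B, hB, fun a =>
    ⟨(h a).1.congr_of_eventuallyEq (e a _ rfl).symm, (js_congr _ (e a _ rfl)).ge.trans (h a).2⟩⟩
  const := fun _ c => ⟨c ^ 2, sq_nonneg c, fun a =>
    ⟨contDiffAt_const, by rw [js_const, pow_zero, mul_one]⟩⟩
  zero := fun _ _ => ⟨0, le_rfl, fun a => ⟨contDiffAt_const, by rw [js_zero_fn, zero_mul]⟩⟩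
  add := fun ⟨B, hB, h⟩ ⟨B', hB', h'⟩ => ⟨2 * B + 2 * B', by positivity, fun a =>
    ⟨(h a).1.add (h' a).1, (js_add _ (h a).1 (h' a).1).trans (by linarith [(h a).2, (h' a).2])⟩⟩
  neg := fun ⟨B, hB, h⟩ => ⟨B, hB, fun a => ⟨(h a).1.neg, (js_neg _ _ _).le.trans (h a).2⟩⟩
  mul := fun {_ l p q _ _} _ hl ⟨B, hB, h⟩ ⟨B', hB', h'⟩ => ⟨5 ^ l * B * B', by positivity, fun a =>
    ⟨(h a).1.mul (h' a).1,
      (js_mul_le l (h a).1 (h' a).1 ((js_mono hl _ _).trans (h a).2)).trans (by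
        have h0 := hW a
        refine (mul_le_mul_of_nonneg_left (h' a).2 (by positivity)).trans (le_of_eq ?_)
        ring)⟩⟩
  der := fun i ⟨B, hB, h⟩ => ⟨B, hB, fun a => ⟨at_pd (h a).1 i, (js_pd _ _ _ i).trans (h a).2⟩⟩
  lev := fun ⟨B, hB, h⟩ => ⟨B, hB, fun a => ⟨(h a).1, (js_le_succ _ _ _).trans (h a).2⟩⟩

/-- Pairs of functions that agree near `y`. -/
def ag (y : E4) : Cls Bool where
  C _ _ f := f true =ᶠ[𝓝 y] f false
  m0 := 0
  pts _ := {y}
  congr := fun h e => ((e true y rfl).symm.trans h).trans (e false y rfl)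
  const := fun _ _ => EventuallyEq.rfl
  zero := fun _ _ => EventuallyEq.rfl
  add := fun h h' => h.add h'
  neg := fun h => h.neg
  mul := fun _ _ h h' => h.mul h'
  der := fun i h => pd_congr h i
  lev := fun h => h

/-- Functions that vanish near `y` if the order is positive. -/
def vz (y : E4) : Cls Unit where
  C _ p f := p ≠ 0 → f () =ᶠ[𝓝 y] 0
  m0 := 0
  pts _ := {y}
  congr := fun h e hp => (e () y rfl).symm.trans (h hp)
  const := fun _ _ hp => absurd rfl hp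
  zero := fun _ _ _ => EventuallyEq.rfl
  add := fun h h' hp => ((h hp).add (h' hp)).trans (by rw [add_zero])
  neg := fun h hp => (h hp).neg.trans (by rw [neg_zero])
  mul := fun {_ _ p q _ _} _ _ h h' hp => by
    by_cases h0 : p = 0
    · exact (h' (by omega)).mono fun z hz => by simp [hz]
    · exact (h h0).mono fun z hz => by simp [hz]
  der := fun i h hp => (pd_congr (h hp) i).trans (by rw [pd_zero])
  lev := fun h => h

/-- The lower order part of `Pop`. -/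
noncomputable def low (μ : ℝ) (G h : Tn) (i j : Fin 4) : Fn :=
  (fun z => Pop μ G h z i j) + LA (inv G) fun z => h z i j

theorem pp_eq : PP = Pop 3 := by
  funext G h p
  simp only [PP, Pop]
  norm_num

/-- `Cls.Mt.lich` for the class `ag y`. -/
theorem pop_congr (μ : ℝ) {G G' h h' : Tn} {y : E4} (e : G =ᶠ[𝓝 y] G') (e' : h =ᶠ[𝓝 y] h') :
    Pop μ G h =ᶠ[𝓝 y] Pop μ G' h' := by
  have t : ∀ {k k' : Tn} (m : ℕ), k =ᶠ[𝓝 y] k' → (ag y).T m 0 fun b => cond b k k' :=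
    fun _ e i j => e.mono fun _ hz => congrFun (congrFun hz i) j
  have hG : (ag y).Mt 0 fun b => cond b G G' :=
    ⟨le_rfl, t _ e, fun i j => e.mono fun _ hz =>
      congrFun (congrFun (congrArg (fun M : Mat => M⁻¹) hz) i) j⟩
  have h1 : ∀ᶠ z in 𝓝 y, ∀ i j, lich G h z i j = lich G' h' z i j :=
    eventually_all.2 fun i => eventually_all.2 fun j => hG.lich le_rfl (t _ e') i j
  filter_upwards [h1, e'] with z h2 h3
  rw [Pop, Pop, h3, Matrix.ext h2]

theorem pop_congr_on (μ : ℝ) (G : Tn) {h h' : Tn} {U : Set E4} (hU : IsOpen U) (e : EqOn h h' U) :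
    EqOn (Pop μ G h) (Pop μ G h') U := fun _ hy =>
  (pop_congr μ EventuallyEq.rfl (e.eventuallyEq_of_mem (hU.mem_nhds hy))).eq_of_nhds

/-- `Cls.Mt.lich` for the class `vz y`. -/
theorem pop_zero (μ : ℝ) (G : Tn) {h : Tn} {y : E4} (e : h =ᶠ[𝓝 y] 0) :
    Pop μ G h =ᶠ[𝓝 y] 0 := by
  have hG : (vz y).Mt 0 fun _ => G :=
    ⟨le_rfl, fun _ _ hp => absurd rfl hp, fun _ _ hp => absurd rfl hp⟩
  have hh : (vz y).T 2 1 fun _ => h := fun i j _ => e.mono fun _ hz => congrFun (congrFun hz i) j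
  have h1 : ∀ᶠ z in 𝓝 y, ∀ i j, lich G h z i j = (0 : Mat) i j :=
    eventually_all.2 fun i => eventually_all.2 fun j => hG.lich le_rfl hh i j one_ne_zero
  filter_upwards [h1, e] with z h2 h3
  rw [Pop, h3, Matrix.ext h2, Pi.zero_apply, smul_zero, add_zero]

/-- Use the class `pw` on the type of triples `(S, G, y)` with `Co k S C G` and `y ∈ S`, weight `1`:
`Cls.T.det`, `det_ge`, `js_inv_pow` with `k = 1`, `Cls.T.inv`; ellipticity by `ell_inv`. -/
theorem co_inv (k : ℕ) (C : ℝ) : ∃ C', ∀ (S : Set E4) (G : Tn), Co k S C G → Co k S C' (inv G) := by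
  by_cases h1 : 1 ≤ C
  swap
  · exact ⟨1, fun _ _ h => absurd h.one h1⟩
  have hC : 0 < C := one_pos.trans_le h1
  let α : Type := {t : Set E4 × Tn × E4 // Co k t.1 C t.2.1 ∧ t.2.2 ∈ t.1}
  let Z : Cls α := pw (fun a => a.1.2.2) (fun _ => 1) fun _ => zero_le_one
  have hh : Z.T k 0 fun a => a.1.2.1 := fun i j => ⟨C, hC.le, fun a =>
    ⟨a.2.1.sm i j _ a.2.2, by simpa using a.2.1.bdd _ a.2.2 i j⟩⟩
  obtain ⟨B, -, hB⟩ := Cls.T.det (S := Z) (Nat.zero_le k) hh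
  obtain ⟨D, hD, H⟩ := js_inv_pow k 1 (c := (24 * C ^ 4)⁻¹) (by positivity) B
  have hdet : ∀ a : α, (24 * C ^ 4)⁻¹ ≤ (a.1.2.1 a.1.2.2).det := fun a =>
    det_ge hC (a.2.1.symm _ a.2.2) (a.2.1.ell _ a.2.2)
  have hd : Z.C k 0 fun a y => ((a.1.2.1 y).det)⁻¹ := ⟨D, hD, fun a =>
    ⟨(hB a).1.inv (lt_of_lt_of_le (by positivity) (hdet a)).ne', by
      simpa using H _ _ (hB a).1 ((hdet a).trans (le_abs_self _)) (by simpa using (hB a).2)⟩⟩
  choose E hE0 hE using Cls.T.inv (S := Z) (Nat.zero_le k) hh hd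
  have hs : ∀ i j, E i j ≤ ∑ i, ∑ j, E i j := fun i j =>
    (Finset.single_le_sum (fun j _ => hE0 i j) (Finset.mem_univ j)).trans
      (Finset.single_le_sum (f := fun i => ∑ j, E i j)
        (fun i _ => Finset.sum_nonneg fun j _ => hE0 i j) (Finset.mem_univ i))
  have h0 := (hE0 0 0).trans (hs 0 0)
  refine ⟨4 * C + ∑ i, ∑ j, E i j, fun S G h => ⟨by linarith,
    fun i j y hy => (hE i j ⟨(S, G, y), h, hy⟩).1, fun y hy => ?_, fun y hy v => ?_,
    fun y hy i j => ?_⟩⟩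
  · simp only [inv, Matrix.transpose_nonsing_inv, h.symm y hy]
  · have h2 := ell_inv (h.pos hy) (h.abs_le hy) v
    have h3 : 0 ≤ v ⬝ᵥ (G y)⁻¹ *ᵥ v :=
      nonneg_of_mul_nonneg_right ((Finset.sum_nonneg fun i _ => mul_self_nonneg (v i)).trans h2)
        (by positivity)
    exact h2.trans (mul_le_mul_of_nonneg_right (by linarith) h3)
  · have h2 := (hE i j ⟨(S, G, y), h, hy⟩).2
    rw [pow_zero, mul_one] at h2
    linarith [hs i j]

theorem op_alg {A : Type} [CommRing A] (c : Geo A) (M : MA A) (Z : Fin 4 → MA A) :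
    (-∑ a, ∑ b, c.H a b • (-c.dm a (Z b) - (c.w a)ᵀ * c.nab b M - c.nab b M * c.w a -
      ∑ e, c.w a e b • c.nab e M)) - (2 : A) • c.rring M + c.ric * c.H * M + M * c.H * c.ric =
      c.lich M + ∑ a, ∑ b, c.H a b • (c.dm a (c.nab b M) + c.dm a (Z b)) := by
  have e : ∀ a b, -c.dm a (Z b) - (c.w a)ᵀ * c.nab b M - c.nab b M * c.w a -
      ∑ e, c.w a e b • c.nab e M = c.nab2 a b M - (c.dm a (c.nab b M) + c.dm a (Z b)) := by
    intro a b
    have e1 : c.nab2 a b M = c.dm a (c.nab b M) - (c.w a)ᵀ * c.nab b M - c.nab b M * c.w a -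
      ∑ e, c.w a e b • c.nab e M := rfl
    rw [e1]
    abel
  simp only [e, smul_sub, Finset.sum_sub_distrib, Geo.lich, Geo.rough]
  abel

/-- For every class: `nab b h = dm b h - Z b` with `Z b = (w b)ᵀ * h + h * w b` of level `l + 1`, and
`dm a (nab b h) = dm a (dm b h) - dm a (Z b)` near the points (`pd_sub_ev`; all members are
smooth at the points by `hs`), so the second derivatives cancel; then use `Cls.congr` and the
lemmas `Mt.gw`, `Mt.gnab`, `Mt.gzero`. -/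
theorem cls_low {α : Type} {S : Cls α} {n l p : ℕ} {G h : α → Tn}
    (hs : ∀ m q f, S.C m q f → ∀ a, ∀ y ∈ S.pts a, At (f a) y) (hG : S.Mt n G) (hl : l ≤ n)
    (hh : S.T (l + 1) p h) (i j : Fin 4) :
    S.C l p fun a => (fun z => lich (G a) (h a) z i j) + LA (inv (G a)) fun z => h a z i j := by
  have hM : S.R (l + 1) p fun a => mf (h a) := hh
  have h0 : S.m0 ≤ n + 1 := hG.le.trans (by omega)
  have hZ : ∀ b, S.R (l + 1) p fun a =>
      ((geo (G a)).w b)ᵀ * mf (h a) + mf (h a) * (geo (G a)).w b := fun b =>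
    ((hG.gw b).tr.mulL h0 (by omega) hM).add (hM.mulR h0 (by omega) (hG.gw b))
  have hN : ∀ b, S.R l p fun a => (geo (G a)).nab b (mf (h a)) := fun b =>
    hG.gnab (by omega) hM b
  have h1 := (Cls.R.sum fun c => Cls.R.sum fun b => Cls.R.smulL hG.le hl (hG.gH c b)
    (((((hZ b).dm (G := G) c).neg.sub ((hG.gw0 c).tr.mulL hG.le hl (hN b))).sub
      ((hN b).mulR hG.le hl (hG.gw0 c))).sub
      (Cls.R.sum fun e => Cls.R.smulL hG.le hl (hG.gw0 c e b) (hN e)))).neg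
  obtain ⟨h3, h4, h5⟩ := hG.gzero hl (hM.levLe (l := l) (by omega))
  refine S.congr ((((h1.sub h3).add h4).add h5) i j) fun a y hy => ?_
  have e : ∀ c b, ∀ᶠ z in 𝓝 y, ((geo (G a)).dm c ((geo (G a)).nab b (mf (h a))) +
      (geo (G a)).dm c (((geo (G a)).w b)ᵀ * mf (h a) + mf (h a) * (geo (G a)).w b)) i j z =
      pd c (pd b fun z => h a z i j) z := by
    intro c b
    have e1 : (geo (G a)).nab b (mf (h a)) i j = (pd b fun z => h a z i j) -
        (((geo (G a)).w b)ᵀ * mf (h a) + mf (h a) * (geo (G a)).w b) i j := by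
      rw [Geo.nab, sub_sub]
      rfl
    filter_upwards [pd_sub_ev (at_pd (hs _ _ _ (hh i j) a y hy) b)
      (hs _ _ _ (hZ b i j) a y hy) c] with z hz
    change pd c ((geo (G a)).nab b (mf (h a)) i j) z +
      pd c ((((geo (G a)).w b)ᵀ * mf (h a) + mf (h a) * (geo (G a)).w b) i j) z = _
    rw [e1, hz, Pi.sub_apply, sub_add_cancel]
  filter_upwards [eventually_all.2 fun c => eventually_all.2 fun b => e c b] with z hz
  rw [op_alg (geo (G a)) (mf (h a)) fun b =>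
    ((geo (G a)).w b)ᵀ * mf (h a) + mf (h a) * (geo (G a)).w b]
  rw [Matrix.add_apply, Pi.add_apply, Pi.add_apply]
  congr 1
  simp only [Matrix.sum_apply, Matrix.smul_apply, Finset.sum_apply, smul_eq_mul, Pi.mul_apply, hz]
  rfl

theorem op_mt {α : Type} {pt : α → E4} {W : α → ℝ} (hW : ∀ a, 0 ≤ W a) {k : ℕ} {C : ℝ}
    {S : α → Set E4} {G : α → Tn} (hG : ∀ a, Co (k + 2) (S a) C (G a)) (hp : ∀ a, pt a ∈ S a) :
    (pw pt W hW).Mt k G := by
  have key : ∀ (C : ℝ) (G : α → Tn), (∀ a, Co (k + 2) (S a) C (G a)) →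
      (pw pt W hW).T (k + 2) 0 G := fun C G hG i j =>
    ⟨|C|, abs_nonneg C, fun a => ⟨(hG a).sm i j _ (hp a), by
      rw [pow_zero, mul_one]
      exact ((hG a).bdd _ (hp a) i j).trans (le_abs_self C)⟩⟩
  obtain ⟨C', hC'⟩ := co_inv (k + 2) C
  exact ⟨Nat.zero_le k, key C G hG, key C' _ fun a => hC' _ _ (hG a)⟩

theorem op_mu {α : Type} {pt : α → E4} {W : α → ℝ} (hW : ∀ a, 0 ≤ W a) (k : ℕ) {C : ℝ}
    {μ : α → ℝ} (hμ : ∀ a, |μ a| ≤ C) : (pw pt W hW).C k 0 fun a _ => 2 * μ a :=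
  ⟨4 * C ^ 2, by positivity, fun a => ⟨contDiffAt_const, by
    have h1 := sq_le_sq' (abs_le.1 (hμ a)).1 (abs_le.1 (hμ a)).2
    rw [js_const, pow_zero, mul_one]
    linarith⟩⟩

theorem op_h {α : Type} (pt : α → E4) (k : ℕ) {h : α → Tn}
    (hh : ∀ a i j, At (fun z => h a z i j) (pt a)) :
    (pw pt (fun a => jsM k (h a) (pt a)) fun _ => jsM_nonneg _ _ _).T k 1 h := fun i j =>
  ⟨1, zero_le_one, fun a => ⟨hh a i j, by
    rw [pow_one, one_mul]
    exact js_le_jsM _ _ _ _ _⟩⟩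

theorem op_fin {α : Type} {pt : α → E4} {W : α → ℝ} (hW : ∀ a, 0 ≤ W a) {k : ℕ}
    {F : Fin 4 → Fin 4 → α → Fn} (hF : ∀ i j, (pw pt W hW).C k 1 (F i j)) :
    ∃ C', 0 ≤ C' ∧ ∀ a i j, At (F i j a) (pt a) ∧ js k (F i j a) (pt a) ≤ C' * W a := by
  choose B hB0 hB using hF
  refine ⟨∑ i, ∑ j, B i j, Finset.sum_nonneg fun i _ => Finset.sum_nonneg fun j _ => hB0 i j,
    fun a i j => ⟨(hB i j a).1, (hB i j a).2.trans ?_⟩⟩
  rw [pow_one]
  refine mul_le_mul_of_nonneg_right ?_ (hW a)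
  exact (Finset.single_le_sum (f := fun j => B i j) (fun j _ => hB0 i j)
    (Finset.mem_univ j)).trans (Finset.single_le_sum (f := fun i => ∑ j, B i j)
      (fun i _ => Finset.sum_nonneg fun j _ => hB0 i j) (Finset.mem_univ i))

/-- The type of all data. -/
structure op_Dat (k : ℕ) (C : ℝ) : Type where
  S : Set E4
  G : Tn
  h : Tn
  μ : ℝ
  y : E4
  co : Co (k + 2) S C G
  mu : |μ| ≤ C
  mem : y ∈ S
  sm : ∀ i j, At (fun z => h z i j) y

/-- The class `pw` on the type of all data, with the weight `jsM (k + 1) h y`; `co_inv`,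
`cls_low`. The number `μ` is a family of constants of order `0` (`js_const`). -/
theorem js_low (k : ℕ) (C : ℝ) : ∃ C', 0 ≤ C' ∧ ∀ (S : Set E4) (G h : Tn) (μ : ℝ) (y : E4),
    Co (k + 2) S C G → |μ| ≤ C → y ∈ S → (∀ i j, At (fun z => h z i j) y) → ∀ i j,
      At (low μ G h i j) y ∧ js k (low μ G h i j) y ≤ C' * jsM (k + 1) h y := by
  have hW : ∀ a : op_Dat k C, 0 ≤ jsM (k + 1) a.h a.y := fun _ => jsM_nonneg _ _ _
  have hG := op_mt (pt := op_Dat.y) hW op_Dat.co op_Dat.mem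
  have hh := op_h op_Dat.y (k + 1) (op_Dat.sm (k := k) (C := C))
  have hs : ∀ m q f, (pw op_Dat.y _ hW).C m q f → ∀ a, ∀ y ∈ (pw op_Dat.y _ hW).pts a,
      At (f a) y := by
    rintro m q f ⟨B, -, hB⟩ a y rfl
    exact (hB a).1
  obtain ⟨C', h0, hC'⟩ := op_fin hW (k := k) (F := fun i j a => low a.μ a.G a.h i j) fun i j => by
    refine (pw op_Dat.y _ hW).congr ((pw op_Dat.y _ hW).add (cls_low hs hG le_rfl hh i j)
      (Cls.mulL (Nat.zero_le k) le_rfl (op_mu hW k op_Dat.mu)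
        ((pw op_Dat.y _ hW).lev (hh i j)))) fun a y _ => Eventually.of_forall fun z => ?_
    simp only [low, Pop, Pi.add_apply, Pi.mul_apply, Matrix.add_apply, Matrix.smul_apply,
      smul_eq_mul]
    ring
  exact ⟨C', h0, fun S G h μ y h1 h2 h3 h4 => hC' ⟨S, G, h, μ, y, h1, h2, h3, h4⟩⟩

/-- The same with `Cls.Mt.lich` and the weight `jsM (k + 2) h y`. -/
theorem js_pop (k : ℕ) (C : ℝ) : ∃ C', 0 ≤ C' ∧ ∀ (S : Set E4) (G h : Tn) (μ : ℝ) (y : E4),
    Co (k + 2) S C G → |μ| ≤ C → y ∈ S → (∀ i j, At (fun z => h z i j) y) → ∀ i j,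
      At (fun z => Pop μ G h z i j) y ∧
        js k (fun z => Pop μ G h z i j) y ≤ C' * jsM (k + 2) h y := by
  have hW : ∀ a : op_Dat k C, 0 ≤ jsM (k + 2) a.h a.y := fun _ => jsM_nonneg _ _ _
  have hG := op_mt (pt := op_Dat.y) hW op_Dat.co op_Dat.mem
  have hh := op_h op_Dat.y (k + 2) (op_Dat.sm (k := k) (C := C))
  obtain ⟨C', h0, hC'⟩ := op_fin hW (k := k) (F := fun i j a z => Pop a.μ a.G a.h z i j)
    fun i j => (pw op_Dat.y _ hW).add (hG.lich le_rfl hh i j)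
      (Cls.mulL (Nat.zero_le k) le_rfl (op_mu hW k op_Dat.mu)
        (Cls.levLe (hh i j) (by omega)))
  exact ⟨C', h0, fun S G h μ y h1 h2 h3 h4 => hC' ⟨S, G, h, μ, y, h1, h2, h3, h4⟩⟩

end Pool.Agent.Lib.MP_94aef8_gt.D
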