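import Pool.Agent.Lib.MP_94aef8_gt.D.Hs

/-! The Sobolev embedding on a cube. -/

open scoped ContDiff Topology
open Filter Set MeasureTheory Matrix

namespace Pool.Agent.Lib.MP_94aef8_gt.D

theorem sob_sq {f : Fn} {y : E4} (hf : At f y) (i : Fin 4) :
    |pd i (f * f) y| ≤ f y ^ 2 + pd i f y ^ 2 := by
  rw [pd_mul (diffAt hf) (diffAt hf)]
  exact abs_le.2 ⟨by nlinarith [sq_nonneg (f y + pd i f y)],
    by nlinarith [sq_nonneg (f y - pd i f y)]⟩

theorem sob_one (n : ℕ) (f : Fn) (y : E4) (i : Fin 4) :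
    pd i f y ^ 2 ≤ ∑ a, js n (pd a f) y :=
  (sq_le_js n (pd i f) y).trans (Finset.single_le_sum (f := fun a => js n (pd a f) y)
    (fun _ _ => js_nonneg _ _ _) (Finset.mem_univ i))

/-- By induction on `n`: `pd i (js (n + 1) f) = 2 f ∂_i f + ∑ a, pd i (js n (pd a f))` (`at_js`),
`|2 f ∂_i f| ≤ f ^ 2 + (∂_i f) ^ 2` and `(∂_i f) ^ 2 ≤ js (n + 2) f`. -/
theorem sob_der (n : ℕ) {f : Fn} {y : E4} (hf : At f y) (i : Fin 4) :
    |pd i (js n f) y| ≤ (n + 1) * js (n + 1) f y := by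
  induction n generalizing f with
  | zero =>
    have e : js 0 f = f * f := funext fun z => sq (f z)
    have h1 := sob_sq hf i
    have h2 := sob_one 0 f y i
    rw [e, js_succ]
    push_cast
    linarith
  | succ n ih =>
    have e : js (n + 1) f = f * f + ∑ a, js n (pd a f) := by
      funext z
      rw [js_succ, Pi.add_apply, Pi.mul_apply, Finset.sum_apply, sq]
    have hd : ∀ a ∈ Finset.univ, At (js n (pd a f)) y := fun a _ => at_js n (at_pd hf a)
    have hff : At (f * f) y := hf.mul hf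
    have h1 := sob_sq hf i
    have h2 := sob_one (n + 1) f y i
    have h3 : |∑ a, pd i (js n (pd a f)) y| ≤ (n + 1) * ∑ a, js (n + 1) (pd a f) y := by
      rw [Finset.mul_sum]
      exact (Finset.abs_sum_le_sum_abs _ _).trans
        (Finset.sum_le_sum fun a _ => ih (at_pd hf a))
    have h4 := abs_add_le (pd i (f * f) y) (∑ a, pd i (js n (pd a f)) y)
    have h5 : (0 : ℝ) ≤ (n + 1) * f y ^ 2 := by positivity
    rw [e, pd_add (diffAt hff) (diffAt (at_sum _ hd)), pd_sum _ fun a ha => diffAt (hd a ha),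
      js_succ]
    push_cast
    linarith

/-- One variable: for all `s`, `ψ t ≤ ψ s + ∫ |ψ'|` (fundamental theorem of calculus), so
`ψ t ≤ ψ s + ∫ φ`; take the mean over `s`. -/
theorem sob_line {r : ℝ} (hr : 0 < r) {ψ ψ' φ : ℝ → ℝ} (hd : ∀ s ∈ Icc (-r) r, HasDerivAt ψ (ψ' s) s)
    (hc : ContinuousOn ψ' (Icc (-r) r)) (hφ : ContinuousOn φ (Icc (-r) r))
    (h1 : ∀ s ∈ Icc (-r) r, ψ s ≤ φ s) (h2 : ∀ s ∈ Icc (-r) r, |ψ' s| ≤ φ s) {t : ℝ}
    (ht : t ∈ Icc (-r) r) : ψ t ≤ (1 + (2 * r)⁻¹) * ∫ s in Ioo (-r) r, φ s := by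
  have hI : IntegrableOn φ (Icc (-r) r) := hφ.integrableOn_compact isCompact_Icc
  have hI' : IntegrableOn (fun s => ‖ψ' s‖) (Icc (-r) r) :=
    hc.norm.integrableOn_compact isCompact_Icc
  have hIo : IntegrableOn φ (Ioo (-r) r) := hI.mono_set Ioo_subset_Icc_self
  have h3 : ∀ s ∈ Icc (-r) r, ψ t - ∫ s in Ioo (-r) r, φ s ≤ φ s := fun s hs => by
    have hsub : uIcc s t ⊆ Icc (-r) r := uIcc_subset_Icc hs ht
    have e := intervalIntegral.integral_eq_sub_of_hasDerivAt (fun x hx => hd x (hsub hx))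
      (hc.mono hsub).intervalIntegrable
    have b1 : ‖∫ y in s..t, ψ' y‖ ≤ ∫ y in uIoc s t, ‖ψ' y‖ :=
      intervalIntegral.norm_integral_le_integral_norm_uIoc
    have b2 : ∫ y in uIoc s t, ‖ψ' y‖ ≤ ∫ y in Icc (-r) r, ‖ψ' y‖ :=
      setIntegral_mono_set hI' (Eventually.of_forall fun _ => norm_nonneg _)
        (uIoc_subset_uIcc.trans hsub).eventuallyLE
    have b3 : ∫ y in Icc (-r) r, ‖ψ' y‖ ≤ ∫ y in Icc (-r) r, φ y :=
      setIntegral_mono_on hI' hI measurableSet_Icc h2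
    rw [integral_Icc_eq_integral_Ioo (f := φ)] at b3
    rw [e] at b1
    have b4 := le_abs_self (ψ t - ψ s)
    have b5 := h1 s hs
    rw [Real.norm_eq_abs] at b1
    linarith
  have h4 := setIntegral_mono_on (μ := volume) (integrableOn_const (by simp)) hIo measurableSet_Ioo
    fun s hs => h3 s (Ioo_subset_Icc_self hs)
  rw [setIntegral_const, smul_eq_mul, Real.volume_real_Ioo_of_le (by linarith)] at h4
  generalize ∫ s in Ioo (-r) r, φ s = I at h4 ⊢
  have h5 : (0 : ℝ) < 2 * r := by linarith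
  have h6 : ψ t - I ≤ I / (2 * r) := by
    rw [le_div_iff₀ h5]
    linarith
  rw [add_mul, one_mul, inv_mul_eq_div]
  linarith

/-- The line through `x` in the direction `i`. -/
noncomputable def sob_ln (x : Fin 4 → ℝ) (i : Fin 4) (s : ℝ) : E4 :=
  WithLp.toLp 2 (Function.update x i s)

theorem sob_ln_der (x : Fin 4 → ℝ) (i : Fin 4) (s : ℝ) : HasDerivAt (sob_ln x i) (bas i) s :=
  (PiLp.continuousLinearEquiv 2 ℝ fun _ : Fin 4 => ℝ).symm.hasFDerivAt.comp_hasDerivAt s
    (hasDerivAt_update x i s)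

theorem sob_ln_mem {r : ℝ} {x : Fin 4 → ℝ} (hx : WithLp.toLp 2 x ∈ Kc r) (i : Fin 4) {s : ℝ}
    (hs : s ∈ Icc (-r) r) : sob_ln x i s ∈ Kc r := fun k => by
  change |Function.update x i s k| ≤ r
  by_cases h : k = i
  · rw [h, Function.update_self]
    exact abs_le.2 hs
  · rw [Function.update_of_ne h]
    exact hx k

theorem sob_ln_cont {r : ℝ} {x : Fin 4 → ℝ} (hx : WithLp.toLp 2 x ∈ Kc r) (i : Fin 4) {g : Fn}
    (hg : So (Kc r) g) : ContinuousOn (fun s => g (sob_ln x i s)) (Icc (-r) r) :=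
  hg.cont.comp (fun s _ => (sob_ln_der x i s).continuousAt.continuousWithinAt)
    fun _ hs => sob_ln_mem hx i hs

theorem sob_step (n : ℕ) {r : ℝ} (hr : 0 < r) {f : Fn} (hf : So (Kc r) f) {x : Fin 4 → ℝ}
    (hx : WithLp.toLp 2 x ∈ Kc r) (i : Fin 4) : js n f (WithLp.toLp 2 x) ≤
      (1 + (2 * r)⁻¹) * (n + 1) * ∫ s in Ioo (-r) r, js (n + 1) f (sob_ln x i s) := by
  have h := sob_line hr (ψ := fun s => js n f (sob_ln x i s))
    (ψ' := fun s => pd i (js n f) (sob_ln x i s))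
    (φ := fun s => (n + 1) * js (n + 1) f (sob_ln x i s))
    (fun s hs => (diffAt (hf.js n _ (sob_ln_mem hx i hs))).hasFDerivAt.comp_hasDerivAt s
      (sob_ln_der x i s))
    (sob_ln_cont hx i ((hf.js n).pd i))
    (continuousOn_const.mul (sob_ln_cont hx i (hf.js (n + 1))))
    (fun s _ => (js_le_succ n f _).trans
      (le_mul_of_one_le_left (js_nonneg _ _ _) (by linarith [n.cast_nonneg (α := ℝ)])))
    (fun s hs => sob_der n (hf _ (sob_ln_mem hx i hs)) i) (t := x i) (abs_le.1 (hx i))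
  rw [integral_const_mul, ← mul_assoc] at h
  have e : sob_ln x i (x i) = WithLp.toLp 2 x := by rw [sob_ln, Function.update_eq_self]
  rwa [e] at h

/-- The integrands. -/
noncomputable def sob_G (r : ℝ) (n : ℕ) (f : Fn) (y : E4) : ENNReal :=
  ENNReal.ofReal ((Kc r).indicator (js n f) y)

theorem sob_G_of {r : ℝ} (n : ℕ) (f : Fn) {y : E4} (hy : y ∈ Kc r) :
    sob_G r n f y = ENNReal.ofReal (js n f y) := by rw [sob_G, indicator_of_mem hy]

theorem sob_G_meas {r : ℝ} (n : ℕ) {f : Fn} (hf : So (Kc r) f) : Measurable (sob_G r n f) := by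
  classical
  have h := (hf.js n).cont.measurable_piecewise (g := 0) continuous_zero.continuousOn
    (isClosed_Kc r).measurableSet
  rw [piecewise_eq_indicator] at h
  exact h.ennreal_ofReal

theorem sob_ind {r : ℝ} (hr : 0 < r) (s : Finset (Fin 4)) : ∀ n : ℕ, ∃ C : ENNReal, C ≠ ⊤ ∧
    ∀ f : Fn, So (Kc r) f → ∀ x : Fin 4 → ℝ, WithLp.toLp 2 x ∈ Kc r →
      ENNReal.ofReal (js n f (WithLp.toLp 2 x)) ≤
        C * lmarginal (fun _ => volume.restrict (Ioo (-r) r)) s
          (fun z => sob_G r (n + s.card) f (WithLp.toLp 2 z)) x := by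
  induction s using Finset.induction_on with
  | empty =>
    refine fun n => ⟨1, ENNReal.one_ne_top, fun f _ x hx => ?_⟩
    rw [lmarginal_empty, one_mul, sob_G_of _ _ hx]
    exact le_rfl
  | insert i s hi ih =>
    intro n
    obtain ⟨C, hC, h⟩ := ih (n + 1)
    refine ⟨ENNReal.ofReal ((1 + (2 * r)⁻¹) * (n + 1)) * C,
      ENNReal.mul_ne_top ENNReal.ofReal_ne_top hC, fun f hf x hx => ?_⟩
    have hm : Measurable fun z : Fin 4 → ℝ => sob_G r (n + 1 + s.card) f (WithLp.toLp 2 z) :=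
      (sob_G_meas _ hf).comp (PiLp.volume_preserving_toLp (Fin 4)).measurable
    have hI : IntegrableOn (fun t => js (n + 1) f (sob_ln x i t)) (Ioo (-r) r) :=
      ((sob_ln_cont hx i (hf.js (n + 1))).integrableOn_compact isCompact_Icc).mono_set
        Ioo_subset_Icc_self
    rw [Finset.card_insert_of_notMem hi, show n + (s.card + 1) = n + 1 + s.card by omega,
      lmarginal_insert _ hm hi, mul_assoc, ← lintegral_const_mul' _ _ hC]
    refine (ENNReal.ofReal_le_ofReal (sob_step n hr hf hx i)).trans ?_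
    rw [ENNReal.ofReal_mul (by positivity),
      ofReal_integral_eq_lintegral_ofReal hI (Eventually.of_forall fun _ => js_nonneg _ _ _)]
    refine mul_le_mul_right (setLIntegral_mono' measurableSet_Ioo fun t ht => ?_) _
    exact h f hf _ (sob_ln_mem hx i (Ioo_subset_Icc_self ht))

/-- Put `c n = (n + 1) (1 + (2 r)⁻¹)`. For `x` in the closed cube and every coordinate `i`,
`js n f x ≤ c n * ∫ s in Ioo (-r) r, js (n + 1) f (x with x i := s)` (`sob_line`, `sob_der`,
`js_le_succ`; the derivative along the line is `pd i`). Work on `Fin 4 → ℝ` with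
`MeasureTheory.lmarginal (fun _ => volume.restrict (Ioo (-r) r))` and the functions
`F n x = ENNReal.ofReal (indicator (Kc r) (js n f) (toLp 2 x))` (measurable: continuous on a closed
set); by induction on a finset `s` (`lmarginal_insert` or `lmarginal_insert'`, `lmarginal_mono`)
`F n x ≤ C * lmarginal s (F (n + s.card)) x` for `x` in the cube; for `s = univ` use
`lmarginal_univ`, `Measure.restrict_pi_pi` (or `volume_pi`),
`PiLp.volume_preserving_toLp` and `IH.hs_eq`. Four explicit iterated integrals and Fubini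
(`integral_fin_succ_insertNth`-like lemmas) are an alternative. -/
theorem sob_js (j : ℕ) {r : ℝ} (hr : 0 < r) : ∃ C, 0 ≤ C ∧ ∀ f : Fn, So (Kc r) f →
    ∀ y ∈ Kc r, js j f y ≤ C * hs (j + 4) (Q r) f := by
  obtain ⟨C, hC, h⟩ := sob_ind hr Finset.univ j
  refine ⟨C.toReal, ENNReal.toReal_nonneg, fun f hf y hy => ?_⟩
  have h1 := h f hf y.ofLp hy
  have e1 : (univ.pi fun _ : Fin 4 => Ioo (-r) r) = WithLp.toLp 2 ⁻¹' Q r := by
    ext x
    simp only [mem_univ_pi, mem_Ioo, mem_preimage, Q, mem_ofPred_eq, abs_lt]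
  have e2 : ∫⁻ z in Q r, sob_G r (j + 4) f z = ENNReal.ofReal (hs (j + 4) (Q r) f) := by
    rw [hf.ih.hs_eq, ofReal_integral_eq_lintegral_ofReal (hf.ih.int _)
      (Eventually.of_forall fun _ => js_nonneg _ _ _)]
    exact setLIntegral_congr_fun (meas_Q r) fun z hz => sob_G_of _ _ (Q_sub_Kc r hz)
  rw [lmarginal_univ, ← Measure.restrict_pi_pi, ← volume_pi, e1, Finset.card_univ,
    Fintype.card_fin] at h1
  have e3 := (PiLp.volume_preserving_toLp (Fin 4)).setLIntegral_comp_preimage (meas_Q r)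
    (sob_G_meas (j + 4) hf)
  rw [e3, e2] at h1
  have h2 := ENNReal.toReal_mono (ENNReal.mul_ne_top hC ENNReal.ofReal_ne_top) h1
  rwa [ENNReal.toReal_ofReal (js_nonneg _ _ _), ENNReal.toReal_mul,
    ENNReal.toReal_ofReal (hs_nonneg _ _ _)] at h2

theorem sob_jsM (j : ℕ) {r : ℝ} (hr : 0 < r) : ∃ C, 0 ≤ C ∧ ∀ h : Tn, SoM (Kc r) h →
    ∀ y ∈ Kc r, jsM j h y ≤ C * hsM (j + 4) (Q r) h := by
  obtain ⟨C, hC, h⟩ := sob_js j hr
  refine ⟨C, hC, fun g hg y hy => ?_⟩
  simp only [jsM, hsM, Finset.mul_sum]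
  exact Finset.sum_le_sum fun a _ => Finset.sum_le_sum fun b _ => h _ (hg a b) y hy

end Pool.Agent.Lib.MP_94aef8_gt.D
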